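import Mathlib

/-!
# The edge-averaging process on `ℤ^d`

Definitions used in the statement of the convergence theorem.
-/

open MeasureTheory ProbabilityTheory Filter Topology
open scoped NNReal

namespace Pool.Agent.EdgeAveraging

/-- The vertices of the lattice `ℤ^d`. -/
abbrev Vertex (d : ℕ) : Type := Fin d → ℤ

/-- The nearest-neighbour edges of `ℤ^d`; the pair `(u, i)` stands for the edge `{u, u + e_i}`,
so that every edge is listed exactly once. -/
abbrev Edge (d : ℕ) : Type := Vertex d × Fin d

/-- The endpoint `u` of the edge `{u, u + e_i}`. -/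
def lower {d : ℕ} (e : Edge d) : Vertex d := e.1

/-- The endpoint `u + e_i` of the edge `{u, u + e_i}`. -/
def upper {d : ℕ} (e : Edge d) : Vertex d := e.1 + Pi.single e.2 1

variable {Ω : Type*} [MeasurableSpace Ω]

/-- `N` is (the counting process of) a rate one Poisson clock: `N t` is the number of rings in
`(0, t]`. Almost every path starts at `0`, is non-decreasing and right-continuous; the increments
over disjoint intervals are independent and `N t - N s` is Poisson with mean `t - s`. -/
structure IsPoissonClock (N : ℝ≥0 → Ω → ℕ) (P : Measure Ω) : Prop where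
  measurable : ∀ t, Measurable (N t)
  zero : ∀ᵐ ω ∂P, N 0 ω = 0
  monotone : ∀ᵐ ω ∂P, Monotone fun t => N t ω
  rightCont : ∀ᵐ ω ∂P, ∀ t, ContinuousWithinAt (fun s => N s ω) (Set.Ici t) t
  indepIncrements : HasIndepIncrements N P
  law : ∀ s t, s ≤ t → HasLaw (fun ω => N t ω - N s ω) (poissonMeasure (t - s)) P

/-- The clock with counting path `n` rings at time `t > 0`: the path jumps at `t`. -/
def RingsAt (n : ℝ≥0 → ℕ) (t : ℝ≥0) : Prop := 0 < t ∧ ∀ s, s < t → n s < n t

/-- The trajectory `g` (`g t v` is the opinion of `v` at time `t`) follows the edge-averaging rule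
driven by clocks with counting paths `n e`:
* as long as no edge at `v` rings, the opinion of `v` does not change;
* when the edge `{u, w}` rings at time `t`, both endpoints take the average of the left limits
  `g_{t-}(u)` and `g_{t-}(w)`. -/
structure IsEdgeAveragingPath {d : ℕ} (n : Edge d → ℝ≥0 → ℕ) (g : ℝ≥0 → Vertex d → ℝ) : Prop where
  stay : ∀ (v : Vertex d) (s t : ℝ≥0), s ≤ t →
    (∀ e : Edge d, (v = lower e ∨ v = upper e) → ∀ r, s < r → r ≤ t → ¬ RingsAt (n e) r) →
    g t v = g s v
  average : ∀ (e : Edge d) (t : ℝ≥0), RingsAt (n e) t →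
    ∃ a b : ℝ, Tendsto (fun s => g s (lower e)) (𝓝[<] t) (𝓝 a) ∧
      Tendsto (fun s => g s (upper e)) (𝓝[<] t) (𝓝 b) ∧
      g t (lower e) = (a + b) / 2 ∧ g t (upper e) = (a + b) / 2

/-- `f` is an edge-averaging process on `ℤ^d` with initial opinions `f0`, driven by independent
rate one Poisson clocks `N e`, `e` an edge, which are also independent of `f0`. -/
structure IsEdgeAveragingProcess {d : ℕ} (P : Measure Ω) (f0 : Ω → Vertex d → ℝ)
    (N : Edge d → ℝ≥0 → Ω → ℕ) (f : ℝ≥0 → Ω → Vertex d → ℝ) : Prop where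
  measurable_init : Measurable f0
  clock : ∀ e, IsPoissonClock (N e) P
  indep_clocks : iIndepFun (fun e ω (t : ℝ≥0) => N e t ω) P
  indep_init : IndepFun f0 (fun ω (e : Edge d) (t : ℝ≥0) => N e t ω) P
  init : ∀ᵐ ω ∂P, f 0 ω = f0 ω
  path : ∀ᵐ ω ∂P, IsEdgeAveragingPath (fun e t => N e t ω) (fun t v => f t ω v)

/-- The law of the random field `f0` is invariant under all translations of `ℤ^d`. -/
def IsStationaryField {d : ℕ} (P : Measure Ω) (f0 : Ω → Vertex d → ℝ) : Prop :=
  ∀ x : Vertex d, P.map (fun ω v => f0 ω (v + x)) = P.map f0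

/-- Every translation invariant event of the random field `f0` has probability `0` or `1`. -/
def IsErgodicField {d : ℕ} (P : Measure Ω) (f0 : Ω → Vertex d → ℝ) : Prop :=
  ∀ A : Set (Vertex d → ℝ), MeasurableSet A →
    (∀ x : Vertex d, (fun (g : Vertex d → ℝ) v => g (v + x)) ⁻¹' A = A) →
    P (f0 ⁻¹' A) = 0 ∨ P (f0 ⁻¹' A) = 1

end Pool.Agent.EdgeAveraging
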