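import Mathlib

open MeasureTheory Filter Topology

set_option linter.unusedSectionVars false
set_option linter.unusedVariables false

namespace Pool.Agent.EdgeAveraging

section Abstract

variable {E : Type*} [MeasurableSpace E]

/-- The algebra of bounded measurable real functions. -/
def BM (E : Type*) [MeasurableSpace E] : Subalgebra ℝ (E → ℝ) where
  carrier := {F | Measurable F ∧ ∃ M, ∀ s, |F s| ≤ M}
  mul_mem' := by
    rintro F G ⟨hF, M, hM⟩ ⟨hG, K, hK⟩
    refine ⟨hF.mul hG, M * K, fun s => ?_⟩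
    rw [Pi.mul_apply, abs_mul]
    exact mul_le_mul (hM s) (hK s) (abs_nonneg _) ((abs_nonneg _).trans (hM s))
  add_mem' := by
    rintro F G ⟨hF, M, hM⟩ ⟨hG, K, hK⟩
    refine ⟨hF.add hG, M + K, fun s => ?_⟩
    rw [Pi.add_apply]
    exact (abs_add_le _ _).trans (add_le_add (hM s) (hK s))
  algebraMap_mem' := by
    intro r
    refine ⟨measurable_const, |r|, fun s => ?_⟩
    simp

theorem BM.measurable (F : BM E) : Measurable F.1 := F.2.1

theorem BM.bounded (F : BM E) : ∃ M, ∀ s, |F.1 s| ≤ M := F.2.2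

theorem BM.exists_pos_bound (F : BM E) : ∃ M, 0 < M ∧ ∀ s, |F.1 s| ≤ M := by
  obtain ⟨M, hM⟩ := F.2.2
  exact ⟨max M 1, lt_max_of_lt_right one_pos, fun s => (hM s).trans (le_max_left _ _)⟩

theorem BM.integrable (F : BM E) (μ : Measure E) [IsFiniteMeasure μ] : Integrable F.1 μ := by
  obtain ⟨M, hM⟩ := F.2.2
  exact Integrable.of_bound F.2.1.aestronglyMeasurable M (ae_of_all _ fun s => by
    simpa using hM s)

@[simp] theorem BM.coe_one' (s : E) : (1 : BM E).1 s = 1 := rfl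
@[simp] theorem BM.add_apply (F G : BM E) (s : E) : (F + G).1 s = F.1 s + G.1 s := rfl
@[simp] theorem BM.sub_apply (F G : BM E) (s : E) : (F - G).1 s = F.1 s - G.1 s := rfl
@[simp] theorem BM.mul_apply (F G : BM E) (s : E) : (F * G).1 s = F.1 s * G.1 s := rfl
@[simp] theorem BM.smul_apply (c : ℝ) (F : BM E) (s : E) : (c • F).1 s = c * F.1 s := rfl
@[simp] theorem BM.neg_apply (F : BM E) (s : E) : (-F).1 s = -F.1 s := rfl
@[simp] theorem BM.zero_apply (s : E) : (0 : BM E).1 s = 0 := rfl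

theorem BM.sum_apply {ι : Type*} (I : Finset ι) (F : ι → BM E) (s : E) :
    (∑ i ∈ I, F i).1 s = ∑ i ∈ I, (F i).1 s := by
  classical
  induction I using Finset.induction_on with
  | empty => rfl
  | insert a I ha ih => rw [Finset.sum_insert ha, Finset.sum_insert ha, BM.add_apply, ih]

/-- A symmetric positive unital linear operator on bounded measurable functions. -/
structure IsSymMarkov (μ : Measure E) (Q : BM E →ₗ[ℝ] BM E) : Prop where
  pos : ∀ F : BM E, (∀ s, 0 ≤ F.1 s) → ∀ s, 0 ≤ (Q F).1 s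
  one : Q 1 = 1
  symm : ∀ F G : BM E, ∫ s, (Q F).1 s * G.1 s ∂μ = ∫ s, F.1 s * (Q G).1 s ∂μ

namespace IsSymMarkov

variable {μ : Measure E} [IsProbabilityMeasure μ] {Q : BM E →ₗ[ℝ] BM E}

theorem mono (h : IsSymMarkov μ Q) {F G : BM E} (hFG : ∀ s, F.1 s ≤ G.1 s) (s : E) :
    (Q F).1 s ≤ (Q G).1 s := by
  have := h.pos (G - F) (fun s => by simpa using hFG s) s
  rw [map_sub, BM.sub_apply] at this
  linarith

theorem map_const (h : IsSymMarkov μ Q) (c : ℝ) (s : E) : (Q (c • (1 : BM E))).1 s = c := by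
  rw [map_smul, h.one]
  simp

theorem le_of_le (h : IsSymMarkov μ Q) {F : BM E} {M : ℝ} (hF : ∀ s, F.1 s ≤ M) (s : E) :
    (Q F).1 s ≤ M := by
  have := h.mono (F := F) (G := M • (1 : BM E)) (fun s => by simpa using hF s) s
  rwa [h.map_const] at this

theorem abs_le_of_abs_le (h : IsSymMarkov μ Q) {F : BM E} {M : ℝ} (hF : ∀ s, |F.1 s| ≤ M)
    (s : E) : |(Q F).1 s| ≤ M := by
  rw [abs_le]
  constructor
  · have := h.le_of_le (F := -F) (M := M) (fun s => by
      simpa using (neg_le_abs _).trans (hF s)) s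
    rw [map_neg, BM.neg_apply] at this
    linarith
  · exact h.le_of_le (fun s => (le_abs_self _).trans (hF s)) s

theorem sq_le (h : IsSymMarkov μ Q) (F : BM E) (s : E) : (Q F).1 s ^ 2 ≤ (Q (F * F)).1 s := by
  set c := (Q F).1 s with hc
  have h0 := h.pos ((F - c • (1 : BM E)) * (F - c • (1 : BM E))) (fun s => by
    simpa using mul_self_nonneg _) s
  have h1 : (F - c • (1 : BM E)) * (F - c • (1 : BM E))
      = F * F - (2 * c) • F + (c ^ 2) • (1 : BM E) := by
    ext s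
    simp
    ring
  rw [h1, map_add, map_sub, map_smul, BM.add_apply, BM.sub_apply, BM.smul_apply, h.map_const,
    ← hc] at h0
  linarith

theorem integral_eq (h : IsSymMarkov μ Q) (F : BM E) : ∫ s, (Q F).1 s ∂μ = ∫ s, F.1 s ∂μ := by
  have := h.symm F 1
  rw [h.one] at this
  simpa using this

theorem integral_sq_le (h : IsSymMarkov μ Q) (F : BM E) :
    ∫ s, (Q F).1 s ^ 2 ∂μ ≤ ∫ s, F.1 s ^ 2 ∂μ := by
  have h1 : ∫ s, (Q F).1 s ^ 2 ∂μ ≤ ∫ s, (Q (F * F)).1 s ∂μ := by
    refine integral_mono ?_ (BM.integrable (Q (F * F)) μ) (fun s => h.sq_le F s)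
    have := BM.integrable (Q F * Q F) μ
    refine this.congr (ae_of_all _ fun s => ?_)
    simp [pow_two]
  rw [h.integral_eq] at h1
  refine h1.trans (le_of_eq ?_)
  congr 1
  ext s
  simp [pow_two]

theorem comp {Q' : BM E →ₗ[ℝ] BM E} (h : IsSymMarkov μ Q) (h' : IsSymMarkov μ Q')
    (hc : ∀ F, Q (Q' F) = Q' (Q F)) : IsSymMarkov μ (Q ∘ₗ Q') where
  pos F hF s := h.pos _ (h'.pos _ hF) s
  one := by rw [LinearMap.comp_apply, h'.one, h.one]
  symm F G := by
    rw [LinearMap.comp_apply, LinearMap.comp_apply, h.symm, h'.symm, hc]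

theorem id : IsSymMarkov μ (LinearMap.id : BM E →ₗ[ℝ] BM E) where
  pos F hF s := hF s
  one := rfl
  symm F G := rfl

theorem pow (h : IsSymMarkov μ Q) (n : ℕ) : IsSymMarkov μ (Q ^ n) := by
  induction n with
  | zero => exact IsSymMarkov.id
  | succ n ih =>
    have : Q ^ (n + 1) = (Q ^ n) ∘ₗ Q := by
      rw [pow_succ]; rfl
    rw [this]
    refine ih.comp h (fun F => ?_)
    have h1 : (Q ^ n * Q) F = (Q * Q ^ n) F := by rw [← pow_succ, ← pow_succ']
    exact h1

/-- moving powers across the pairing -/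
theorem integral_pow_mul_pow (h : IsSymMarkov μ Q) (F G : BM E) (m n : ℕ) :
    ∫ s, ((Q ^ m) F).1 s * ((Q ^ n) G).1 s ∂μ = ∫ s, F.1 s * ((Q ^ (m + n)) G).1 s ∂μ := by
  rw [(h.pow m).symm]
  have : (Q ^ m) ((Q ^ n) G) = (Q ^ (m + n)) G := by
    rw [pow_add]; rfl
  rw [this]

/-- `b j = ∫ F (Q^2)^j F = ∫ (Q^j F)^2` -/
theorem integral_sq_eq (h : IsSymMarkov μ Q) (F : BM E) (j : ℕ) :
    ∫ s, ((Q ^ j) F).1 s ^ 2 ∂μ = ∫ s, F.1 s * ((Q ^ (2 * j)) F).1 s ∂μ := by
  rw [two_mul, ← h.integral_pow_mul_pow F F j j]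
  simp only [pow_two]

theorem integral_sq_sub (h : IsSymMarkov μ Q) (F : BM E) (m n : ℕ) :
    ∫ s, (((Q ^ m) F).1 s - ((Q ^ n) F).1 s) ^ 2 ∂μ
      = ∫ s, F.1 s * ((Q ^ (2 * m)) F).1 s ∂μ - 2 * ∫ s, F.1 s * ((Q ^ (m + n)) F).1 s ∂μ
        + ∫ s, F.1 s * ((Q ^ (2 * n)) F).1 s ∂μ := by
  have h1 : ∀ s, (((Q ^ m) F).1 s - ((Q ^ n) F).1 s) ^ 2
      = ((Q ^ m) F).1 s ^ 2 - 2 * (((Q ^ m) F).1 s * ((Q ^ n) F).1 s) + ((Q ^ n) F).1 s ^ 2 := by
    intro s; ring
  have i1 : Integrable (fun s => ((Q ^ m) F).1 s ^ 2) μ :=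
    (BM.integrable ((Q ^ m) F * (Q ^ m) F) μ).congr (ae_of_all _ fun s => by simp [pow_two])
  have i2 : Integrable (fun s => ((Q ^ n) F).1 s ^ 2) μ :=
    (BM.integrable ((Q ^ n) F * (Q ^ n) F) μ).congr (ae_of_all _ fun s => by simp [pow_two])
  have i3 : Integrable (fun s => 2 * (((Q ^ m) F).1 s * ((Q ^ n) F).1 s)) μ :=
    (BM.integrable ((Q ^ m) F * (Q ^ n) F) μ).const_mul 2
  have i4 : Integrable (fun s => ((Q ^ m) F).1 s ^ 2
      - 2 * (((Q ^ m) F).1 s * ((Q ^ n) F).1 s)) μ := i1.sub i3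
  simp_rw [h1]
  rw [integral_add i4 i2, integral_sub i1 i3, integral_const_mul,
    h.integral_sq_eq, h.integral_sq_eq, h.integral_pow_mul_pow]

/-- the correlation sequence `b n = ∫ F Q^{2n} F`. -/
noncomputable def corr (μ : Measure E) (Q : BM E →ₗ[ℝ] BM E) (F : BM E) (n : ℕ) : ℝ :=
  ∫ s, F.1 s * ((Q ^ (2 * n)) F).1 s ∂μ

theorem corr_eq (h : IsSymMarkov μ Q) (F : BM E) (n : ℕ) :
    corr μ Q F n = ∫ s, ((Q ^ n) F).1 s ^ 2 ∂μ := (h.integral_sq_eq F n).symm

theorem corr_nonneg (h : IsSymMarkov μ Q) (F : BM E) (n : ℕ) : 0 ≤ corr μ Q F n := by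
  rw [h.corr_eq]
  exact integral_nonneg fun s => sq_nonneg _

theorem corr_succ_le (h : IsSymMarkov μ Q) (F : BM E) (n : ℕ) :
    corr μ Q F (n + 1) ≤ corr μ Q F n := by
  rw [h.corr_eq, h.corr_eq]
  have : (Q ^ (n + 1)) F = Q ((Q ^ n) F) := by rw [pow_succ']; rfl
  rw [this]
  exact h.integral_sq_le _

theorem corr_antitone (h : IsSymMarkov μ Q) (F : BM E) : Antitone (corr μ Q F) :=
  antitone_nat_of_succ_le (h.corr_succ_le F)

theorem corr_convex (h : IsSymMarkov μ Q) (F : BM E) (n : ℕ) :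
    0 ≤ corr μ Q F n - 2 * corr μ Q F (n + 1) + corr μ Q F (n + 2) := by
  have h1 := h.integral_sq_sub F n (n + 2)
  have h2 : 0 ≤ ∫ s, (((Q ^ n) F).1 s - ((Q ^ (n + 2)) F).1 s) ^ 2 ∂μ :=
    integral_nonneg fun s => sq_nonneg _
  have h3 : n + (n + 2) = 2 * (n + 1) := by ring
  rw [h1, h3] at h2
  exact h2

/-- the even iterates of `Q` form an `L²`-Cauchy sequence -/
theorem integral_sq_sub_even (h : IsSymMarkov μ Q) (F : BM E) (m n : ℕ) :
    ∫ s, (((Q ^ (2 * m)) F).1 s - ((Q ^ (2 * n)) F).1 s) ^ 2 ∂μ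
      = corr μ Q F (2 * m) - 2 * corr μ Q F (m + n) + corr μ Q F (2 * n) := by
  rw [h.integral_sq_sub]
  have : 2 * m + 2 * n = 2 * (m + n) := by ring
  rw [this]
  rfl

/-- Stein's square function estimate. -/
theorem stein_sum (h : IsSymMarkov μ Q) (F : BM E) (N : ℕ) :
    ∑ j ∈ Finset.range N, ((j : ℝ) + 1) *
      ∫ s, (((Q ^ (2 * (j + 1))) F).1 s - ((Q ^ (2 * j)) F).1 s) ^ 2 ∂μ ≤ corr μ Q F 0 := by
  have key : ∀ N : ℕ, ∑ j ∈ Finset.range N, ((j : ℝ) + 1) *
      ∫ s, (((Q ^ (2 * (j + 1))) F).1 s - ((Q ^ (2 * j)) F).1 s) ^ 2 ∂μ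
      ≤ corr μ Q F 0 - corr μ Q F (2 * N)
        - N * (corr μ Q F (2 * N) - corr μ Q F (2 * N + 1)) := by
    intro N
    induction N with
    | zero => simp
    | succ N ih =>
      rw [Finset.sum_range_succ, h.integral_sq_sub_even]
      have e1 : 2 * (N + 1) = 2 * N + 2 := by ring
      have e2 : N + 1 + N = 2 * N + 1 := by ring
      rw [e1, e2]
      have c1 := h.corr_convex F (2 * N)
      have c2 := h.corr_convex F (2 * N + 1)
      have c3 : corr μ Q F (2 * N + 1 + 2) = corr μ Q F (2 * N + 2 + 1) := rfl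
      have c4 : corr μ Q F (2 * N + 1 + 1) = corr μ Q F (2 * N + 2) := rfl
      rw [c4, c3] at c2
      push_cast
      have hN : (0 : ℝ) ≤ N := Nat.cast_nonneg N
      have d1 := h.corr_succ_le F (2 * N)
      have d2 := h.corr_succ_le F (2 * N + 1)
      have d3 := h.corr_succ_le F (2 * N + 2)
      rw [c4] at d2
      nlinarith [mul_nonneg hN c2, mul_nonneg hN c1]
  refine (key N).trans ?_
  have h1 := h.corr_nonneg F (2 * N)
  have h2 := h.corr_succ_le F (2 * N)
  have hN : (0 : ℝ) ≤ N := Nat.cast_nonneg N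
  nlinarith [mul_nonneg hN (sub_nonneg.2 h2)]


/-! ### Hopf's maximal ergodic lemma -/

/-- partial sums of iterates -/
noncomputable def partialSum (T : BM E →ₗ[ℝ] BM E) (F : BM E) (k : ℕ) : BM E :=
  ∑ j ∈ Finset.range k, (T ^ j) F

theorem partialSum_zero (T : BM E →ₗ[ℝ] BM E) (F : BM E) : partialSum T F 0 = 0 := by
  simp [partialSum]

theorem partialSum_succ (T : BM E →ₗ[ℝ] BM E) (F : BM E) (k : ℕ) :
    partialSum T F (k + 1) = F + T (partialSum T F k) := by
  rw [partialSum, partialSum, Finset.sum_range_succ', map_sum, add_comm]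
  congr 1
  refine Finset.sum_congr rfl fun j _ => ?_
  rw [pow_succ']; rfl

/-- the maximal function of the partial sums -/
noncomputable def maxSum (T : BM E →ₗ[ℝ] BM E) (F : BM E) (n : ℕ) : BM E :=
  ⟨fun s => (Finset.range (n + 1)).sup' Finset.nonempty_range_add_one
      (fun k => (partialSum T F k).1 s), by
    refine ⟨?_, ?_⟩
    · refine Finset.measurable_range_sup'' (fun k _ => BM.measurable _)
    · choose M hM using fun k => BM.bounded (partialSum T F k)
      refine ⟨∑ k ∈ Finset.range (n + 1), M k, fun s => ?_⟩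
      have hnn : ∀ k, 0 ≤ M k := fun k => (abs_nonneg _).trans (hM k s)
      rw [abs_le]
      constructor
      · have h0 : (0 : ℝ) ≤ (Finset.range (n + 1)).sup' Finset.nonempty_range_add_one
            (fun k => (partialSum T F k).1 s) := by
          have := Finset.le_sup' (fun k => (partialSum T F k).1 s)
            (Finset.mem_range.2 (Nat.succ_pos n))
          simpa [partialSum_zero] using this
        have : 0 ≤ ∑ k ∈ Finset.range (n + 1), M k := Finset.sum_nonneg fun k _ => hnn k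
        linarith
      · refine Finset.sup'_le _ _ fun k hk => ?_
        exact ((le_abs_self _).trans (hM k s)).trans
          (Finset.single_le_sum (f := M) (fun k _ => hnn k) hk)⟩

theorem le_maxSum (T : BM E →ₗ[ℝ] BM E) (F : BM E) {n k : ℕ} (hk : k ≤ n) (s : E) :
    (partialSum T F k).1 s ≤ (maxSum T F n).1 s :=
  Finset.le_sup' (fun k => (partialSum T F k).1 s) (Finset.mem_range.2 (Nat.lt_succ_of_le hk))

theorem maxSum_nonneg (T : BM E →ₗ[ℝ] BM E) (F : BM E) (n : ℕ) (s : E) :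
    0 ≤ (maxSum T F n).1 s := by
  have := le_maxSum T F (Nat.zero_le n) s
  rwa [partialSum_zero] at this

theorem exists_eq_maxSum (T : BM E →ₗ[ℝ] BM E) (F : BM E) (n : ℕ) (s : E) :
    ∃ k ≤ n, (maxSum T F n).1 s = (partialSum T F k).1 s := by
  obtain ⟨k, hk, h⟩ := Finset.exists_mem_eq_sup' (s := Finset.range (n + 1))
    Finset.nonempty_range_add_one (fun k => (partialSum T F k).1 s)
  exact ⟨k, Nat.lt_succ_iff.1 (Finset.mem_range.1 hk), h⟩

theorem hopf (h : IsSymMarkov μ Q) (F : BM E) (n : ℕ) :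
    0 ≤ ∫ s in {s | 0 < (maxSum Q F n).1 s}, F.1 s ∂μ := by
  set X := maxSum Q F n with hX
  have hA : MeasurableSet {s | 0 < X.1 s} := measurableSet_lt measurable_const X.2.1
  have h1 : ∀ s ∈ {s | 0 < X.1 s}, X.1 s - (Q X).1 s ≤ F.1 s := by
    intro s hs
    obtain ⟨k, hk, hks⟩ := exists_eq_maxSum Q F n s
    cases k with
    | zero =>
      rw [partialSum_zero] at hks
      have : 0 < X.1 s := hs
      rw [hX, hks] at this
      exact absurd this (lt_irrefl _)
    | succ k =>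
      rw [partialSum_succ, BM.add_apply] at hks
      have := h.mono (F := partialSum Q F k) (G := X) (fun s => le_maxSum Q F (by omega) s) s
      rw [← hX] at hks
      linarith
  have iX := BM.integrable X μ
  have iQX := BM.integrable (Q X) μ
  have h2 : ∫ s in {s | 0 < X.1 s}, (X.1 s - (Q X).1 s) ∂μ ≤ ∫ s in {s | 0 < X.1 s}, F.1 s ∂μ :=
    setIntegral_mono_on (iX.sub iQX).integrableOn (BM.integrable F μ).integrableOn hA h1
  refine le_trans ?_ h2
  rw [integral_sub iX.integrableOn iQX.integrableOn]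
  have h3 : ∫ s in {s | 0 < X.1 s}, X.1 s ∂μ = ∫ s, X.1 s ∂μ := by
    refine setIntegral_eq_integral_of_forall_compl_eq_zero fun s hs => ?_
    have h4 : ¬ 0 < X.1 s := hs
    exact le_antisymm (not_lt.1 h4) (maxSum_nonneg Q F n s)
  have h4 : ∫ s in {s | 0 < X.1 s}, (Q X).1 s ∂μ ≤ ∫ s, (Q X).1 s ∂μ :=
    setIntegral_le_integral iQX (ae_of_all _ (h.pos X (maxSum_nonneg Q F n)))
  rw [h.integral_eq X] at h4
  rw [h3]
  linarith

theorem partialSum_sub_const (h : IsSymMarkov μ Q) (F : BM E) (c : ℝ) (k : ℕ) (s : E) :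
    (partialSum Q (F - c • (1 : BM E)) k).1 s = (partialSum Q F k).1 s - k * c := by
  simp only [partialSum, BM.sum_apply, map_sub, BM.sub_apply]
  rw [Finset.sum_sub_distrib]
  congr 1
  rw [Finset.sum_congr rfl (fun j _ => (h.pow j).map_const c s)]
  simp

/-- the weak type maximal inequality for Cesaro averages -/
theorem maximal (h : IsSymMarkov μ Q) (F : BM E) (n : ℕ) {c : ℝ} (hc : 0 < c) :
    c * μ.real {s | ∃ k, 1 ≤ k ∧ k ≤ n ∧ k * c < (partialSum Q F k).1 s} ≤ ∫ s, |F.1 s| ∂μ := by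
  have hset : {s | ∃ k : ℕ, 1 ≤ k ∧ k ≤ n ∧ k * c < (partialSum Q F k).1 s}
      = {s | 0 < (maxSum Q (F - c • (1 : BM E)) n).1 s} := by
    ext s
    constructor
    · rintro ⟨k, h1, h2, h3⟩
      refine lt_of_lt_of_le ?_ (le_maxSum _ _ h2 s)
      rw [h.partialSum_sub_const]
      linarith
    · intro hs
      obtain ⟨k, hk, hks⟩ := exists_eq_maxSum Q (F - c • (1 : BM E)) n s
      have h1 : 0 < (maxSum Q (F - c • (1 : BM E)) n).1 s := hs
      rw [hks] at h1
      refine ⟨k, ?_, hk, ?_⟩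
      · rcases Nat.eq_zero_or_pos k with h0 | h0
        · rw [h0, partialSum_zero] at h1
          exact absurd h1 (lt_irrefl _)
        · exact h0
      · rw [h.partialSum_sub_const] at h1
        linarith
  rw [hset]
  set A := {s | 0 < (maxSum Q (F - c • (1 : BM E)) n).1 s}
  have h1 := h.hopf (F - c • (1 : BM E)) n
  have hF := BM.integrable F μ
  have h2 : ∫ s in A, (F - c • (1 : BM E)).1 s ∂μ = ∫ s in A, F.1 s ∂μ - c * μ.real A := by
    simp only [BM.sub_apply, BM.smul_apply, BM.coe_one', mul_one]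
    rw [integral_sub hF.integrableOn (integrable_const c)]
    simp [mul_comm]
  rw [h2] at h1
  have h3 : ∫ s in A, F.1 s ∂μ ≤ ∫ s in A, |F.1 s| ∂μ :=
    integral_mono hF.integrableOn hF.abs.integrableOn (fun s => le_abs_self _)
  have h4 : ∫ s in A, |F.1 s| ∂μ ≤ ∫ s, |F.1 s| ∂μ :=
    setIntegral_le_integral hF.abs (ae_of_all _ fun s => abs_nonneg _)
  linarith


end IsSymMarkov

end Abstract

end Pool.Agent.EdgeAveraging
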