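import Mathlib
import Pool.Agent.Helper94.EA.Markov

open MeasureTheory Filter Topology

set_option linter.unusedSectionVars false
set_option linter.unusedVariables false

namespace Pool.Agent.EdgeAveraging

namespace IsSymMarkov

variable {E : Type*} [MeasurableSpace E]
variable {μ : Measure E} [IsProbabilityMeasure μ] {Q : BM E →ₗ[ℝ] BM E}

theorem abel_identity (x : ℕ → ℝ) (n : ℕ) :
    (n : ℝ) * x n - ∑ j ∈ Finset.range n, x j
      = ∑ j ∈ Finset.range n, ((j : ℝ) + 1) * (x (j + 1) - x j) := by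
  induction n with
  | zero => simp
  | succ n ih =>
    rw [Finset.sum_range_succ, Finset.sum_range_succ, ← ih]
    push_cast
    ring

theorem cauchy_schwarz_weight (x : ℕ → ℝ) (n : ℕ) :
    (∑ j ∈ Finset.range n, ((j : ℝ) + 1) * (x (j + 1) - x j)) ^ 2
      ≤ (n : ℝ) ^ 2 * ∑ j ∈ Finset.range n, ((j : ℝ) + 1) * (x (j + 1) - x j) ^ 2 := by
  have h1 := Finset.sum_mul_sq_le_sq_mul_sq (Finset.range n) (fun j : ℕ => √((j : ℝ) + 1))
    (fun j : ℕ => √((j : ℝ) + 1) * (x (j + 1) - x j))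
  have h2 : ∀ j : ℕ, √((j : ℝ) + 1) * (√((j : ℝ) + 1) * (x (j + 1) - x j))
      = ((j : ℝ) + 1) * (x (j + 1) - x j) := by
    intro j
    rw [← mul_assoc, Real.mul_self_sqrt (by positivity)]
  have h3 : ∀ j : ℕ, (√((j : ℝ) + 1) * (x (j + 1) - x j)) ^ 2
      = ((j : ℝ) + 1) * (x (j + 1) - x j) ^ 2 := by
    intro j
    rw [mul_pow, Real.sq_sqrt (by positivity)]
  have h4 : ∀ j : ℕ, √((j : ℝ) + 1) ^ 2 = (j : ℝ) + 1 := fun j => Real.sq_sqrt (by positivity)
  simp only [h2, h3, h4] at h1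
  refine h1.trans ?_
  refine mul_le_mul_of_nonneg_right ?_ (Finset.sum_nonneg fun j _ => by positivity)
  calc ∑ j ∈ Finset.range n, ((j : ℝ) + 1) ≤ ∑ j ∈ Finset.range n, (n : ℝ) := by
        refine Finset.sum_le_sum fun j hj => ?_
        have := Finset.mem_range.1 hj
        exact_mod_cast this
    _ = (n : ℝ) ^ 2 := by simp [pow_two]

/-- Maximal inequality for the iterates of `Q ^ 2` -/
theorem maximal_pow (h : IsSymMarkov μ Q) (F : BM E) (N : ℕ) {c : ℝ} (hc : 0 < c) :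
    μ.real {s | ∃ n, 1 ≤ n ∧ n ≤ N ∧ 2 * c < |((Q ^ (2 * n)) F).1 s|}
      ≤ 2 * (∫ s, |F.1 s| ∂μ) / c + (∫ s, F.1 s ^ 2 ∂μ) / c ^ 2 := by
  set T := Q ^ 2 with hT
  have hTm : IsSymMarkov μ T := h.pow 2
  have hTn : ∀ n, T ^ n = Q ^ (2 * n) := fun n => (pow_mul Q 2 n).symm
  set A := {s | ∃ k : ℕ, 1 ≤ k ∧ k ≤ N ∧ k * c < (partialSum T F k).1 s} with hA
  set B := {s | ∃ k : ℕ, 1 ≤ k ∧ k ≤ N ∧ k * c < (partialSum T (-F) k).1 s} with hB
  set g : BM E := ∑ j ∈ Finset.range N, ((j : ℝ) + 1) •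
    (((Q ^ (2 * (j + 1))) F - (Q ^ (2 * j)) F) * ((Q ^ (2 * (j + 1))) F - (Q ^ (2 * j)) F))
    with hg
  have hg_apply : ∀ s, g.1 s = ∑ j ∈ Finset.range N, ((j : ℝ) + 1) *
      (((Q ^ (2 * (j + 1))) F).1 s - ((Q ^ (2 * j)) F).1 s) ^ 2 := by
    intro s
    rw [hg, BM.sum_apply]
    refine Finset.sum_congr rfl fun j _ => ?_
    simp [pow_two]
  set C := {s | c ^ 2 ≤ g.1 s} with hC
  have hsub : {s | ∃ n, 1 ≤ n ∧ n ≤ N ∧ 2 * c < |((Q ^ (2 * n)) F).1 s|} ⊆ A ∪ B ∪ C := by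
    rintro s ⟨n, hn1, hnN, hn⟩
    by_contra hcon
    simp only [Set.mem_union, not_or] at hcon
    obtain ⟨⟨hnA, hnB⟩, hnC⟩ := hcon
    set x : ℕ → ℝ := fun j => ((Q ^ (2 * j)) F).1 s with hx
    have hpart : (partialSum T F n).1 s = ∑ j ∈ Finset.range n, x j := by
      rw [partialSum, BM.sum_apply]
      refine Finset.sum_congr rfl fun j _ => ?_
      rw [hTn]
    have hpart' : (partialSum T (-F) n).1 s = - ∑ j ∈ Finset.range n, x j := by
      rw [partialSum, BM.sum_apply, ← Finset.sum_neg_distrib]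
      refine Finset.sum_congr rfl fun j _ => ?_
      rw [hTn, map_neg, BM.neg_apply]
    have h1 : ∑ j ∈ Finset.range n, x j ≤ n * c := by
      by_contra hlt
      exact hnA ⟨n, hn1, hnN, by rw [hpart]; linarith⟩
    have h2 : - ∑ j ∈ Finset.range n, x j ≤ n * c := by
      by_contra hlt
      exact hnB ⟨n, hn1, hnN, by rw [hpart']; linarith⟩
    have h3 : g.1 s < c ^ 2 := not_le.1 hnC
    have h4 := cauchy_schwarz_weight x n
    rw [← abel_identity] at h4
    have h5 : ∑ j ∈ Finset.range n, ((j : ℝ) + 1) * (x (j + 1) - x j) ^ 2 ≤ g.1 s := by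
      rw [hg_apply]
      refine Finset.sum_le_sum_of_subset_of_nonneg ?_ (fun j _ _ => by positivity)
      intro j hj
      rw [Finset.mem_range] at hj ⊢
      omega
    have hnpos : (0 : ℝ) < n := by exact_mod_cast hn1
    have h6 : ((n : ℝ) * x n - ∑ j ∈ Finset.range n, x j) ^ 2 < (n * c) ^ 2 := by
      refine lt_of_le_of_lt h4 ?_
      rw [mul_pow]
      have : ∑ j ∈ Finset.range n, ((j : ℝ) + 1) * (x (j + 1) - x j) ^ 2 < c ^ 2 :=
        lt_of_le_of_lt h5 h3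
      exact mul_lt_mul_of_pos_left this (by positivity)
    have h7 := abs_lt_of_sq_lt_sq h6 (by positivity)
    have h8 : |(n : ℝ) * x n| < n * (2 * c) := by
      rw [abs_lt] at h7 ⊢
      constructor <;> nlinarith [h7.1, h7.2]
    rw [abs_mul, Nat.abs_cast] at h8
    have h9 := lt_of_mul_lt_mul_left h8 hnpos.le
    exact absurd hn (not_lt.2 h9.le)
  have hmA : c * μ.real A ≤ ∫ s, |F.1 s| ∂μ := hTm.maximal F N hc
  have hmB : c * μ.real B ≤ ∫ s, |F.1 s| ∂μ := by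
    have := hTm.maximal (-F) N hc
    simpa using this
  have hmC : c ^ 2 * μ.real C ≤ ∫ s, F.1 s ^ 2 ∂μ := by
    have h1 := mul_meas_ge_le_integral_of_nonneg (μ := μ) (f := g.1)
      (ae_of_all _ fun s => by rw [hg_apply]; positivity) (BM.integrable g μ) (c ^ 2)
    refine h1.trans ?_
    have h2 : ∫ s, g.1 s ∂μ = ∑ j ∈ Finset.range N, ((j : ℝ) + 1) *
      ∫ s, (((Q ^ (2 * (j + 1))) F).1 s - ((Q ^ (2 * j)) F).1 s) ^ 2 ∂μ := by
      simp_rw [hg_apply]
      rw [integral_finsetSum]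
      · refine Finset.sum_congr rfl fun j _ => ?_
        rw [integral_const_mul]
      · intro j _
        refine Integrable.const_mul ?_ _
        refine (BM.integrable (((Q ^ (2 * (j + 1))) F - (Q ^ (2 * j)) F)
          * ((Q ^ (2 * (j + 1))) F - (Q ^ (2 * j)) F)) μ).congr (ae_of_all _ fun s => ?_)
        simp [pow_two]
    rw [h2]
    refine (h.stein_sum F N).trans (le_of_eq ?_)
    rw [h.corr_eq]
    simp
  have hle : μ.real {s | ∃ n, 1 ≤ n ∧ n ≤ N ∧ 2 * c < |((Q ^ (2 * n)) F).1 s|}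
      ≤ μ.real A + μ.real B + μ.real C :=
    (measureReal_mono hsub).trans ((measureReal_union_le _ _).trans
      (add_le_add_left (measureReal_union_le _ _) _))
  have hA' : μ.real A ≤ (∫ s, |F.1 s| ∂μ) / c := by
    rw [le_div_iff₀ hc]; linarith
  have hB' : μ.real B ≤ (∫ s, |F.1 s| ∂μ) / c := by
    rw [le_div_iff₀ hc]; linarith
  have hC' : μ.real C ≤ (∫ s, F.1 s ^ 2 ∂μ) / c ^ 2 := by
    rw [le_div_iff₀ (by positivity)]; linarith
  refine hle.trans ?_
  have : 2 * (∫ s, |F.1 s| ∂μ) / c = (∫ s, |F.1 s| ∂μ) / c + (∫ s, |F.1 s| ∂μ) / c := by ring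
  rw [this]
  linarith

theorem integrable_sq (F : BM E) : Integrable (fun s => F.1 s ^ 2) μ :=
  (BM.integrable (F * F) μ).congr (ae_of_all _ fun s => by simp [pow_two])

theorem integral_abs_sq_le (F : BM E) : (∫ s, |F.1 s| ∂μ) ^ 2 ≤ ∫ s, F.1 s ^ 2 ∂μ := by
  set a := ∫ s, |F.1 s| ∂μ with ha
  have h0 : 0 ≤ ∫ s, (|F.1 s| - a) ^ 2 ∂μ := integral_nonneg fun s => sq_nonneg _
  have hF := BM.integrable F μ
  have h1 : ∀ s, (|F.1 s| - a) ^ 2 = F.1 s ^ 2 - 2 * a * |F.1 s| + a ^ 2 := by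
    intro s
    rw [sub_sq, sq_abs]; ring
  simp_rw [h1] at h0
  have i1 : Integrable (fun s => F.1 s ^ 2 - 2 * a * |F.1 s|) μ :=
    (integrable_sq F).sub (hF.abs.const_mul _)
  rw [integral_add i1 (integrable_const _), integral_sub (integrable_sq F) (hF.abs.const_mul _),
    integral_const_mul, ← ha] at h0
  simp at h0
  nlinarith

theorem integral_abs_le_sqrt (F : BM E) : ∫ s, |F.1 s| ∂μ ≤ √(∫ s, F.1 s ^ 2 ∂μ) :=
  Real.le_sqrt_of_sq_le (integral_abs_sq_le F)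

theorem pow_even_sub_const (h : IsSymMarkov μ Q) (F : BM E) (c : ℝ) (m n : ℕ) (s : E) :
    ((Q ^ (2 * n)) ((Q ^ (2 * m)) F - c • (1 : BM E))).1 s
      = ((Q ^ (2 * (m + n))) F).1 s - c := by
  rw [map_sub, BM.sub_apply, (h.pow (2 * n)).map_const]
  have : (Q ^ (2 * n)) ((Q ^ (2 * m)) F) = (Q ^ (2 * (m + n))) F := by
    have : 2 * (m + n) = 2 * n + 2 * m := by ring
    rw [this, pow_add]; rfl
  rw [this]

/-- almost sure convergence of the iterates from `L²` convergence -/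
theorem tendsto_ae_of_L2 (h : IsSymMarkov μ Q) (F : BM E) (c : ℝ)
    (hL2 : Tendsto (fun n => ∫ s, (((Q ^ (2 * n)) F).1 s - c) ^ 2 ∂μ) atTop (𝓝 0)) :
    ∀ᵐ s ∂μ, Tendsto (fun n => ((Q ^ (2 * n)) F).1 s) atTop (𝓝 c) := by
  set e : ℕ → ℝ := fun n => ∫ s, (((Q ^ (2 * n)) F).1 s - c) ^ 2 ∂μ with he
  have he0 : ∀ n, 0 ≤ e n := fun n => integral_nonneg fun s => sq_nonneg _
  -- bad sets
  have bad : ∀ r : ℝ, 0 < r →
      μ {s | ∀ m : ℕ, ∃ n, m ≤ n ∧ 2 * r < |((Q ^ (2 * n)) F).1 s - c|} = 0 := by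
    intro r hr
    set Z := {s | ∀ m : ℕ, ∃ n, m ≤ n ∧ 2 * r < |((Q ^ (2 * n)) F).1 s - c|} with hZ
    have hbound : ∀ m : ℕ, μ Z ≤ ENNReal.ofReal (2 * √(e m) / r + e m / r ^ 2) := by
      intro m
      set G : BM E := (Q ^ (2 * m)) F - c • (1 : BM E) with hG
      have hGe : ∫ s, G.1 s ^ 2 ∂μ = e m := by
        simp [hG, he]
      set Y : ℕ → Set E := fun N => {s | ∃ n, 1 ≤ n ∧ n ≤ N ∧ 2 * r < |((Q ^ (2 * n)) G).1 s|}
        with hY
      have hZY : Z ⊆ ⋃ N, Y N := by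
        intro s hs
        obtain ⟨n, hn, hn2⟩ := hs (m + 1)
        refine Set.mem_iUnion.2 ⟨n - m, n - m, by omega, le_rfl, ?_⟩
        rw [hG, h.pow_even_sub_const]
        have : m + (n - m) = n := by omega
        rw [this]
        exact hn2
      have hmono : Monotone Y := by
        intro N N' hN s hs
        obtain ⟨n, h1, h2, h3⟩ := hs
        exact ⟨n, h1, h2.trans hN, h3⟩
      refine (measure_mono hZY).trans ?_
      rw [hmono.measure_iUnion]
      refine iSup_le fun N => ?_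
      have h1 := h.maximal_pow G N hr
      rw [← ENNReal.ofReal_toReal (measure_ne_top μ (Y N))]
      refine ENNReal.ofReal_le_ofReal ?_
      refine h1.trans ?_
      rw [hGe]
      have h2 := integral_abs_le_sqrt (μ := μ) G
      rw [hGe] at h2
      gcongr
    have hlim : Tendsto (fun m => ENNReal.ofReal (2 * √(e m) / r + e m / r ^ 2)) atTop (𝓝 0) := by
      have h1 : Tendsto (fun m => 2 * √(e m) / r + e m / r ^ 2) atTop (𝓝 (2 * √0 / r + 0 / r ^ 2)) :=
        ((((Real.continuous_sqrt.tendsto 0).comp hL2).const_mul 2).div_const r).add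
          (hL2.div_const _)
      have h2 := ENNReal.tendsto_ofReal h1
      simpa using h2
    exact le_antisymm (ge_of_tendsto' hlim hbound) zero_le
  have hall : ∀ᵐ s ∂μ, ∀ q : ℕ,
      ¬ (∀ m : ℕ, ∃ n, m ≤ n ∧ 2 * (1 / ((q : ℝ) + 1)) < |((Q ^ (2 * n)) F).1 s - c|) := by
    rw [ae_all_iff]
    intro q
    have := bad (1 / ((q : ℝ) + 1)) (by positivity)
    rw [ae_iff]
    simpa using this
  filter_upwards [hall] with s hs
  rw [Metric.tendsto_atTop]
  intro ε hε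
  obtain ⟨q, hq⟩ := exists_nat_one_div_lt (half_pos hε)
  have := hs q
  push Not at this
  obtain ⟨m, hm⟩ := this
  refine ⟨m, fun n hn => ?_⟩
  rw [Real.dist_eq]
  refine (hm n hn).trans_lt ?_
  linarith


end IsSymMarkov

end Pool.Agent.EdgeAveraging
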