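import Mathlib
import Pool.Agent.Helper94.EA.Markov2

open MeasureTheory Filter Topology

set_option linter.unusedSectionVars false
set_option linter.unusedVariables false

namespace Pool.Agent.EdgeAveraging

namespace IsSymMarkov

variable {E : Type*} [MeasurableSpace E]
variable {μ : Measure E} [IsProbabilityMeasure μ] {Q : BM E →ₗ[ℝ] BM E}

theorem BM.memLp (F : BM E) : MemLp F.1 2 μ := by
  obtain ⟨M, hM⟩ := BM.bounded F
  exact MemLp.of_bound F.2.1.aestronglyMeasurable M (ae_of_all _ fun s => by simpa using hM s)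

theorem norm_toLp_sub_sq (F G : BM E) :
    ‖(BM.memLp F : MemLp F.1 2 μ).toLp - (BM.memLp G).toLp‖ ^ 2
      = ∫ s, (F.1 s - G.1 s) ^ 2 ∂μ := by
  rw [← real_inner_self_eq_norm_sq, MeasureTheory.L2.inner_def]
  refine integral_congr_ae ?_
  filter_upwards [Lp.coeFn_sub (BM.memLp F : MemLp F.1 2 μ).toLp (BM.memLp G).toLp,
    (BM.memLp F : MemLp F.1 2 μ).coeFn_toLp, (BM.memLp G : MemLp G.1 2 μ).coeFn_toLp]
    with s h1 h2 h3
  rw [h1, Pi.sub_apply, h2, h3]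
  simp [pow_two]

theorem norm_toLp_sub_sq' (F : BM E) (G : Lp ℝ 2 μ) :
    ‖(BM.memLp F : MemLp F.1 2 μ).toLp - G‖ ^ 2 = ∫ s, (F.1 s - G s) ^ 2 ∂μ := by
  rw [← real_inner_self_eq_norm_sq, MeasureTheory.L2.inner_def]
  refine integral_congr_ae ?_
  filter_upwards [Lp.coeFn_sub (BM.memLp F : MemLp F.1 2 μ).toLp G,
    (BM.memLp F : MemLp F.1 2 μ).coeFn_toLp] with s h1 h2
  rw [h1, Pi.sub_apply, h2]
  simp [pow_two]

theorem exists_L2_limit (h : IsSymMarkov μ Q) (F : BM E) :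
    ∃ G : BM E, Tendsto (fun n => ∫ s, (((Q ^ (2 * n)) F).1 s - G.1 s) ^ 2 ∂μ) atTop (𝓝 0) := by
  obtain ⟨M, hMpos, hM⟩ := BM.exists_pos_bound F
  set X : ℕ → Lp ℝ 2 μ := fun n => (BM.memLp ((Q ^ (2 * n)) F) : MemLp _ 2 μ).toLp with hX
  -- the correlation sequence converges
  have hanti := h.corr_antitone F
  have hbdd : BddBelow (Set.range (corr μ Q F)) := ⟨0, by
    rintro _ ⟨n, rfl⟩; exact h.corr_nonneg F n⟩
  have hlim := tendsto_atTop_ciInf hanti hbdd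
  set b := ⨅ n, corr μ Q F n with hb
  have hCauchy : CauchySeq X := by
    rw [Metric.cauchySeq_iff]
    intro ε hε
    have hε2 : 0 < ε ^ 2 / 4 := by positivity
    obtain ⟨K, hK⟩ := (Metric.tendsto_atTop.1 hlim) (ε ^ 2 / 4) hε2
    refine ⟨K, fun m hm n hn => ?_⟩
    have h1 : ‖X m - X n‖ ^ 2 = corr μ Q F (2 * m) - 2 * corr μ Q F (m + n)
        + corr μ Q F (2 * n) := by
      rw [hX, norm_toLp_sub_sq, h.integral_sq_sub_even]
    have k1 := hK (2 * m) (by omega)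
    have k2 := hK (m + n) (by omega)
    have k3 := hK (2 * n) (by omega)
    rw [Real.dist_eq, abs_lt] at k1 k2 k3
    have h2 : ‖X m - X n‖ ^ 2 < ε ^ 2 := by
      rw [h1]
      have hbl : ∀ n, b ≤ corr μ Q F n := fun n => ciInf_le hbdd n
      have := hbl (m + n)
      nlinarith [k1.2, k3.2]
    rw [dist_eq_norm]
    exact lt_of_pow_lt_pow_left₀ 2 hε.le h2
  obtain ⟨L, hL⟩ := cauchySeq_tendsto_of_complete hCauchy
  have hLm : StronglyMeasurable (L : E → ℝ) := Lp.stronglyMeasurable L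
  -- clamp
  set G : BM E := ⟨fun s => max (-M) (min M (L s)), by
    refine ⟨(measurable_const.max (measurable_const.min hLm.measurable)), M, fun s => ?_⟩
    rw [abs_le]
    exact ⟨le_max_left _ _, max_le (by linarith) (min_le_left _ _)⟩⟩ with hG
  refine ⟨G, ?_⟩
  have hXL : Tendsto (fun n => ‖X n - L‖ ^ 2) atTop (𝓝 0) := by
    have := (tendsto_iff_norm_sub_tendsto_zero.1 hL)
    simpa using this.pow 2
  refine squeeze_zero (fun n => integral_nonneg fun s => sq_nonneg _) (fun n => ?_) hXL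
  rw [hX, norm_toLp_sub_sq']
  have hbd : ∀ s, |((Q ^ (2 * n)) F).1 s| ≤ M := (h.pow (2 * n)).abs_le_of_abs_le hM
  refine integral_mono (integrable_sq _ : Integrable (fun s => (((Q ^ (2 * n)) F) - G).1 s ^ 2) μ)
    ?_ (fun s => ?_)
  · have : MemLp (fun s => ((Q ^ (2 * n)) F).1 s - L s) 2 μ :=
      (BM.memLp _).sub (Lp.memLp L)
    exact this.integrable_sq
  · have h1 := abs_le.1 (hbd s)
    set x := ((Q ^ (2 * n)) F).1 s
    have hx : x = max (-M) (min M x) := by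
      rw [min_eq_right h1.2, max_eq_right h1.1]
    have h2 : |max (-M) (min M x) - max (-M) (min M (L s))| ≤ |x - L s| := by
      refine (abs_max_sub_max_le_max _ _ _ _).trans ?_
      simp only [sub_self, abs_zero]
      refine max_le (abs_nonneg _) ?_
      refine (abs_min_sub_min_le_max _ _ _ _).trans ?_
      simp
    rw [← hx] at h2
    exact sq_le_sq' (by
      have := neg_abs_le (x - max (-M) (min M (L s)))
      linarith [neg_abs_le (x - max (-M) (min M (L s)))]) (by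
      linarith [le_abs_self (x - max (-M) (min M (L s)))]) |>.trans (le_of_eq (sq_abs _))

theorem integral_sq_add_le (F G : BM E) :
    ∫ s, (F.1 s + G.1 s) ^ 2 ∂μ ≤ 2 * ∫ s, F.1 s ^ 2 ∂μ + 2 * ∫ s, G.1 s ^ 2 ∂μ := by
  rw [← integral_const_mul, ← integral_const_mul, ← integral_add
    ((integrable_sq F).const_mul 2) ((integrable_sq G).const_mul 2)]
  refine integral_mono (integrable_sq (F + G)) (((integrable_sq F).const_mul 2).add
    ((integrable_sq G).const_mul 2)) (fun s => ?_)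
  simp only [Pi.add_apply]
  nlinarith [sq_nonneg (F.1 s - G.1 s)]

theorem limit_invariant (h : IsSymMarkov μ Q) (F G : BM E)
    (hG : Tendsto (fun n => ∫ s, (((Q ^ (2 * n)) F).1 s - G.1 s) ^ 2 ∂μ) atTop (𝓝 0)) :
    ∀ᵐ s ∂μ, ((Q ^ 2) G).1 s = G.1 s := by
  have hz : ∫ s, (((Q ^ 2) G).1 s - G.1 s) ^ 2 ∂μ ≤ 0 := by
    have hb : ∀ n, ∫ s, (((Q ^ 2) G).1 s - G.1 s) ^ 2 ∂μ
        ≤ 2 * ∫ s, (((Q ^ (2 * n)) F).1 s - G.1 s) ^ 2 ∂μ
          + 2 * ∫ s, (((Q ^ (2 * (n + 1))) F).1 s - G.1 s) ^ 2 ∂μ := by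
      intro n
      have h1 := integral_sq_add_le (μ := μ) ((Q ^ 2) (G - (Q ^ (2 * n)) F))
        ((Q ^ (2 * (n + 1))) F - G)
      have h2 : ∀ s, ((Q ^ 2) (G - (Q ^ (2 * n)) F)).1 s + ((Q ^ (2 * (n + 1))) F - G).1 s
          = ((Q ^ 2) G).1 s - G.1 s := by
        intro s
        have : (Q ^ 2) ((Q ^ (2 * n)) F) = (Q ^ (2 * (n + 1))) F := by
          have : 2 * (n + 1) = 2 + 2 * n := by ring
          rw [this, pow_add]; rfl
        rw [map_sub, this, BM.sub_apply, BM.sub_apply]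
        ring
      simp_rw [h2] at h1
      refine h1.trans ?_
      have h3 := (h.pow 2).integral_sq_le (G - (Q ^ (2 * n)) F)
      have h4 : ∫ s, (G - (Q ^ (2 * n)) F).1 s ^ 2 ∂μ
          = ∫ s, (((Q ^ (2 * n)) F).1 s - G.1 s) ^ 2 ∂μ := by
        congr 1; ext s; rw [BM.sub_apply]; ring
      rw [h4] at h3
      have h5 : ∫ s, ((Q ^ (2 * (n + 1))) F - G).1 s ^ 2 ∂μ
          = ∫ s, (((Q ^ (2 * (n + 1))) F).1 s - G.1 s) ^ 2 ∂μ := rfl
      rw [h5]
      linarith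
    have hlim : Tendsto (fun n => 2 * ∫ s, (((Q ^ (2 * n)) F).1 s - G.1 s) ^ 2 ∂μ
          + 2 * ∫ s, (((Q ^ (2 * (n + 1))) F).1 s - G.1 s) ^ 2 ∂μ) atTop (𝓝 (2 * 0 + 2 * 0)) :=
      (hG.const_mul 2).add ((hG.comp (tendsto_add_atTop_nat 1)).const_mul 2)
    have := ge_of_tendsto' hlim hb
    simpa using this
  have hint : Integrable (fun s => (((Q ^ 2) G).1 s - G.1 s) ^ 2) μ :=
    integrable_sq ((Q ^ 2) G - G)
  have h0 : ∫ s, (((Q ^ 2) G).1 s - G.1 s) ^ 2 ∂μ = 0 :=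
    le_antisymm hz (integral_nonneg fun s => sq_nonneg _)
  have h1 := (integral_eq_zero_iff_of_nonneg (fun s => sq_nonneg _) hint).1 h0
  filter_upwards [h1] with s hs
  have h2 : (((Q ^ 2) G).1 s - G.1 s) ^ 2 = 0 := hs
  have h3 := pow_eq_zero_iff (two_ne_zero) |>.1 h2
  linarith

/-- **Pointwise ergodic theorem** for the iterates of the square of a symmetric Markov operator. -/
theorem tendsto_ae (h : IsSymMarkov μ Q)
    (herg : ∀ G : BM E, (∀ᵐ s ∂μ, ((Q ^ 2) G).1 s = G.1 s) → ∃ c : ℝ, ∀ᵐ s ∂μ, G.1 s = c)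
    (F : BM E) :
    ∀ᵐ s ∂μ, Tendsto (fun n => ((Q ^ (2 * n)) F).1 s) atTop (𝓝 (∫ s, F.1 s ∂μ)) := by
  obtain ⟨G, hG⟩ := h.exists_L2_limit F
  obtain ⟨c, hc⟩ := herg G (h.limit_invariant F G hG)
  have hL2 : Tendsto (fun n => ∫ s, (((Q ^ (2 * n)) F).1 s - c) ^ 2 ∂μ) atTop (𝓝 0) := by
    refine hG.congr fun n => ?_
    refine integral_congr_ae ?_
    filter_upwards [hc] with s hs
    rw [hs]
  have hcF : c = ∫ s, F.1 s ∂μ := by
    have h1 : ∀ n, |(∫ s, F.1 s ∂μ) - c| ≤ √(∫ s, (((Q ^ (2 * n)) F).1 s - c) ^ 2 ∂μ) := by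
      intro n
      have h2 := integral_abs_le_sqrt (μ := μ) ((Q ^ (2 * n)) F - c • (1 : BM E))
      simp only [BM.sub_apply, BM.smul_apply, BM.coe_one', mul_one] at h2
      refine le_trans ?_ h2
      rw [← (h.pow (2 * n)).integral_eq F]
      have h3 : (∫ s, ((Q ^ (2 * n)) F).1 s ∂μ) - c
          = ∫ s, (((Q ^ (2 * n)) F).1 s - c) ∂μ := by
        rw [integral_sub (BM.integrable _ μ) (integrable_const c)]
        simp
      rw [h3]
      exact abs_integral_le_integral_abs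
    have h2 : Tendsto (fun n => √(∫ s, (((Q ^ (2 * n)) F).1 s - c) ^ 2 ∂μ)) atTop (𝓝 √0) :=
      (Real.continuous_sqrt.tendsto 0).comp hL2
    rw [Real.sqrt_zero] at h2
    have h3 := ge_of_tendsto' h2 h1
    have h4 : |(∫ s, F.1 s ∂μ) - c| = 0 := le_antisymm h3 (abs_nonneg _)
    rw [abs_eq_zero] at h4
    linarith
  rw [← hcF]
  exact h.tendsto_ae_of_L2 F c hL2


end IsSymMarkov

end Pool.Agent.EdgeAveraging
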