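import Mathlib
import Pool.Agent.Helper94.EA.Markov3

open MeasureTheory Filter Topology ProbabilityTheory
open scoped NNReal

set_option linter.unusedSectionVars false
set_option linter.unusedVariables false

namespace Pool.Agent.EdgeAveraging

section Avg

variable {E ι : Type*} [MeasurableSpace E] [Fintype ι]

/-- The averaging operator over finitely many measurable maps. -/
noncomputable def avgOp (θ : ι → E → E) (hθ : ∀ i, Measurable (θ i)) : BM E →ₗ[ℝ] BM E where
  toFun F := ⟨fun s => (∑ i, F.1 (θ i s)) / Fintype.card ι, by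
    refine ⟨?_, ?_⟩
    · exact (Finset.measurable_sum _ fun i _ => (F.2.1.comp (hθ i))).div_const _
    · obtain ⟨M, hM⟩ := F.2.2
      refine ⟨(∑ i : ι, M) / Fintype.card ι, fun s => ?_⟩
      rw [abs_div, Nat.abs_cast]
      gcongr
      refine (Finset.abs_sum_le_sum_abs _ _).trans ?_
      exact Finset.sum_le_sum fun i _ => hM _⟩
  map_add' F G := by
    ext s
    simp only [BM.add_apply]
    rw [Finset.sum_add_distrib]
    ring
  map_smul' c F := by
    ext s
    simp only [BM.smul_apply, RingHom.id_apply]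
    rw [← Finset.mul_sum]
    ring

theorem avgOp_apply (θ : ι → E → E) (hθ : ∀ i, Measurable (θ i)) (F : BM E) (s : E) :
    (avgOp θ hθ F).1 s = (∑ i, F.1 (θ i s)) / Fintype.card ι := rfl

theorem isSymMarkov_avgOp [Nonempty ι] (μ : Measure E) [IsProbabilityMeasure μ] (θ : ι → E → E)
    (hθ : ∀ i, Measurable (θ i)) (hmp : ∀ i, MeasurePreserving (θ i) μ μ) (inv : ι ≃ ι)
    (hinv : ∀ i s, θ (inv i) (θ i s) = s) : IsSymMarkov μ (avgOp θ hθ) where
  pos F hF s := by
    rw [avgOp_apply]
    have : 0 ≤ ∑ i, F.1 (θ i s) := Finset.sum_nonneg fun i _ => hF _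
    positivity
  one := by
    ext s
    rw [avgOp_apply]
    simp
  symm F G := by
    have h1 : ∀ F G : BM E, ∫ s, (avgOp θ hθ F).1 s * G.1 s ∂μ
        = (∑ i, ∫ s, F.1 (θ i s) * G.1 s ∂μ) / Fintype.card ι := by
      intro F G
      simp_rw [avgOp_apply, div_mul_eq_mul_div, Finset.sum_mul]
      rw [integral_div, integral_finsetSum]
      intro i _
      obtain ⟨M, hM⟩ := F.2.2
      obtain ⟨K, hK⟩ := G.2.2
      refine Integrable.of_bound ((F.2.1.comp (hθ i)).mul G.2.1).aestronglyMeasurable (M * K)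
        (ae_of_all _ fun s => ?_)
      rw [Real.norm_eq_abs, abs_mul]
      exact mul_le_mul (hM _) (hK _) (abs_nonneg _) ((abs_nonneg _).trans (hM (θ i s)))
    rw [h1 F G]
    have h2 : ∫ s, F.1 s * (avgOp θ hθ G).1 s ∂μ = ∫ s, (avgOp θ hθ G).1 s * F.1 s ∂μ := by
      congr 1; ext s; ring
    rw [h2, h1 G F]
    congr 1
    rw [← Equiv.sum_comp inv]
    refine Finset.sum_congr rfl fun i _ => ?_
    have h3 : ∫ s, F.1 (θ (inv i) s) * G.1 s ∂μ
        = ∫ s, F.1 (θ (inv i) (θ i s)) * G.1 (θ i s) ∂μ := by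
      have := (hmp i).map_eq
      conv_lhs => rw [← this]
      rw [integral_map (hθ i).aemeasurable]
      exact (((F.2.1.comp (hθ _)).mul G.2.1)).aestronglyMeasurable
    rw [h3]
    congr 1
    ext s
    rw [hinv, mul_comm]

end Avg

section Pois

variable {E : Type*} [MeasurableSpace E] {μ : Measure E} [IsProbabilityMeasure μ]
  {S : BM E →ₗ[ℝ] BM E}

theorem integrable_pois (a : ℝ≥0) {φ : ℕ → ℝ} {M : ℝ} (hφ : ∀ k, |φ k| ≤ M) :
    Integrable φ (poissonMeasure a) :=
  Integrable.of_bound (Measurable.of_discrete).aestronglyMeasurable M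
    (ae_of_all _ fun k => by simpa using hφ k)

/-- The Poisson mixture `e^{a (S - 1)}` of the powers of a Markov operator -/
noncomputable def poisOp (hS : IsSymMarkov μ S) (a : ℝ≥0) : BM E →ₗ[ℝ] BM E where
  toFun F := ⟨fun s => ∫ k, ((S ^ k) F).1 s ∂(poissonMeasure a), by
    refine ⟨?_, ?_⟩
    · have hm : Measurable (fun p : E × ℕ => ((S ^ p.2) F).1 p.1) :=
        measurable_from_prod_countable_left fun k => BM.measurable ((S ^ k) F)
      exact (hm.stronglyMeasurable.integral_prod_right (ν := poissonMeasure a)).measurable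
    · obtain ⟨M, hM⟩ := F.2.2
      refine ⟨M, fun s => ?_⟩
      have := norm_integral_le_of_norm_le_const (μ := poissonMeasure a)
        (f := fun k => ((S ^ k) F).1 s) (C := M) (ae_of_all _ fun k => by
          rw [Real.norm_eq_abs]
          exact (hS.pow k).abs_le_of_abs_le hM s)
      simpa using this⟩
  map_add' F G := by
    ext s
    obtain ⟨M, hM⟩ := F.2.2
    obtain ⟨K, hK⟩ := G.2.2
    simp only [map_add, BM.add_apply]
    rw [integral_add (integrable_pois a fun k => (hS.pow k).abs_le_of_abs_le hM s)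
      (integrable_pois a fun k => (hS.pow k).abs_le_of_abs_le hK s)]
  map_smul' c F := by
    ext s
    simp only [map_smul, BM.smul_apply, RingHom.id_apply]
    rw [integral_const_mul]

theorem poisOp_apply (hS : IsSymMarkov μ S) (a : ℝ≥0) (F : BM E) (s : E) :
    (poisOp hS a F).1 s = ∫ k, ((S ^ k) F).1 s ∂(poissonMeasure a) := rfl

theorem isSymMarkov_poisOp (hS : IsSymMarkov μ S) (a : ℝ≥0) : IsSymMarkov μ (poisOp hS a) where
  pos F hF s := by
    rw [poisOp_apply]
    exact integral_nonneg fun k => (hS.pow k).pos F hF s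
  one := by
    ext s
    rw [poisOp_apply]
    simp_rw [(hS.pow _).one]
    simp
  symm F G := by
    have key : ∀ F G : BM E, ∫ s, (poisOp hS a F).1 s * G.1 s ∂μ
        = ∫ k, ∫ s, ((S ^ k) F).1 s * G.1 s ∂μ ∂(poissonMeasure a) := by
      intro F G
      obtain ⟨M, hM0, hM⟩ := BM.exists_pos_bound F
      obtain ⟨K, hK0, hK⟩ := BM.exists_pos_bound G
      have h1 : ∀ s, (poisOp hS a F).1 s * G.1 s
          = ∫ k, ((S ^ k) F).1 s * G.1 s ∂(poissonMeasure a) := by
        intro s
        rw [integral_mul_const, poisOp_apply]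
      simp_rw [h1]
      rw [integral_integral_swap]
      have hm : Measurable (fun p : E × ℕ => ((S ^ p.2) F).1 p.1 * G.1 p.1) :=
        measurable_from_prod_countable_left fun k => (BM.measurable ((S ^ k) F)).mul G.2.1
      refine Integrable.of_bound hm.aestronglyMeasurable (M * K) (ae_of_all _ fun p => ?_)
      rw [Real.norm_eq_abs]
      show |((S ^ p.2) F).1 p.1 * G.1 p.1| ≤ M * K
      rw [abs_mul]
      exact mul_le_mul ((hS.pow _).abs_le_of_abs_le hM _) (hK _) (abs_nonneg _) hM0.le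
    rw [key F G]
    have h2 : ∫ s, F.1 s * (poisOp hS a G).1 s ∂μ = ∫ s, (poisOp hS a G).1 s * F.1 s ∂μ := by
      congr 1; ext s; ring
    rw [h2, key G F]
    congr 1
    ext k
    rw [(hS.pow k).symm]
    congr 1; ext s; ring

/-- commutation property of averaging operators with Poisson mixtures -/
def PoisComm (hS : IsSymMarkov μ S) : Prop :=
  ∀ (a : ℝ≥0) (F : BM E), S (poisOp hS a F) = poisOp hS a (S F)

theorem PoisComm.pow {hS : IsSymMarkov μ S} (hc : PoisComm hS) (a : ℝ≥0) (n : ℕ) (F : BM E) :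
    (S ^ n) (poisOp hS a F) = poisOp hS a ((S ^ n) F) := by
  induction n generalizing F with
  | zero => rfl
  | succ n ih =>
    have h1 : ∀ G : BM E, (S ^ (n + 1)) G = (S ^ n) (S G) := fun G => by rw [pow_succ]; rfl
    rw [h1, h1, hc, ih]

theorem poisOp_add {hS : IsSymMarkov μ S} (hc : PoisComm hS) (a b : ℝ≥0) (F : BM E) :
    poisOp hS (a + b) F = poisOp hS a (poisOp hS b F) := by
  ext s
  obtain ⟨M, hM⟩ := F.2.2
  rw [poisOp_apply, poisOp_apply, ← poissonMeasure_conv_poissonMeasure]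
  rw [integral_conv]
  · refine integral_congr_ae (ae_of_all _ fun j => ?_)
    simp only
    rw [hc.pow, poisOp_apply]
    refine integral_congr_ae (ae_of_all _ fun k => ?_)
    simp only
    rw [add_comm j k, pow_add]
    rfl
  · rw [poissonMeasure_conv_poissonMeasure]
    exact integrable_pois _ (M := M) fun k => (hS.pow k).abs_le_of_abs_le hM s

theorem pois_expand {a : ℝ≥0} (ha : a ≤ 1) {φ : ℕ → ℝ} {M : ℝ} (hφ : ∀ k, |φ k| ≤ M) :
    |∫ k, φ k ∂(poissonMeasure a) - φ 0 - a * (φ 1 - φ 0)| ≤ 3 * a ^ 2 * M := by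
  have hM : 0 ≤ M := (abs_nonneg _).trans (hφ 0)
  have ha' : (a : ℝ) ≤ 1 := by exact_mod_cast ha
  have ha0 : (0 : ℝ) ≤ a := a.2
  have hint := integrable_pois a hφ
  have h0 : (poissonMeasure a).real {0} = Real.exp (-a) := by
    rw [poissonMeasure_real_singleton]; simp
  have h1 : (poissonMeasure a).real {1} = Real.exp (-a) * a := by
    rw [poissonMeasure_real_singleton]; simp
  -- split the integral over `{0, 1}` and its complement
  have hsplit : ∫ k, φ k ∂(poissonMeasure a)
      = Real.exp (-a) * φ 0 + Real.exp (-a) * a * φ 1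
        + ∫ k in ({0, 1} : Set ℕ)ᶜ, φ k ∂(poissonMeasure a) := by
    rw [← integral_add_compl (MeasurableSet.of_discrete : MeasurableSet ({0, 1} : Set ℕ)) hint]
    congr 1
    have : ({0, 1} : Set ℕ) = {0} ∪ {1} := rfl
    rw [this, setIntegral_union (by simp) MeasurableSet.of_discrete hint.integrableOn
      hint.integrableOn, integral_singleton, integral_singleton, h0, h1]
    simp
  have hcompl : (poissonMeasure a).real ({0, 1} : Set ℕ)ᶜ
      = 1 - Real.exp (-a) - Real.exp (-a) * a := by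
    rw [measureReal_compl MeasurableSet.of_discrete]
    have : ({0, 1} : Set ℕ) = {0} ∪ {1} := rfl
    rw [this, measureReal_union (by simp) MeasurableSet.of_discrete, h0, h1]
    simp
    ring
  have hrest : |∫ k in ({0, 1} : Set ℕ)ᶜ, φ k ∂(poissonMeasure a)|
      ≤ M * (1 - Real.exp (-a) - Real.exp (-a) * a) := by
    have := norm_setIntegral_le_of_norm_le_const (μ := poissonMeasure a) (f := φ)
      (s := ({0, 1} : Set ℕ)ᶜ) (C := M) (measure_lt_top _ _) (fun k _ => by simpa using hφ k)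
    rw [hcompl] at this
    simpa using this
  have hexp1 : 1 - (a : ℝ) ≤ Real.exp (-a) := by
    have := Real.add_one_le_exp (-(a : ℝ)); linarith
  have hexp2 : Real.exp (-a) ≤ 1 - a + a ^ 2 := by
    have := Real.abs_exp_sub_one_sub_id_le (x := -(a : ℝ)) (by rw [abs_neg, abs_of_nonneg ha0]; exact ha')
    have := (abs_le.1 this).2
    nlinarith
  rw [hsplit]
  have e1 : |Real.exp (-a) - (1 - a)| ≤ a ^ 2 := by
    rw [abs_le]; constructor <;> nlinarith
  have e2 : |Real.exp (-a) * a - a| ≤ a ^ 2 := by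
    rw [abs_le]; constructor <;> nlinarith [Real.exp_le_one_iff.2 (neg_nonpos.2 ha0)]
  have e3 : 1 - Real.exp (-a) - Real.exp (-a) * a ≤ a ^ 2 := by nlinarith
  have hid : Real.exp (-a) * φ 0 + Real.exp (-a) * a * φ 1
        + ∫ k in ({0, 1} : Set ℕ)ᶜ, φ k ∂(poissonMeasure a) - φ 0 - a * (φ 1 - φ 0)
      = (Real.exp (-a) - (1 - a)) * φ 0 + (Real.exp (-a) * a - a) * φ 1
        + ∫ k in ({0, 1} : Set ℕ)ᶜ, φ k ∂(poissonMeasure a) := by ring
  rw [hid]
  refine (abs_add_three _ _ _).trans ?_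
  rw [abs_mul, abs_mul]
  have f1 : |Real.exp (-a) - (1 - a)| * |φ 0| ≤ a ^ 2 * M :=
    mul_le_mul e1 (hφ 0) (abs_nonneg _) (by positivity)
  have f2 : |Real.exp (-a) * a - a| * |φ 1| ≤ a ^ 2 * M :=
    mul_le_mul e2 (hφ 1) (abs_nonneg _) (by positivity)
  have f3 : |∫ k in ({0, 1} : Set ℕ)ᶜ, φ k ∂(poissonMeasure a)| ≤ a ^ 2 * M :=
    hrest.trans (by rw [mul_comm]; exact mul_le_mul_of_nonneg_right e3 hM)
  linarith

theorem poisOp_expand (hS : IsSymMarkov μ S) {a : ℝ≥0} (ha : a ≤ 1) {F : BM E} {M : ℝ}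
    (hF : ∀ s, |F.1 s| ≤ M) (s : E) :
    |(poisOp hS a F).1 s - F.1 s - a * ((S F).1 s - F.1 s)| ≤ 3 * a ^ 2 * M := by
  have := pois_expand ha (φ := fun k => ((S ^ k) F).1 s) (M := M)
    fun k => (hS.pow k).abs_le_of_abs_le hF s
  simpa [poisOp_apply] using this

end Pois

end Pool.Agent.EdgeAveraging
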