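import Mathlib
import Pool.Agent.Helper94.EA.Poisson
import Pool.Agent.Helper94.EA.Defs

open MeasureTheory Filter Topology ProbabilityTheory
open scoped NNReal

set_option linter.unusedSectionVars false
set_option linter.unusedVariables false

namespace Pool.Agent.EdgeAveraging

section Inv

variable {E ι : Type*} [MeasurableSpace E] [Fintype ι] [Nonempty ι]
  {μ : Measure E} [IsProbabilityMeasure μ]

theorem integrable_comp (F : BM E) {θ : E → E} (hθ : Measurable θ) :
    Integrable (fun s => F.1 (θ s)) μ := by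
  obtain ⟨M, hM⟩ := F.2.2
  exact Integrable.of_bound (F.2.1.comp hθ).aestronglyMeasurable M
    (ae_of_all _ fun s => by simpa using hM _)

/-- if `e^{a (S-1)} G = G` a.e. then `S G = G` in the weak sense `∫ G S G = ∫ G²` -/
theorem integral_mul_eq_of_poisOp_eq {S : BM E →ₗ[ℝ] BM E} (hS : IsSymMarkov μ S) {a : ℝ≥0}
    (ha : 0 < a) (G : BM E) (hG : ∀ᵐ s ∂μ, (poisOp hS a G).1 s = G.1 s) :
    ∫ s, G.1 s * (S G).1 s ∂μ = ∫ s, G.1 s * G.1 s ∂μ := by
  obtain ⟨M, hM0, hM⟩ := BM.exists_pos_bound G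
  set c : ℕ → ℝ := fun k => ∫ s, G.1 s * ((S ^ k) G).1 s ∂μ with hc
  have hc_le : ∀ k, c k ≤ c 0 := by
    intro k
    have h1 : 0 ≤ ∫ s, (G.1 s - ((S ^ k) G).1 s) ^ 2 ∂μ := integral_nonneg fun s => sq_nonneg _
    have h2 := hS.integral_sq_sub G 0 k
    simp only [pow_zero, Module.End.one_apply, mul_zero, zero_add] at h2
    rw [h2] at h1
    have h3 : ∫ s, G.1 s * ((S ^ (2 * k)) G).1 s ∂μ ≤ c 0 := by
      have h4 := (hS.pow k).integral_sq_le G
      rw [hS.integral_sq_eq] at h4
      refine h4.trans (le_of_eq ?_)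
      simp [hc, pow_two]
    have h5 : ∫ s, G.1 s * G.1 s ∂μ = c 0 := by simp [hc]
    rw [h5] at h1
    have h6 : ∫ s, G.1 s * ((S ^ k) G).1 s ∂μ = c k := rfl
    rw [h6] at h1
    linarith
  have hcb : ∀ k, |c k| ≤ M * M := by
    intro k
    have := norm_integral_le_of_norm_le_const (μ := μ)
      (f := fun s => G.1 s * ((S ^ k) G).1 s) (C := M * M) (ae_of_all _ fun s => by
        rw [Real.norm_eq_abs, abs_mul]
        exact mul_le_mul (hM s) ((hS.pow k).abs_le_of_abs_le hM s) (abs_nonneg _) hM0.le)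
    simpa using this
  have hsum : ∫ k, c k ∂(poissonMeasure a) = c 0 := by
    have h1 : ∫ s, G.1 s * (poisOp hS a G).1 s ∂μ = c 0 := by
      simp only [hc, pow_zero, Module.End.one_apply]
      refine integral_congr_ae ?_
      filter_upwards [hG] with s hs
      rw [hs]
    rw [← h1]
    have h2 : ∀ s, G.1 s * (poisOp hS a G).1 s
        = ∫ k, G.1 s * ((S ^ k) G).1 s ∂(poissonMeasure a) := by
      intro s
      rw [integral_const_mul, poisOp_apply]
    simp_rw [h2]
    rw [integral_integral_swap]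
    have hm : Measurable (fun p : ℕ × E => G.1 p.2 * ((S ^ p.1) G).1 p.2) :=
      measurable_from_prod_countable_right fun k => G.2.1.mul (BM.measurable ((S ^ k) G))
    refine Integrable.of_bound hm.aestronglyMeasurable (M * M) (ae_of_all _ fun p => ?_)
    rw [Real.norm_eq_abs]
    show |G.1 p.2 * ((S ^ p.1) G).1 p.2| ≤ M * M
    rw [abs_mul]
    exact mul_le_mul (hM _) ((hS.pow _).abs_le_of_abs_le hM _) (abs_nonneg _) hM0.le
  have hz : ∫ k, (c 0 - c k) ∂(poissonMeasure a) = 0 := by
    rw [integral_sub (integrable_const _) (integrable_pois a hcb), hsum]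
    simp
  have hae := (integral_eq_zero_iff_of_nonneg (fun k => sub_nonneg.2 (hc_le k))
    ((integrable_const _).sub (integrable_pois a hcb))).1 hz
  have h1 : c 0 - c 1 = 0 := by
    by_contra hne
    have hnull : (poissonMeasure a) {k | c 0 - c k ≠ 0} = 0 := hae
    have hsub : ({1} : Set ℕ) ⊆ {k | c 0 - c k ≠ 0} := by
      intro k hk
      rw [Set.mem_singleton_iff] at hk
      subst hk
      exact hne
    have h2 := measure_mono_null hsub hnull
    have h3 := poissonMeasure_real_singleton_pos (r := a) 1 ha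
    rw [measureReal_def, h2] at h3
    simp at h3
  have h2 : c 1 = ∫ s, G.1 s * (S G).1 s ∂μ := by simp [hc]
  have h3 : c 0 = ∫ s, G.1 s * G.1 s ∂μ := by simp [hc]
  linarith

theorem comp_ae_eq_of_avgOp (θ : ι → E → E) (hθ : ∀ i, Measurable (θ i))
    (hmp : ∀ i, MeasurePreserving (θ i) μ μ) (G : BM E)
    (hG : ∫ s, G.1 s * (avgOp θ hθ G).1 s ∂μ = ∫ s, G.1 s * G.1 s ∂μ) (i : ι) :
    ∀ᵐ s ∂μ, G.1 (θ i s) = G.1 s := by
  obtain ⟨M, hM0, hM⟩ := BM.exists_pos_bound G
  have iG : Integrable (fun s => G.1 s * G.1 s) μ := BM.integrable (G * G) μ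
  have iGi : ∀ i, Integrable (fun s => G.1 s * G.1 (θ i s)) μ := by
    intro i
    refine Integrable.of_bound (G.2.1.mul (G.2.1.comp (hθ i))).aestronglyMeasurable (M * M)
      (ae_of_all _ fun s => ?_)
    rw [Real.norm_eq_abs, abs_mul]
    exact mul_le_mul (hM _) (hM _) (abs_nonneg _) hM0.le
  have iGii : ∀ i, Integrable (fun s => G.1 (θ i s) * G.1 (θ i s)) μ :=
    fun i => integrable_comp (G * G) (hθ i)
  have hinv : ∀ i, ∫ s, G.1 (θ i s) * G.1 (θ i s) ∂μ = ∫ s, G.1 s * G.1 s ∂μ := by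
    intro i
    have h1 := integral_map (μ := μ) (hθ i).aemeasurable (f := fun s => G.1 s * G.1 s)
      (G.2.1.mul G.2.1).aestronglyMeasurable
    rw [(hmp i).map_eq] at h1
    exact h1.symm
  have hsq : ∀ i, ∫ s, (G.1 (θ i s) - G.1 s) ^ 2 ∂μ
      = 2 * (∫ s, G.1 s * G.1 s ∂μ) - 2 * ∫ s, G.1 s * G.1 (θ i s) ∂μ := by
    intro i
    have h1 : ∀ s, (G.1 (θ i s) - G.1 s) ^ 2
        = (G.1 (θ i s) * G.1 (θ i s) + G.1 s * G.1 s) - 2 * (G.1 s * G.1 (θ i s)) := by
      intro s; ring
    simp_rw [h1]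
    have i1 : Integrable (fun s => G.1 (θ i s) * G.1 (θ i s) + G.1 s * G.1 s) μ :=
      (iGii i).add iG
    rw [integral_sub i1 ((iGi i).const_mul 2), integral_add (iGii i) iG,
      integral_const_mul, hinv i]
    ring
  have hsum : ∑ i, ∫ s, (G.1 (θ i s) - G.1 s) ^ 2 ∂μ = 0 := by
    simp_rw [hsq]
    simp only [Finset.sum_sub_distrib, ← Finset.mul_sum]
    have h1 : ∫ s, G.1 s * (avgOp θ hθ G).1 s ∂μ
        = (∑ i, ∫ s, G.1 s * G.1 (θ i s) ∂μ) / Fintype.card ι := by
      simp_rw [avgOp_apply, mul_div_assoc', Finset.mul_sum]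
      rw [integral_div, integral_finsetSum _ fun i _ => iGi i]
    rw [h1] at hG
    have hcard : (0 : ℝ) < Fintype.card ι := by exact_mod_cast Fintype.card_pos
    rw [div_eq_iff hcard.ne'] at hG
    rw [hG]
    simp
    ring
  have hi : ∫ s, (G.1 (θ i s) - G.1 s) ^ 2 ∂μ = 0 :=
    (Finset.sum_eq_zero_iff_of_nonneg
      (fun i _ => integral_nonneg fun s => sq_nonneg _)).1 hsum i (Finset.mem_univ i)
  have hint : Integrable (fun s => (G.1 (θ i s) - G.1 s) ^ 2) μ := by
    have h1 : ∀ s, (G.1 (θ i s) - G.1 s) ^ 2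
        = (G.1 (θ i s) * G.1 (θ i s) + G.1 s * G.1 s) - 2 * (G.1 s * G.1 (θ i s)) := by
      intro s; ring
    simp_rw [h1]
    exact ((iGii i).add iG).sub ((iGi i).const_mul 2)
  have h0 := (integral_eq_zero_iff_of_nonneg (fun s => sq_nonneg _) hint).1 hi
  filter_upwards [h0] with s hs
  have h2 : (G.1 (θ i s) - G.1 s) ^ 2 = 0 := hs
  have h3 := pow_eq_zero_iff (two_ne_zero) |>.1 h2
  linarith

end Inv

section General

variable {E ι : Type*} [MeasurableSpace E] [Fintype ι] [Nonempty ι]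
  {μ : Measure E} [IsProbabilityMeasure μ]

theorem poisComm_avgOp {θ : ι → E → E} {hθ : ∀ i, Measurable (θ i)}
    (h : IsSymMarkov μ (avgOp θ hθ)) : PoisComm h := by
  intro a F
  obtain ⟨M, hM⟩ := F.2.2
  ext s
  rw [avgOp_apply, poisOp_apply]
  simp_rw [poisOp_apply]
  rw [← integral_finsetSum, ← integral_div]
  · refine integral_congr_ae (ae_of_all _ fun k => ?_)
    simp only
    have h1 : (avgOp θ hθ ^ k) (avgOp θ hθ F) = avgOp θ hθ ((avgOp θ hθ ^ k) F) := by
      have h2 : (avgOp θ hθ ^ k * avgOp θ hθ) F = (avgOp θ hθ * avgOp θ hθ ^ k) F := by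
        rw [← pow_succ, ← pow_succ']
      exact h2
    rw [h1, avgOp_apply]
  · intro i _
    exact integrable_pois a fun k => (h.pow k).abs_le_of_abs_le hM _

/-- composition with a measurable map -/
def compOp (τ : E → E) (hτ : Measurable τ) : BM E →ₗ[ℝ] BM E where
  toFun F := ⟨fun s => F.1 (τ s), F.2.1.comp hτ, by
    obtain ⟨M, hM⟩ := F.2.2
    exact ⟨M, fun s => hM _⟩⟩
  map_add' F G := rfl
  map_smul' c F := rfl

@[simp] theorem compOp_apply (τ : E → E) (hτ : Measurable τ) (F : BM E) (s : E) :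
    (compOp τ hτ F).1 s = F.1 (τ s) := rfl

theorem pow_compOp {S : BM E →ₗ[ℝ] BM E} {τ : E → E} {hτ : Measurable τ}
    (hc : ∀ F, S (compOp τ hτ F) = compOp τ hτ (S F)) (k : ℕ) (F : BM E) :
    (S ^ k) (compOp τ hτ F) = compOp τ hτ ((S ^ k) F) := by
  induction k generalizing F with
  | zero => rfl
  | succ n ih =>
    have h1 : ∀ G : BM E, (S ^ (n + 1)) G = (S ^ n) (S G) := fun G => by rw [pow_succ]; rfl
    rw [h1, h1, hc, ih]

theorem poisOp_compOp {S : BM E →ₗ[ℝ] BM E} (h : IsSymMarkov μ S) {τ : E → E}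
    {hτ : Measurable τ} (hc : ∀ F, S (compOp τ hτ F) = compOp τ hτ (S F)) (a : ℝ≥0) (F : BM E) :
    poisOp h a (compOp τ hτ F) = compOp τ hτ (poisOp h a F) := by
  ext s
  rw [poisOp_apply, compOp_apply, poisOp_apply]
  refine integral_congr_ae (ae_of_all _ fun k => ?_)
  simp only
  rw [pow_compOp hc, compOp_apply]

theorem poisOp_zero {S : BM E →ₗ[ℝ] BM E} (h : IsSymMarkov μ S) (F : BM E) :
    poisOp h 0 F = F := by
  ext s
  obtain ⟨M, hM⟩ := F.2.2
  have h1 := poisOp_expand h (a := 0) zero_le_one hM s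
  simp only [NNReal.coe_zero, zero_mul, sub_zero, ne_eq, OfNat.ofNat_ne_zero, not_false_eq_true,
    zero_pow, mul_zero] at h1
  have h2 := abs_nonpos_iff.1 h1
  linarith

theorem poisOp_pow {S : BM E →ₗ[ℝ] BM E} {h : IsSymMarkov μ S} (hc : PoisComm h) (a : ℝ≥0)
    (n : ℕ) (F : BM E) : (poisOp h a ^ n) F = poisOp h (n * a) F := by
  induction n with
  | zero =>
    simp [poisOp_zero]
  | succ n ih =>
    have h1 : (poisOp h a ^ (n + 1)) F = poisOp h a ((poisOp h a ^ n) F) := by
      rw [pow_succ']; rfl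
    rw [h1, ih, ← poisOp_add hc]
    congr 2
    push_cast
    ring

end General

section Lattice

variable {d : ℕ}

/-- directions of the lattice -/
abbrev Dir (d : ℕ) : Type := Fin d × Bool

/-- the unit vector of a direction -/
def step (δ : Dir d) : Vertex d := if δ.2 then Pi.single δ.1 1 else - Pi.single δ.1 1

/-- the opposite direction -/
def opp : Dir d ≃ Dir d := (Equiv.refl (Fin d)).prodCongr Equiv.boolNot

theorem step_opp (δ : Dir d) : step (opp δ) = - step δ := by
  obtain ⟨i, b⟩ := δ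
  cases b <;> simp [step, opp]

/-- translation of configurations -/
def shift (x : Vertex d) (g : Vertex d → ℝ) : Vertex d → ℝ := fun v => g (v + x)

theorem measurable_shift (x : Vertex d) : Measurable (shift x) :=
  measurable_pi_lambda _ fun v => measurable_pi_apply _

theorem shift_shift (x y : Vertex d) (g : Vertex d → ℝ) :
    shift x (shift y g) = shift (x + y) g := by
  ext v
  simp [shift, add_assoc]

theorem shift_zero (g : Vertex d → ℝ) : shift 0 g = g := by
  ext v
  simp [shift]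

/-- a shift invariant probability measure -/
def ShiftInv (μ : Measure (Vertex d → ℝ)) : Prop := ∀ x, μ.map (shift x) = μ

theorem ShiftInv.mp {μ : Measure (Vertex d → ℝ)} (h : ShiftInv μ) (x : Vertex d) :
    MeasurePreserving (shift x) μ μ := ⟨measurable_shift x, h x⟩

/-- nearest neighbour averaging -/
noncomputable def nnAvg (d : ℕ) : BM (Vertex d → ℝ) →ₗ[ℝ] BM (Vertex d → ℝ) :=
  avgOp (fun δ : Dir d => shift (step δ)) (fun δ => measurable_shift _)

theorem nnAvg_apply (F : BM (Vertex d → ℝ)) (s : Vertex d → ℝ) :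
    (nnAvg d F).1 s = (∑ δ : Dir d, F.1 (shift (step δ) s)) / Fintype.card (Dir d) := rfl

theorem isSymMarkov_nnAvg [Nonempty (Dir d)] {μ : Measure (Vertex d → ℝ)} [IsProbabilityMeasure μ]
    (hμ : ShiftInv μ) : IsSymMarkov μ (nnAvg d) := by
  refine isSymMarkov_avgOp μ _ _ (fun δ => hμ.mp _) opp (fun δ s => ?_)
  rw [step_opp, shift_shift, neg_add_cancel, shift_zero]

theorem ae_const_of_invariant {μ : Measure (Vertex d → ℝ)} [IsProbabilityMeasure μ]
    (hμ : ShiftInv μ)
    (herg : ∀ A, MeasurableSet A → (∀ x : Vertex d, shift x ⁻¹' A = A) → μ A = 0 ∨ μ A = 1)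
    (G : BM (Vertex d → ℝ)) (hG : ∀ δ : Dir d, ∀ᵐ s ∂μ, G.1 (shift (step δ) s) = G.1 s) :
    ∃ c : ℝ, ∀ᵐ s ∂μ, G.1 s = c := by
  -- the subgroup of periods
  have hall : ∀ x : Vertex d, ∀ᵐ s ∂μ, G.1 (shift x s) = G.1 s := by
    let H : AddSubgroup (Vertex d) :=
      { carrier := {x | ∀ᵐ s ∂μ, G.1 (shift x s) = G.1 s}
        zero_mem' := by
          refine ae_of_all _ fun s => ?_
          rw [shift_zero]
        add_mem' := by
          intro x y hx hy
          have h1 : ∀ᵐ s ∂μ, G.1 (shift x (shift y s)) = G.1 (shift y s) :=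
            (hμ.mp y).quasiMeasurePreserving.ae hx
          have hy' : ∀ᵐ s ∂μ, G.1 (shift y s) = G.1 s := hy
          show ∀ᵐ s ∂μ, G.1 (shift (x + y) s) = G.1 s
          filter_upwards [h1, hy'] with s hs1 hs2
          rw [← shift_shift, hs1, hs2]
        neg_mem' := by
          intro x hx
          have h1 : ∀ᵐ s ∂μ, G.1 (shift x (shift (-x) s)) = G.1 (shift (-x) s) :=
            (hμ.mp (-x)).quasiMeasurePreserving.ae hx
          show ∀ᵐ s ∂μ, G.1 (shift (-x) s) = G.1 s
          filter_upwards [h1] with s hs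
          rw [shift_shift, add_neg_cancel, shift_zero] at hs
          exact hs.symm }
    have hunit : ∀ i : Fin d, (Pi.single i 1 : Vertex d) ∈ H := by
      intro i
      have h1 := hG (i, true)
      simp only [step, if_true] at h1
      exact h1
    intro x
    have hx : x ∈ H := by
      rw [← Finset.univ_sum_single x]
      refine H.sum_mem fun i _ => ?_
      have h1 : (Pi.single i (x i) : Vertex d) = (x i) • (Pi.single i 1 : Vertex d) := by
        rw [← Pi.single_smul]
        simp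
      rw [h1]
      exact H.zsmul_mem (hunit i) _
    exact hx
  -- zero-one law for level sets
  have h01 : ∀ U : Set ℝ, MeasurableSet U → (∀ᶠ s in ae μ, G.1 s ∈ U) ∨ (∀ᶠ s in ae μ, G.1 s ∉ U) := by
    intro U hU
    set A : Set (Vertex d → ℝ) := G.1 ⁻¹' U with hA
    have hAm : MeasurableSet A := G.2.1 hU
    set B : Set (Vertex d → ℝ) := ⋂ x : Vertex d, shift x ⁻¹' A with hB
    have hBm : MeasurableSet B := MeasurableSet.iInter fun x => measurable_shift x hAm
    have hBinv : ∀ x : Vertex d, shift x ⁻¹' B = B := by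
      intro x
      ext s
      simp only [hB, Set.mem_preimage, Set.mem_iInter]
      constructor
      · intro h y
        have := h (y - x)
        rwa [shift_shift, sub_add_cancel] at this
      · intro h y
        rw [shift_shift]
        exact h _
    have hAB : ∀ᵐ s ∂μ, (s ∈ A ↔ s ∈ B) := by
      filter_upwards [ae_all_iff.2 hall] with s hs
      simp only [hA, hB, Set.mem_preimage, Set.mem_iInter]
      constructor
      · intro h x
        rw [hs x]
        exact h
      · intro h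
        have := h 0
        rwa [shift_zero] at this
    rcases herg B hBm hBinv with h0 | h1
    · right
      have hB0 : ∀ᵐ s ∂μ, s ∉ B := measure_eq_zero_iff_ae_notMem.1 h0
      filter_upwards [hB0, hAB] with s hs1 hs2
      intro hs3
      exact hs1 (hs2.1 hs3)
    · left
      have hB1 : ∀ᵐ s ∂μ, s ∈ B := by
        rw [ae_iff]
        have := (prob_compl_eq_zero_iff hBm).2 h1
        exact this
      filter_upwards [hB1, hAB] with s hs1 hs2
      exact hs2.2 hs1
  obtain ⟨c, hc⟩ := Filter.exists_eventuallyEq_const_of_forall_separating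
    (l := ae μ) (f := G.1) MeasurableSet h01
  exact ⟨c, hc⟩

/-- **Pointwise ergodic theorem along the heat semigroup** of a shift invariant ergodic measure. -/
theorem heat_ergodic [Nonempty (Dir d)] {μ : Measure (Vertex d → ℝ)} [IsProbabilityMeasure μ]
    (hμ : ShiftInv μ)
    (herg : ∀ A, MeasurableSet A → (∀ x : Vertex d, shift x ⁻¹' A = A) → μ A = 0 ∨ μ A = 1)
    (F : BM (Vertex d → ℝ)) {a : ℝ≥0} (ha : 0 < a) :
    ∀ᵐ s ∂μ, Tendsto (fun n : ℕ => (poisOp (isSymMarkov_nnAvg hμ) (n * a) F).1 s) atTop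
      (𝓝 (∫ s, F.1 s ∂μ)) := by
  set hS := isSymMarkov_nnAvg hμ with hhS
  have hcomm : PoisComm hS := poisComm_avgOp hS
  have hQ := isSymMarkov_poisOp hS (a / 2)
  have hpow : ∀ n : ℕ, ∀ G, (poisOp hS (a / 2) ^ (2 * n)) G = poisOp hS (n * a) G := by
    intro n G
    rw [poisOp_pow hcomm]
    congr 2
    push_cast
    rw [mul_comm 2 (n : ℝ≥0), mul_assoc, mul_div_cancel₀]
    exact two_ne_zero
  have := hQ.tendsto_ae (fun G hG => ?_) F
  · filter_upwards [this] with s hs
    simpa only [hpow] using hs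
  · have hG' : ∀ᵐ s ∂μ, (poisOp hS a G).1 s = G.1 s := by
      filter_upwards [hG] with s hs
      have h1 := hpow 1 G
      simp only [mul_one, Nat.cast_one, one_mul] at h1
      rw [← h1]
      exact hs
    have h1 := integral_mul_eq_of_poisOp_eq hS ha G hG'
    exact ae_const_of_invariant hμ herg G
      (comp_ae_eq_of_avgOp _ _ (fun δ => hμ.mp _) G h1)

end Lattice

end Pool.Agent.EdgeAveraging
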