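import Mathlib
import Pool.Agent.Helper94.EA.Lattice

open MeasureTheory Filter Topology
open scoped NNReal

set_option linter.unusedSectionVars false
set_option linter.unusedVariables false

namespace Pool.Agent.EdgeAveraging

variable {d : ℕ}

/-- bounded functions on the lattice -/
def Bd (g : Vertex d → ℝ) : Prop := ∃ M, ∀ x, |g x| ≤ M

/-- sum over the neighbours -/
def nb (g : Vertex d → ℝ) (x : Vertex d) : ℝ := ∑ δ : Dir d, g (x + step δ)

/-- the lattice Laplacian -/
def lap (g : Vertex d → ℝ) (x : Vertex d) : ℝ := ∑ δ : Dir d, (g (x + step δ) - g x)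

/-- the perturbation of the generator of the difference walk at the origin -/
noncomputable def pert (g : Vertex d → ℝ) (x : Vertex d) : ℝ :=
  ∑ δ : Dir d, (g 0 - g (step δ)) / 2 *
    ((Pi.single 0 1 : Vertex d → ℝ) x - (Pi.single (step δ) 1 : Vertex d → ℝ) x)

theorem Bd.add {g h : Vertex d → ℝ} (hg : Bd g) (hh : Bd h) : Bd (fun x => g x + h x) := by
  obtain ⟨M, hM⟩ := hg
  obtain ⟨K, hK⟩ := hh
  exact ⟨M + K, fun x => (abs_add_le _ _).trans (add_le_add (hM x) (hK x))⟩

theorem Bd.smul {g : Vertex d → ℝ} (hg : Bd g) (c : ℝ) : Bd (fun x => c * g x) := by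
  obtain ⟨M, hM⟩ := hg
  refine ⟨|c| * M, fun x => ?_⟩
  rw [abs_mul]
  exact mul_le_mul_of_nonneg_left (hM x) (abs_nonneg c)

theorem nb_abs_le {g : Vertex d → ℝ} {M : ℝ} (hg : ∀ x, |g x| ≤ M) (x : Vertex d) :
    |nb g x| ≤ (Fintype.card (Dir d) : ℝ) * M := by
  refine (Finset.abs_sum_le_sum_abs _ _).trans ?_
  refine (Finset.sum_le_sum fun δ _ => hg _).trans ?_
  simp

theorem Bd.nb {g : Vertex d → ℝ} (hg : Bd g) : Bd (nb g) := by
  obtain ⟨M, hM⟩ := hg
  exact ⟨_, nb_abs_le hM⟩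

theorem iter_nb_abs_le {g : Vertex d → ℝ} {M : ℝ} (hg : ∀ x, |g x| ≤ M) (n : ℕ) :
    ∀ x, |(nb^[n] g) x| ≤ (Fintype.card (Dir d) : ℝ) ^ n * M := by
  induction n generalizing g M with
  | zero => simpa using hg
  | succ n ih =>
    intro x
    rw [Function.iterate_succ_apply]
    have := ih (nb_abs_le hg) x
    refine this.trans (le_of_eq ?_)
    ring

theorem iter_nb_add (g h : Vertex d → ℝ) (n : ℕ) (x : Vertex d) :
    (nb^[n] (fun y => g y + h y)) x = (nb^[n] g) x + (nb^[n] h) x := by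
  induction n generalizing g h with
  | zero => rfl
  | succ n ih =>
    have h1 : nb (fun y => g y + h y) = fun y => nb g y + nb h y := by
      ext y
      simp [nb, Finset.sum_add_distrib]
    rw [Function.iterate_succ_apply, Function.iterate_succ_apply, Function.iterate_succ_apply,
      h1, ih]

theorem iter_nb_smul (c : ℝ) (g : Vertex d → ℝ) (n : ℕ) (x : Vertex d) :
    (nb^[n] (fun y => c * g y)) x = c * (nb^[n] g) x := by
  induction n generalizing g with
  | zero => rfl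
  | succ n ih =>
    have h1 : nb (fun y => c * g y) = fun y => c * nb g y := by
      ext y
      simp [nb, Finset.mul_sum]
    rw [Function.iterate_succ_apply, Function.iterate_succ_apply, h1, ih]

theorem iter_nb_nonneg {g : Vertex d → ℝ} (hg : ∀ x, 0 ≤ g x) (n : ℕ) :
    ∀ x, 0 ≤ (nb^[n] g) x := by
  induction n generalizing g with
  | zero => simpa using hg
  | succ n ih =>
    intro x
    rw [Function.iterate_succ_apply]
    exact ih (fun y => Finset.sum_nonneg fun δ _ => hg _) x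

/-- A positive functional `g ↦ ((lam - lap)⁻¹ g) 0`. -/
structure IsResolvent (lam : ℝ) (Λ : (Vertex d → ℝ) → ℝ) : Prop where
  add : ∀ g h, Bd g → Bd h → Λ (fun x => g x + h x) = Λ g + Λ h
  smul : ∀ c g, Bd g → Λ (fun x => c * g x) = c * Λ g
  bound : ∀ g M, (∀ x, |g x| ≤ M) → |Λ g| ≤ M / lam
  resolves : ∀ g, Bd g → Λ (lap g) = lam * Λ g - g 0
  pos : ∀ g, Bd g → (∀ x, 0 ≤ g x) → 0 ≤ Λ g

theorem exists_resolvent {lam : ℝ} (hlam : 0 < lam) :
    ∃ Λ : (Vertex d → ℝ) → ℝ, IsResolvent lam Λ := by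
  set D : ℝ := (Fintype.card (Dir d) : ℝ) with hD
  have hD0 : 0 ≤ D := Nat.cast_nonneg _
  set κ : ℝ := 1 / (lam + D) with hκ
  have hκ0 : 0 < κ := by positivity
  have hr : D * κ < 1 := by
    rw [hκ, mul_one_div, div_lt_one (by positivity)]
    linarith
  have hr0 : 0 ≤ D * κ := by positivity
  have hgeo : Summable (fun n : ℕ => (D * κ) ^ n) := summable_geometric_of_lt_one hr0 hr
  have hterm : ∀ (g : Vertex d → ℝ) (M : ℝ), (∀ x, |g x| ≤ M) → ∀ n : ℕ,
      ‖κ ^ (n + 1) * (nb^[n] g) 0‖ ≤ κ * M * (D * κ) ^ n := by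
    intro g M hM n
    rw [Real.norm_eq_abs, abs_mul, abs_of_pos (pow_pos hκ0 _)]
    have := iter_nb_abs_le hM n 0
    calc κ ^ (n + 1) * |(nb^[n] g) 0| ≤ κ ^ (n + 1) * (D ^ n * M) :=
          mul_le_mul_of_nonneg_left this (pow_pos hκ0 _).le
      _ = κ * M * (D * κ) ^ n := by rw [mul_pow]; ring
  have hsum : ∀ g : Vertex d → ℝ, Bd g → Summable (fun n : ℕ => κ ^ (n + 1) * (nb^[n] g) 0) := by
    rintro g ⟨M, hM⟩
    exact Summable.of_norm_bounded (hgeo.mul_left (κ * M)) (hterm g M hM)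
  refine ⟨fun g => ∑' n : ℕ, κ ^ (n + 1) * (nb^[n] g) 0, ?_, ?_, ?_, ?_, ?_⟩
  · intro g h hg hh
    rw [← (hsum g hg).tsum_add (hsum h hh)]
    congr 1
    ext n
    rw [iter_nb_add]
    ring
  · intro c g hg
    rw [← tsum_mul_left]
    congr 1
    ext n
    rw [iter_nb_smul]
    ring
  · intro g M hM
    have hM0 : 0 ≤ M := (abs_nonneg _).trans (hM 0)
    have h1 : ‖∑' n : ℕ, κ ^ (n + 1) * (nb^[n] g) 0‖ ≤ κ * M * (1 - D * κ)⁻¹ :=
      tsum_of_norm_bounded ((hasSum_geometric_of_lt_one hr0 hr).mul_left (κ * M)) (hterm g M hM)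
    rw [Real.norm_eq_abs] at h1
    refine h1.trans (le_of_eq ?_)
    have h2 : 1 - D * κ = lam * κ := by
      rw [hκ]; field_simp; ring
    rw [h2]
    field_simp
  · intro g hg
    have hl : lap g = fun x => nb g x + (-D) * g x := by
      ext x
      simp [lap, nb, Finset.sum_sub_distrib, hD]
      ring
    have hs := hsum g hg
    have hsn := hsum (nb g) hg.nb
    have h1 : ∑' n : ℕ, κ ^ (n + 1) * (nb^[n] (lap g)) 0
        = ∑' n : ℕ, κ ^ (n + 1) * (nb^[n] (nb g)) 0
          + (-D) * ∑' n : ℕ, κ ^ (n + 1) * (nb^[n] g) 0 := by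
      rw [← tsum_mul_left, ← hsn.tsum_add (hs.mul_left (-D)), hl]
      congr 1
      ext n
      rw [iter_nb_add, iter_nb_smul]
      ring
    have h2 : ∑' n : ℕ, κ ^ (n + 1) * (nb^[n] g) 0
        = κ * g 0 + κ * ∑' n : ℕ, κ ^ (n + 1) * (nb^[n] (nb g)) 0 := by
      rw [hs.tsum_eq_zero_add, ← tsum_mul_left]
      congr 1
      · simp
      · congr 1
        ext n
        rw [Function.iterate_succ_apply]
        ring
    rw [h1]
    have h3 : κ * (lam + D) = 1 := by
      rw [hκ]; field_simp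
    have h4 : ∑' n : ℕ, κ ^ (n + 1) * (nb^[n] (nb g)) 0
        = (lam + D) * (∑' n : ℕ, κ ^ (n + 1) * (nb^[n] g) 0) - g 0 := by
      have := congrArg (fun z => (lam + D) * z) h2
      have h5 : (lam + D) * (κ * g 0 + κ * ∑' n : ℕ, κ ^ (n + 1) * (nb^[n] (nb g)) 0)
          = (κ * (lam + D)) * (g 0 + ∑' n : ℕ, κ ^ (n + 1) * (nb^[n] (nb g)) 0) := by ring
      rw [h5, h3, one_mul] at this
      linarith
    rw [h4]
    ring
  · intro g hg hpos
    exact tsum_nonneg fun n => mul_nonneg (pow_pos hκ0 _).le (iter_nb_nonneg hpos n 0)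

theorem bd_single (x : Vertex d) : Bd (Pi.single x (1 : ℝ) : Vertex d → ℝ) := by
  refine ⟨1, fun y => ?_⟩
  by_cases h : y = x
  · subst h; simp
  · simp [Pi.single_eq_of_ne h]

theorem single_nonneg (x y : Vertex d) : 0 ≤ (Pi.single x (1 : ℝ) : Vertex d → ℝ) y := by
  by_cases h : y = x
  · subst h; simp
  · simp [Pi.single_eq_of_ne h]

theorem single_add_step (x y : Vertex d) (z : Vertex d) :
    (Pi.single x (1 : ℝ) : Vertex d → ℝ) (y + z) = (Pi.single (x - z) (1 : ℝ) : Vertex d → ℝ) y := by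
  by_cases h : y + z = x
  · have h2 : y = x - z := by rw [← h]; simp
    rw [h, h2]; simp
  · have h2 : y ≠ x - z := by
      intro h3; exact h (by rw [h3]; simp)
    rw [Pi.single_eq_of_ne h, Pi.single_eq_of_ne h2]

namespace IsResolvent

variable {lam : ℝ} {Λ : (Vertex d → ℝ) → ℝ}

theorem finset_sum (h : IsResolvent lam Λ) {ι : Type*} (I : Finset ι) (g : ι → Vertex d → ℝ)
    (hg : ∀ i, Bd (g i)) : Bd (fun x => ∑ i ∈ I, g i x) ∧
      Λ (fun x => ∑ i ∈ I, g i x) = ∑ i ∈ I, Λ (g i) := by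
  classical
  induction I using Finset.induction_on with
  | empty =>
    refine ⟨⟨0, fun x => by simp⟩, ?_⟩
    have := h.smul 0 (fun _ => 0) ⟨0, fun x => by simp⟩
    simpa using this
  | insert a I ha ih =>
    simp_rw [Finset.sum_insert ha]
    refine ⟨(hg a).add ih.1, ?_⟩
    rw [h.add _ _ (hg a) ih.1, ih.2]

theorem green_eq (h : IsResolvent lam Λ) (x : Vertex d) :
    (lam + Fintype.card (Dir d)) * Λ (Pi.single x 1)
      = (Pi.single x (1 : ℝ) : Vertex d → ℝ) 0 + ∑ δ : Dir d, Λ (Pi.single (x + step δ) 1) := by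
  have h1 := h.resolves _ (bd_single x)
  have h2 : lap (Pi.single x (1 : ℝ) : Vertex d → ℝ)
      = fun y => ∑ δ : Dir d, ((Pi.single (x - step δ) (1 : ℝ) : Vertex d → ℝ) y
        + (-1) * (Pi.single x (1 : ℝ) : Vertex d → ℝ) y) := by
    ext y
    simp only [lap, single_add_step]
    refine Finset.sum_congr rfl fun δ _ => by ring
  rw [h2, (h.finset_sum _ _ fun δ => (bd_single _).add ((bd_single x).smul (-1))).2] at h1
  have h3 : ∀ δ : Dir d, Λ (fun y => (Pi.single (x - step δ) (1 : ℝ) : Vertex d → ℝ) y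
        + (-1) * (Pi.single x (1 : ℝ) : Vertex d → ℝ) y)
      = Λ (Pi.single (x - step δ) 1) - Λ (Pi.single x 1) := by
    intro δ
    rw [h.add _ _ (bd_single _) ((bd_single x).smul (-1)), h.smul _ _ (bd_single x)]
    ring
  simp_rw [h3] at h1
  rw [Finset.sum_sub_distrib] at h1
  have h4 : ∑ δ : Dir d, Λ (Pi.single (x - step δ) 1) = ∑ δ : Dir d, Λ (Pi.single (x + step δ) 1) := by
    rw [← Equiv.sum_comp opp]
    refine Finset.sum_congr rfl fun δ _ => ?_
    rw [step_opp, sub_neg_eq_add]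
  rw [h4] at h1
  simp only [Finset.sum_const, Finset.card_univ, nsmul_eq_mul] at h1
  linarith

theorem green_nonneg (h : IsResolvent lam Λ) (x : Vertex d) : 0 ≤ Λ (Pi.single x 1) :=
  h.pos _ (bd_single x) (single_nonneg x)

theorem green_le (h : IsResolvent lam Λ) (hlam : 0 < lam) (x : Vertex d) :
    Λ (Pi.single x 1) ≤ Λ (Pi.single 0 1) := by
  set G : Vertex d → ℝ := fun x => Λ (Pi.single x 1) with hG
  set D : ℝ := (Fintype.card (Dir d) : ℝ) with hD
  have hD0 : 0 ≤ D := Nat.cast_nonneg _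
  have hbd : BddAbove (Set.range G) := by
    refine ⟨1 / lam, ?_⟩
    rintro _ ⟨y, rfl⟩
    refine (le_abs_self _).trans (h.bound _ 1 fun z => ?_)
    rw [abs_of_nonneg (single_nonneg y z)]
    by_cases hz : z = y
    · subst hz; simp
    · simp [Pi.single_eq_of_ne hz]
  set s := ⨆ x, G x with hs
  have hle : ∀ x, G x ≤ s := fun x => le_ciSup hbd x
  have hG0 : 0 < G 0 := by
    have h1 := h.green_eq 0
    have h2 : 0 ≤ ∑ δ : Dir d, Λ (Pi.single (0 + step δ) 1) :=
      Finset.sum_nonneg fun δ _ => h.green_nonneg _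
    simp only [Pi.single_eq_same] at h1
    have h3 : 0 < (lam + D) * G 0 := by rw [h1]; linarith
    exact (pos_iff_pos_of_mul_pos h3).1 (by positivity)
  have hspos : 0 < s := hG0.trans_le (hle 0)
  have hother : ∀ x, x ≠ 0 → G x ≤ D / (lam + D) * s := by
    intro x hx
    have h1 := h.green_eq x
    rw [Pi.single_eq_of_ne (Ne.symm hx), zero_add] at h1
    have h2 : ∑ δ : Dir d, Λ (Pi.single (x + step δ) 1) ≤ D * s := by
      refine (Finset.sum_le_sum fun δ _ => hle (x + step δ)).trans ?_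
      simp [hD]
    have h3 : (lam + D) * G x ≤ D * s := by rw [h1]; exact h2
    rw [div_mul_eq_mul_div, le_div_iff₀ (by positivity)]
    linarith
  have hsup : s ≤ max (G 0) (D / (lam + D) * s) := by
    refine ciSup_le fun x => ?_
    by_cases hx : x = 0
    · subst hx; exact le_max_left _ _
    · exact (hother x hx).trans (le_max_right _ _)
  have hlt : D / (lam + D) * s < s := by
    have : D / (lam + D) < 1 := by rw [div_lt_one (by positivity)]; linarith
    nlinarith
  have hs0 : s ≤ G 0 := by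
    rcases le_max_iff.1 hsup with h1 | h1
    · exact h1
    · exact absurd h1 (not_le.2 hlt)
  exact (hle x).trans hs0

theorem green_diff_sum (h : IsResolvent lam Λ) (hlam : 0 < lam) :
    ∑ δ : Dir d, (Λ (Pi.single 0 1) - Λ (Pi.single (step δ) 1)) ≤ 1 := by
  have h1 := h.green_eq 0
  simp only [Pi.single_eq_same, zero_add] at h1
  rw [Finset.sum_sub_distrib]
  simp only [Finset.sum_const, Finset.card_univ, nsmul_eq_mul]
  have := mul_nonneg hlam.le (h.green_nonneg 0)
  linarith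

theorem green_diff_le_one (h : IsResolvent lam Λ) (hlam : 0 < lam) (δ : Dir d) :
    Λ (Pi.single 0 1) - Λ (Pi.single (step δ) 1) ≤ 1 := by
  refine le_trans ?_ (h.green_diff_sum hlam)
  exact Finset.single_le_sum (f := fun δ : Dir d => Λ (Pi.single 0 1) - Λ (Pi.single (step δ) 1))
    (fun δ _ => sub_nonneg.2 (h.green_le hlam _)) (Finset.mem_univ δ)

theorem bd_pert (g : Vertex d → ℝ) : Bd (pert g) := by
  obtain ⟨Λ, hΛ⟩ := exists_resolvent (d := d) one_pos
  refine (hΛ.finset_sum Finset.univ (fun (δ : Dir d) x => (g 0 - g (step δ)) / 2 *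
    ((Pi.single 0 1 : Vertex d → ℝ) x - (Pi.single (step δ) 1 : Vertex d → ℝ) x)) fun δ => ?_).1
  have := ((bd_single (0 : Vertex d)).add ((bd_single (step δ)).smul (-1))).smul
    ((g 0 - g (step δ)) / 2)
  convert this using 2
  ring

theorem pert_eq (h : IsResolvent lam Λ) (g : Vertex d → ℝ) :
    Λ (pert g) = ∑ δ : Dir d, (g 0 - g (step δ)) / 2 *
      (Λ (Pi.single 0 1) - Λ (Pi.single (step δ) 1)) := by
  have hb : ∀ δ : Dir d, Bd (fun x => (Pi.single 0 1 : Vertex d → ℝ) x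
      + (-1) * (Pi.single (step δ) 1 : Vertex d → ℝ) x) :=
    fun δ => (bd_single (0 : Vertex d)).add ((bd_single (step δ)).smul (-1))
  have h1 : pert g = fun x => ∑ δ : Dir d, (g 0 - g (step δ)) / 2 *
      ((Pi.single 0 1 : Vertex d → ℝ) x + (-1) * (Pi.single (step δ) 1 : Vertex d → ℝ) x) := by
    ext x
    simp only [pert]
    refine Finset.sum_congr rfl fun δ _ => by ring
  rw [h1, (h.finset_sum _ _ fun δ => (hb δ).smul _).2]
  refine Finset.sum_congr rfl fun δ _ => ?_
  rw [h.smul _ _ (hb δ), h.add _ _ (bd_single _) ((bd_single _).smul _), h.smul _ _ (bd_single _)]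
  ring

/-- key inequality -/
theorem pert_le (h : IsResolvent lam Λ) (hlam : 0 < lam) (g : Vertex d → ℝ)
    (hg : ∀ δ : Dir d, g (step δ) ≤ g 0) :
    Λ (pert g) ≤ ∑ δ : Dir d, (g 0 - g (step δ)) / 2 := by
  rw [h.pert_eq]
  refine Finset.sum_le_sum fun δ _ => ?_
  have h1 : 0 ≤ (g 0 - g (step δ)) / 2 := by linarith [hg δ]
  have h2 := h.green_diff_le_one hlam δ
  nlinarith

theorem pert_nonneg (h : IsResolvent lam Λ) (hlam : 0 < lam) (g : Vertex d → ℝ)
    (hg : ∀ δ : Dir d, g (step δ) ≤ g 0) : 0 ≤ Λ (pert g) := by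
  rw [h.pert_eq]
  refine Finset.sum_nonneg fun δ _ => ?_
  have h1 : 0 ≤ (g 0 - g (step δ)) / 2 := by linarith [hg δ]
  exact mul_nonneg h1 (sub_nonneg.2 (h.green_le hlam _))

end IsResolvent

end Pool.Agent.EdgeAveraging
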