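import Mathlib
import Pool.Agent.Helper94.EA.Resolvent

open MeasureTheory Filter Topology Set
open scoped NNReal

set_option linter.unusedSectionVars false
set_option linter.unusedVariables false

namespace Pool.Agent.EdgeAveraging

variable {d : ℕ}

theorem hasDerivWithinAt_of_euler {y : ℝ → ℝ} {y' t C h0 : ℝ} (hh0 : 0 < h0)
    (hy : ∀ h, 0 ≤ h → h ≤ h0 → |y (t + h) - y t - h * y'| ≤ C * h ^ 2) :
    HasDerivWithinAt y y' (Ici t) t := by
  rw [hasDerivWithinAt_iff_isLittleO, Asymptotics.isLittleO_iff]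
  intro ε hε
  have hC : 0 ≤ C := by
    have := (abs_nonneg _).trans (hy h0 hh0.le le_rfl)
    exact (mul_nonneg_iff_of_pos_right (by positivity)).1 this
  set r := min h0 (ε / (C + 1)) with hr
  have hrpos : 0 < r := lt_min hh0 (by positivity)
  have hmem : Ico t (t + r) ∈ 𝓝[Ici t] t := Ico_mem_nhdsGE (by linarith)
  filter_upwards [hmem] with x hx
  have h1 : 0 ≤ x - t := by linarith [hx.1]
  have h2 : x - t < r := by linarith [hx.2]
  have h3 := hy (x - t) h1 (h2.le.trans (min_le_left _ _))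
  have h4 : t + (x - t) = x := by ring
  rw [h4] at h3
  rw [Real.norm_eq_abs, Real.norm_eq_abs, smul_eq_mul, abs_of_nonneg h1]
  refine h3.trans ?_
  have h5 : C * (x - t) ≤ ε := by
    have h6 : x - t ≤ ε / (C + 1) := h2.le.trans (min_le_right _ _)
    have h7 : (C + 1) * (x - t) ≤ ε := by
      rw [le_div_iff₀ (by positivity)] at h6
      linarith
    nlinarith
  nlinarith

theorem continuous_of_lip {y : ℝ → ℝ} {C h0 : ℝ} (hh0 : 0 < h0)
    (hneg : ∀ t, t ≤ 0 → y t = y 0)
    (hy : ∀ t, 0 ≤ t → ∀ h, 0 ≤ h → h ≤ h0 → |y (t + h) - y t| ≤ C * h) : Continuous y := by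
  have hC : 0 ≤ C := by
    have := (abs_nonneg _).trans (hy 0 le_rfl h0 hh0.le le_rfl)
    exact (mul_nonneg_iff_of_pos_right hh0).1 this
  have key : ∀ s t, s ≤ t → t - s ≤ h0 → |y t - y s| ≤ C * (t - s) := by
    intro s t hst hts
    rcases le_total 0 s with hs | hs
    · have := hy s hs (t - s) (by linarith) hts
      rwa [show s + (t - s) = t by ring] at this
    · rcases le_total t 0 with ht | ht
      · rw [hneg t ht, hneg s hs, sub_self, abs_zero]
        exact mul_nonneg hC (by linarith)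
      · rw [hneg s hs]
        have := hy 0 le_rfl t ht (by linarith)
        rw [zero_add] at this
        refine this.trans ?_
        exact mul_le_mul_of_nonneg_left (by linarith) hC
  rw [Metric.continuous_iff]
  intro t ε hε
  refine ⟨min h0 (ε / (C + 1)), lt_min hh0 (by positivity), fun s hs => ?_⟩
  rw [Real.dist_eq] at hs ⊢
  have h1 : |s - t| ≤ h0 := hs.le.trans (min_le_left _ _)
  have h2 : |s - t| < ε / (C + 1) := hs.trans_le (min_le_right _ _)
  have h3 : |y s - y t| ≤ C * |s - t| := by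
    rcases le_total s t with h | h
    · rw [abs_sub_comm s t, abs_of_nonneg (by linarith : 0 ≤ t - s)] at h1 ⊢
      rw [abs_sub_comm]
      exact key s t h h1
    · rw [abs_of_nonneg (by linarith : 0 ≤ s - t)] at h1 ⊢
      exact key t s h h1
  rw [lt_div_iff₀ (by positivity)] at h2
  have h4 : 0 ≤ |s - t| := abs_nonneg _
  nlinarith

/-- monotonicity from right derivatives -/
theorem antitoneOn_of_right_deriv {y y' : ℝ → ℝ} (hc : Continuous y)
    (hd : ∀ t, 0 ≤ t → HasDerivWithinAt y (y' t) (Ici t) t) (hneg : ∀ t, 0 ≤ t → y' t ≤ 0)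
    {a b : ℝ} (ha : 0 ≤ a) (hab : a ≤ b) : y b ≤ y a := by
  refine image_le_of_deriv_right_le_deriv_boundary (f := y) (f' := y') (a := a) (b := b)
    (B := fun _ => y a) (B' := fun _ => 0) hc.continuousOn (fun x hx => hd x (ha.trans hx.1))
    le_rfl continuousOn_const (fun x _ => hasDerivWithinAt_const _ _ _)
    (fun x hx => hneg x (ha.trans hx.1)) ?_
  exact ⟨hab, le_rfl⟩

theorem step_ne_zero (δ : Dir d) : step δ ≠ 0 := by
  obtain ⟨i, b⟩ := δ
  intro h
  have := congrFun h i
  cases b <;> simp [step] at this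

theorem lap_add_pert_zero (g : Vertex d → ℝ) :
    lap g 0 + pert g 0 = - ∑ δ : Dir d, (g 0 - g (step δ)) / 2 := by
  rw [lap, pert, ← Finset.sum_add_distrib, ← Finset.sum_neg_distrib]
  refine Finset.sum_congr rfl fun δ _ => ?_
  rw [Pi.single_eq_same, Pi.single_eq_of_ne (step_ne_zero δ).symm, zero_add]
  ring

theorem lap_abs_le {g : Vertex d → ℝ} {M : ℝ} (hg : ∀ x, |g x| ≤ M) (x : Vertex d) :
    |lap g x| ≤ (Fintype.card (Dir d) : ℝ) * (2 * M) := by
  refine (Finset.abs_sum_le_sum_abs _ _).trans ?_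
  have : ∀ δ ∈ Finset.univ, |g (x + step δ) - g x| ≤ 2 * M := by
    intro δ _
    have h1 := abs_sub (g (x + step δ)) (g x)
    have := hg (x + step δ)
    have := hg x
    linarith
  refine (Finset.sum_le_sum this).trans ?_
  simp

theorem pert_abs_le {g : Vertex d → ℝ} {M : ℝ} (hg : ∀ x, |g x| ≤ M) (x : Vertex d) :
    |pert g x| ≤ (Fintype.card (Dir d) : ℝ) * M := by
  refine (Finset.abs_sum_le_sum_abs _ _).trans ?_
  have : ∀ δ ∈ Finset.univ, |(g 0 - g (step δ)) / 2 *
    ((Pi.single 0 1 : Vertex d → ℝ) x - (Pi.single (step δ) 1 : Vertex d → ℝ) x)| ≤ M := by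
    intro δ _
    rw [abs_mul, abs_div]
    have h1 := abs_sub (g 0) (g (step δ))
    have h2 := hg (step δ)
    have h3 := hg 0
    have h4 : |(Pi.single 0 1 : Vertex d → ℝ) x - (Pi.single (step δ) 1 : Vertex d → ℝ) x| ≤ 1 := by
      have e1 := single_nonneg (0 : Vertex d) x
      have e2 := single_nonneg (step δ) x
      have e3 : (Pi.single 0 1 : Vertex d → ℝ) x ≤ 1 := by
        by_cases h : x = 0
        · subst h; simp
        · simp [Pi.single_eq_of_ne h]
      have e4 : (Pi.single (step δ) 1 : Vertex d → ℝ) x ≤ 1 := by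
        by_cases h : x = step δ
        · subst h; simp
        · simp [Pi.single_eq_of_ne h]
      rw [abs_le]; constructor <;> linarith
    have h5 : |g 0 - g (step δ)| / |(2 : ℝ)| ≤ M := by
      rw [abs_two]; linarith
    calc _ ≤ M * 1 := mul_le_mul h5 h4 (abs_nonneg _) ((abs_nonneg _).trans h3)
      _ = M := mul_one M
  refine (Finset.sum_le_sum this).trans ?_
  simp

theorem bd_lap {g : Vertex d → ℝ} (hg : Bd g) : Bd (lap g) := by
  obtain ⟨M, hM⟩ := hg
  exact ⟨_, lap_abs_le hM⟩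

/-- The comparison estimate: time integral of the excess second moment. -/
theorem comparison {φ ψ : ℝ → Vertex d → ℝ} {C0 C h0 : ℝ} (hh0 : 0 < h0)
    (hφneg : ∀ t, t ≤ 0 → φ t = φ 0) (hψneg : ∀ t, t ≤ 0 → ψ t = ψ 0)
    (hφb : ∀ t x, |φ t x| ≤ C0) (hψb : ∀ t x, |ψ t x| ≤ C0)
    (hφ : ∀ t, 0 ≤ t → ∀ h, 0 ≤ h → h ≤ h0 → ∀ x,
      |φ (t + h) x - φ t x - h * (lap (φ t) x + pert (φ t) x)| ≤ C * h ^ 2)
    (hψ : ∀ t, 0 ≤ t → ∀ h, 0 ≤ h → h ≤ h0 → ∀ x,
      |ψ (t + h) x - ψ t x - h * lap (ψ t) x| ≤ C * h ^ 2)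
    (h00 : ∀ x, φ 0 x = ψ 0 x)
    (hφ0 : ∀ t, 0 ≤ t → ∀ δ : Dir d, φ t (step δ) ≤ φ t 0)
    (hφpos : ∀ t, 0 ≤ t → 0 ≤ φ t 0)
    (hge : ∀ t, 0 ≤ t → ψ t 0 ≤ φ t 0) {T : ℝ} (hT : 0 ≤ T) :
    Continuous (fun t => φ t 0) ∧ Continuous (fun t => ψ t 0) ∧
      ∫ s in (0:ℝ)..T, (φ s 0 - ψ s 0) ≤ φ 0 0 := by
  have hC : 0 ≤ C := by
    have := (abs_nonneg _).trans (hψ 0 le_rfl h0 hh0.le le_rfl 0)
    exact (mul_nonneg_iff_of_pos_right (by positivity)).1 this
  have hC0 : 0 ≤ C0 := (abs_nonneg _).trans (hφb 0 0)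
  set D : ℝ := (Fintype.card (Dir d) : ℝ) with hD
  have hD0 : 0 ≤ D := Nat.cast_nonneg _
  set C1 : ℝ := D * (2 * C0) + D * C0 + C * h0 with hC1
  have hφlip : ∀ t, 0 ≤ t → ∀ h, 0 ≤ h → h ≤ h0 → ∀ x, |φ (t + h) x - φ t x| ≤ C1 * h := by
    intro t ht h hh hh' x
    have h1 := hφ t ht h hh hh' x
    have h2 := lap_abs_le (hφb t) x
    have h3 := pert_abs_le (hφb t) x
    have h4 : |φ (t + h) x - φ t x| ≤ C * h ^ 2 + h * |lap (φ t) x + pert (φ t) x| := by
      have : φ (t + h) x - φ t x = (φ (t + h) x - φ t x - h * (lap (φ t) x + pert (φ t) x))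
        + h * (lap (φ t) x + pert (φ t) x) := by ring
      rw [this]
      refine (abs_add_le _ _).trans ?_
      rw [abs_mul h, abs_of_nonneg hh]
      linarith
    have h5 := abs_add_le (lap (φ t) x) (pert (φ t) x)
    have h6 : h * |lap (φ t) x + pert (φ t) x| ≤ h * (D * (2 * C0) + D * C0) :=
      mul_le_mul_of_nonneg_left (by linarith) hh
    have h7 : C * h ^ 2 ≤ C * h0 * h := by nlinarith [mul_nonneg hC hh]
    rw [hC1]
    linarith
  have hψlip : ∀ t, 0 ≤ t → ∀ h, 0 ≤ h → h ≤ h0 → ∀ x, |ψ (t + h) x - ψ t x| ≤ C1 * h := by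
    intro t ht h hh hh' x
    have h1 := hψ t ht h hh hh' x
    have h2 := lap_abs_le (hψb t) x
    have h4 : |ψ (t + h) x - ψ t x| ≤ C * h ^ 2 + h * |lap (ψ t) x| := by
      have : ψ (t + h) x - ψ t x = (ψ (t + h) x - ψ t x - h * (lap (ψ t) x))
        + h * (lap (ψ t) x) := by ring
      rw [this]
      refine (abs_add_le _ _).trans ?_
      rw [abs_mul h, abs_of_nonneg hh]
      linarith
    have h6 : h * |lap (ψ t) x| ≤ h * (D * (2 * C0)) :=
      mul_le_mul_of_nonneg_left h2 hh
    have h7 : C * h ^ 2 ≤ C * h0 * h := by nlinarith [mul_nonneg hC hh]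
    have h8 : 0 ≤ h * (D * C0) := by positivity
    rw [hC1]
    linarith
  have hφc : ∀ x, Continuous (fun t => φ t x) := fun x =>
    continuous_of_lip hh0 (fun t ht => by rw [hφneg t ht]) (fun t ht h hh hh' => hφlip t ht h hh hh' x)
  have hψc : ∀ x, Continuous (fun t => ψ t x) := fun x =>
    continuous_of_lip hh0 (fun t ht => by rw [hψneg t ht]) (fun t ht h hh hh' => hψlip t ht h hh hh' x)
  refine ⟨hφc 0, hψc 0, ?_⟩
  -- the main estimate for fixed `lam`
  set χ : ℝ → Vertex d → ℝ := fun t x => φ t x + (-1) * ψ t x with hχ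
  have hχb : ∀ t x, |χ t x| ≤ 2 * C0 := by
    intro t x
    have h1 := abs_add_le (φ t x) ((-1) * ψ t x)
    rw [abs_mul, abs_neg, abs_one, one_mul] at h1
    have := hφb t x
    have := hψb t x
    simp only [hχ]
    linarith
  have hφBd : ∀ t, Bd (φ t) := fun t => ⟨C0, hφb t⟩
  have hψBd : ∀ t, Bd (ψ t) := fun t => ⟨C0, hψb t⟩
  have hχBd : ∀ t, Bd (χ t) := fun t => ⟨_, hχb t⟩
  have hlapχ : ∀ t x, lap (χ t) x = lap (φ t) x - lap (ψ t) x := by
    intro t x
    simp only [lap, hχ]
    rw [← Finset.sum_sub_distrib]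
    refine Finset.sum_congr rfl fun δ _ => by ring
  have main : ∀ lam : ℝ, 0 < lam → ∀ t, 0 ≤ t →
      ∫ s in (0:ℝ)..t, Real.exp (-(lam * s)) * χ s 0
        ≤ φ 0 0 + Real.exp (-(lam * t)) * (2 * C0 / lam) := by
    intro lam hlam t ht
    obtain ⟨Λ, hΛ⟩ := exists_resolvent (d := d) hlam
    -- Lipschitz and derivative of `Λ (χ t)`
    have hdiffχ : ∀ t, 0 ≤ t → ∀ h, 0 ≤ h → h ≤ h0 →
        |Λ (χ (t + h)) - Λ (χ t) - h * (lam * Λ (χ t) - χ t 0 + Λ (pert (φ t)))|
          ≤ (2 * C / lam) * h ^ 2 := by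
      intro t ht h hh hh'
      set err : Vertex d → ℝ := fun x => χ (t + h) x - χ t x - h * (lap (χ t) x + pert (φ t) x)
        with herr
      have herrb : ∀ x, |err x| ≤ 2 * C * h ^ 2 := by
        intro x
        have h1 := hφ t ht h hh hh' x
        have h2 := hψ t ht h hh hh' x
        have h3 : err x = (φ (t + h) x - φ t x - h * (lap (φ t) x + pert (φ t) x))
          - (ψ (t + h) x - ψ t x - h * lap (ψ t) x) := by
          simp only [herr, hlapχ]
          simp only [hχ]
          ring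
        rw [h3]
        refine (abs_sub _ _).trans ?_
        linarith
      have h1 : χ (t + h) = fun x => (χ t x + h * (lap (χ t) x + pert (φ t) x)) + err x := by
        ext x
        simp only [herr]
        ring
      have hb1 : Bd (fun x => lap (χ t) x + pert (φ t) x) :=
        (bd_lap (hχBd t)).add (IsResolvent.bd_pert _)
      have h2 : Λ (χ (t + h)) = Λ (χ t) + h * (Λ (lap (χ t)) + Λ (pert (φ t))) + Λ err := by
        rw [h1, hΛ.add _ _ ((hχBd t).add (hb1.smul h)) ⟨_, herrb⟩,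
          hΛ.add _ _ (hχBd t) (hb1.smul h), hΛ.smul _ _ hb1,
          hΛ.add _ _ (bd_lap (hχBd t)) (IsResolvent.bd_pert _)]
      rw [hΛ.resolves _ (hχBd t)] at h2
      have h3 : Λ (χ (t + h)) - Λ (χ t) - h * (lam * Λ (χ t) - χ t 0 + Λ (pert (φ t))) = Λ err := by
        rw [h2]; ring
      rw [h3]
      refine (hΛ.bound err _ herrb).trans (le_of_eq ?_)
      ring
    have hΛχb : ∀ t, |Λ (χ t)| ≤ 2 * C0 / lam := fun t => hΛ.bound _ _ (hχb t)
    have hΛpb : ∀ t, |Λ (pert (φ t))| ≤ D * C0 / lam := fun t =>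
      hΛ.bound _ _ (pert_abs_le (hφb t))
    have hΛc : Continuous (fun t => Λ (χ t)) := by
      refine continuous_of_lip (C := (2 * C / lam) * h0 + (lam * (2 * C0 / lam) + 2 * C0
        + D * C0 / lam)) hh0 (fun t ht => ?_) (fun t ht h hh hh' => ?_)
      · have : χ t = χ 0 := by
          ext x; simp only [hχ]; rw [hφneg t ht, hψneg t ht]
        rw [this]
      · have h1 := hdiffχ t ht h hh hh'
        have h2 : |lam * Λ (χ t) - χ t 0 + Λ (pert (φ t))|
            ≤ lam * (2 * C0 / lam) + 2 * C0 + D * C0 / lam := by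
          have e1 := abs_add_le (lam * Λ (χ t) - χ t 0) (Λ (pert (φ t)))
          have e2 := abs_sub (lam * Λ (χ t)) (χ t 0)
          rw [abs_mul, abs_of_pos hlam] at e2
          have e3 := mul_le_mul_of_nonneg_left (hΛχb t) hlam.le
          have e4 := hχb t 0
          have e5 := hΛpb t
          linarith
        have h3 : |Λ (χ (t + h)) - Λ (χ t)| ≤ (2 * C / lam) * h ^ 2
            + h * |lam * Λ (χ t) - χ t 0 + Λ (pert (φ t))| := by
          have : Λ (χ (t + h)) - Λ (χ t) = (Λ (χ (t + h)) - Λ (χ t)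
            - h * (lam * Λ (χ t) - χ t 0 + Λ (pert (φ t))))
            + h * (lam * Λ (χ t) - χ t 0 + Λ (pert (φ t))) := by ring
          rw [this]
          refine (abs_add_le _ _).trans ?_
          rw [abs_mul h, abs_of_nonneg hh]
          linarith
        have h4 := mul_le_mul_of_nonneg_left h2 hh
        have h5 : (2 * C / lam) * h ^ 2 ≤ (2 * C / lam) * h0 * h := by
          have : 0 ≤ 2 * C / lam := by positivity
          nlinarith [mul_nonneg this hh]
        linarith
    set y : ℝ → ℝ := fun t => Real.exp (-(lam * t)) * Λ (χ t)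
      + (∫ s in (0:ℝ)..t, Real.exp (-(lam * s)) * χ s 0) + φ t 0 with hy
    set y' : ℝ → ℝ := fun t => Real.exp (-(lam * t)) * Λ (pert (φ t))
      - ∑ δ : Dir d, (φ t 0 - φ t (step δ)) / 2 with hy'
    have hχc : Continuous (fun s => χ s 0) := (hφc 0).add ((hψc 0).const_mul (-1))
    have hec : Continuous (fun s => Real.exp (-(lam * s))) := by fun_prop
    have hintc : Continuous (fun s => Real.exp (-(lam * s)) * χ s 0) := hec.mul hχc
    have hyc : Continuous y := by
      refine ((hec.mul hΛc).add ?_).add (hφc 0)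
      exact intervalIntegral.continuous_primitive (fun a b => hintc.intervalIntegrable a b) 0
    have hyd : ∀ t, 0 ≤ t → HasDerivWithinAt y (y' t) (Ici t) t := by
      intro t ht
      have d1 : HasDerivWithinAt (fun t => Λ (χ t)) (lam * Λ (χ t) - χ t 0 + Λ (pert (φ t)))
          (Ici t) t := hasDerivWithinAt_of_euler hh0 (hdiffχ t ht)
      have d2 : HasDerivWithinAt (fun t => Real.exp (-(lam * t)))
          (Real.exp (-(lam * t)) * (-lam)) (Ici t) t := by
        have : HasDerivAt (fun t => -(lam * t)) (-lam) t := by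
          have h := ((hasDerivAt_id' t).const_mul lam).fun_neg
          rw [mul_one] at h
          exact h
        exact this.exp.hasDerivWithinAt
      have d3 : HasDerivWithinAt (fun t => ∫ s in (0:ℝ)..t, Real.exp (-(lam * s)) * χ s 0)
          (Real.exp (-(lam * t)) * χ t 0) (Ici t) t :=
        (hintc.integral_hasStrictDerivAt 0 t).hasDerivAt.hasDerivWithinAt
      have d4 : HasDerivWithinAt (fun t => φ t 0) (lap (φ t) 0 + pert (φ t) 0) (Ici t) t :=
        hasDerivWithinAt_of_euler hh0 (fun h hh hh' => hφ t ht h hh hh' 0)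
      have d5 := ((d2.mul d1).add d3).add d4
      refine d5.congr_deriv ?_
      rw [lap_add_pert_zero]
      simp only [hy']
      ring
    have hy'neg : ∀ t, 0 ≤ t → y' t ≤ 0 := by
      intro t ht
      have h1 := hΛ.pert_le hlam (φ t) (hφ0 t ht)
      have h2 := hΛ.pert_nonneg hlam (φ t) (hφ0 t ht)
      have h3 : Real.exp (-(lam * t)) ≤ 1 := Real.exp_le_one_iff.2 (by
        have := mul_nonneg hlam.le ht; linarith)
      have h4 : Real.exp (-(lam * t)) * Λ (pert (φ t)) ≤ Λ (pert (φ t)) := by nlinarith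
      simp only [hy']
      linarith
    have h1 := antitoneOn_of_right_deriv hyc hyd hy'neg le_rfl ht
    have h2 : χ 0 = fun x => 0 * (0 : ℝ) := by
      ext x
      simp only [hχ]
      rw [h00 x]; ring
    have h3 : Λ (χ 0) = 0 := by
      rw [h2, hΛ.smul 0 (fun _ => 0) ⟨0, fun x => by simp⟩, zero_mul]
    simp only [hy] at h1
    rw [h3] at h1
    simp only [mul_zero, intervalIntegral.integral_same, zero_add] at h1
    have h4 : 0 ≤ φ t 0 := hφpos t ht
    have h5 : -(Real.exp (-(lam * t)) * (2 * C0 / lam)) ≤ Real.exp (-(lam * t)) * Λ (χ t) := by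
      have := (abs_le.1 (hΛχb t)).1
      have he := Real.exp_pos (-(lam * t))
      nlinarith
    linarith
  have hχc : Continuous (fun s => χ s 0) := (hφc 0).add ((hψc 0).const_mul (-1))
  have hχpos : ∀ s, 0 ≤ s → 0 ≤ χ s 0 := by
    intro s hs
    have := hge s hs
    simp only [hχ]
    linarith
  have hI : ∫ s in (0:ℝ)..T, (φ s 0 - ψ s 0) = ∫ s in (0:ℝ)..T, χ s 0 := by
    congr 1
    ext s
    simp only [hχ]
    ring
  rw [hI]
  have hlam : ∀ lam : ℝ, 0 < lam → Real.exp (-(lam * T)) * ∫ s in (0:ℝ)..T, χ s 0 ≤ φ 0 0 := by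
    intro lam hl
    have hec : Continuous (fun s => Real.exp (-(lam * s)) * χ s 0) := by
      have : Continuous (fun s => Real.exp (-(lam * s))) := by fun_prop
      exact this.mul hχc
    have h1 : ∀ t, T ≤ t → Real.exp (-(lam * T)) * ∫ s in (0:ℝ)..T, χ s 0
        ≤ φ 0 0 + Real.exp (-(lam * t)) * (2 * C0 / lam) := by
      intro t ht
      refine le_trans ?_ (main lam hl t (hT.trans ht))
      rw [← intervalIntegral.integral_const_mul]
      have h2 : ∫ s in (0:ℝ)..T, Real.exp (-(lam * T)) * χ s 0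
          ≤ ∫ s in (0:ℝ)..T, Real.exp (-(lam * s)) * χ s 0 := by
        refine intervalIntegral.integral_mono_on hT ((hχc.const_mul _).intervalIntegrable _ _)
          (hec.intervalIntegrable _ _) (fun s hs => ?_)
        refine mul_le_mul_of_nonneg_right ?_ (hχpos s hs.1)
        refine Real.exp_le_exp.2 ?_
        have := mul_le_mul_of_nonneg_left hs.2 hl.le
        linarith
      have h3 : ∫ s in (0:ℝ)..T, Real.exp (-(lam * s)) * χ s 0
          ≤ ∫ s in (0:ℝ)..t, Real.exp (-(lam * s)) * χ s 0 := by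
        rw [← intervalIntegral.integral_add_adjacent_intervals (hec.intervalIntegrable 0 T)
          (hec.intervalIntegrable T t)]
        have : 0 ≤ ∫ s in T..t, Real.exp (-(lam * s)) * χ s 0 :=
          intervalIntegral.integral_nonneg ht fun s hs =>
            mul_nonneg (Real.exp_pos _).le (hχpos s (hT.trans hs.1))
        linarith
      exact h2.trans h3
    have hlim : Tendsto (fun t => φ 0 0 + Real.exp (-(lam * t)) * (2 * C0 / lam)) atTop
        (𝓝 (φ 0 0 + 0 * (2 * C0 / lam))) := by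
      refine tendsto_const_nhds.add (Tendsto.mul_const _ ?_)
      refine Real.tendsto_exp_atBot.comp ?_
      exact tendsto_neg_atTop_atBot.comp (tendsto_id.const_mul_atTop hl)
    rw [zero_mul, add_zero] at hlim
    exact ge_of_tendsto hlim (eventually_atTop.2 ⟨T, fun t ht => h1 t ht⟩)
  have hlim : Tendsto (fun lam : ℝ => Real.exp (-(lam * T)) * ∫ s in (0:ℝ)..T, χ s 0)
      (𝓝[>] 0) (𝓝 (Real.exp (-(0 * T)) * ∫ s in (0:ℝ)..T, χ s 0)) := by
    have hcont : Continuous (fun lam : ℝ => Real.exp (-(lam * T)) * ∫ s in (0:ℝ)..T, χ s 0) := by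
      fun_prop
    exact (hcont.tendsto 0).mono_left nhdsWithin_le_nhds
  rw [zero_mul, neg_zero, Real.exp_zero, one_mul] at hlim
  exact le_of_tendsto hlim (eventually_nhdsWithin_of_forall fun lam hl => hlam lam hl)

/-- Summability along a grid from the integral bound and monotonicity. -/
theorem sum_grid_le {A B : ℝ → ℝ} (hA : Continuous A) (hB : Continuous B)
    (hAanti : ∀ s t, 0 ≤ s → s ≤ t → A t ≤ A s) (hBanti : ∀ s t, 0 ≤ s → s ≤ t → B t ≤ B s)
    {K : ℝ} (hK : ∀ T, 0 ≤ T → ∫ s in (0:ℝ)..T, (A s - B s) ≤ K) (hBpos : ∀ t, 0 ≤ t → 0 ≤ B t)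
    {a : ℝ} (ha : 0 < a) (N : ℕ) :
    ∑ n ∈ Finset.range N, (A ((n + 1 : ℕ) * a) - B ((n + 1 : ℕ) * a)) ≤ K / a + B 0 := by
  have h1 : ∀ N : ℕ, a * ∑ n ∈ Finset.range N, (A ((n + 1 : ℕ) * a) - B (n * a))
      ≤ ∫ s in (0:ℝ)..(N * a), (A s - B s) := by
    intro N
    induction N with
    | zero => simp
    | succ N ih =>
      rw [Finset.sum_range_succ, mul_add]
      have hcont : Continuous (fun s => A s - B s) := hA.sub hB
      rw [← intervalIntegral.integral_add_adjacent_intervals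
        (hcont.intervalIntegrable 0 (N * a)) (hcont.intervalIntegrable (N * a) ((N + 1 : ℕ) * a))]
      refine add_le_add ih ?_
      have hNa : (0 : ℝ) ≤ N * a := by positivity
      have hle : (N : ℝ) * a ≤ (N + 1 : ℕ) * a := by
        push_cast; nlinarith
      have h2 : ∫ s in (N * a)..((N + 1 : ℕ) * a), (A ((N + 1 : ℕ) * a) - B (N * a))
          ≤ ∫ s in (N * a)..((N + 1 : ℕ) * a), (A s - B s) := by
        refine intervalIntegral.integral_mono_on hle (by simp) (hcont.intervalIntegrable _ _)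
          (fun s hs => ?_)
        have e1 := hAanti s _ (hNa.trans hs.1) hs.2
        have e2 := hBanti _ s hNa hs.1
        linarith
      rw [intervalIntegral.integral_const] at h2
      refine le_trans (le_of_eq ?_) h2
      rw [smul_eq_mul]
      push_cast
      ring
  have h2 := (h1 N).trans (hK (N * a) (by positivity))
  have h3 : ∑ n ∈ Finset.range N, (A ((n + 1 : ℕ) * a) - B ((n + 1 : ℕ) * a))
      = ∑ n ∈ Finset.range N, (A ((n + 1 : ℕ) * a) - B (n * a)) + (B 0 - B (N * a)) := by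
    have h4 : ∑ n ∈ Finset.range N, (B (n * a) - B ((n + 1 : ℕ) * a)) = B 0 - B (N * a) := by
      have := Finset.sum_range_sub' (fun n : ℕ => B (n * a)) N
      simpa using this
    rw [← h4, ← Finset.sum_add_distrib]
    refine Finset.sum_congr rfl fun n _ => by ring
  rw [h3]
  have h5 := hBpos (N * a) (by positivity)
  have h6 : ∑ n ∈ Finset.range N, (A ((n + 1 : ℕ) * a) - B (n * a)) ≤ K / a := by
    rw [le_div_iff₀ ha]
    linarith
  linarith

end Pool.Agent.EdgeAveraging
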