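import Mathlib
import Pool.Agent.Helper94.EA.Compare

open MeasureTheory Filter Topology Set
open scoped NNReal

set_option linter.unusedSectionVars false
set_option linter.unusedVariables false

namespace Pool.Agent.EdgeAveraging

variable {d : ℕ}

/-- the edge at `x` in direction `δ` -/
def edgeAt (x : Vertex d) (δ : Dir d) : Edge d :=
  if δ.2 then (x, δ.1) else (x - Pi.single δ.1 1, δ.1)

theorem edgeAt_ends (x : Vertex d) (δ : Dir d) :
    (lower (edgeAt x δ) = x ∧ upper (edgeAt x δ) = x + step δ) ∨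
      (lower (edgeAt x δ) = x + step δ ∧ upper (edgeAt x δ) = x) := by
  obtain ⟨i, b⟩ := δ
  cases b
  · right
    simp [edgeAt, lower, upper, step, sub_eq_add_neg]
  · left
    simp [edgeAt, lower, upper, step]

theorem incident_iff (x : Vertex d) (e : Edge d) :
    (x = lower e ∨ x = upper e) ↔ ∃ δ : Dir d, e = edgeAt x δ := by
  constructor
  · rintro (h | h)
    · refine ⟨(e.2, true), ?_⟩
      simp only [edgeAt, if_true]
      rw [h]; rfl
    · refine ⟨(e.2, false), ?_⟩
      simp only [edgeAt]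
      rw [h]
      simp [upper]
  · rintro ⟨δ, rfl⟩
    rcases edgeAt_ends x δ with h | h
    · left; rw [h.1]
    · right; rw [h.2]

theorem edgeAt_injective (x : Vertex d) : Function.Injective (edgeAt x) := by
  rintro ⟨i, b⟩ ⟨j, c⟩ h
  cases b <;> cases c <;>
    simp only [edgeAt, if_true, Bool.false_eq_true, if_false, Prod.mk.injEq] at h
  · rw [h.2]
  · exfalso
    have h1 := congrFun h.1 i
    simp at h1
  · exfalso
    have h1 := congrFun h.1 i
    rw [← h.2] at h1
    simp at h1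
    omega
  · rw [h.2]

theorem edgeAt_opp (x : Vertex d) (δ : Dir d) : edgeAt (x + step δ) (opp δ) = edgeAt x δ := by
  obtain ⟨i, b⟩ := δ
  cases b <;> simp [edgeAt, step, opp, sub_eq_add_neg]

/-- two vertices sharing an edge -/
theorem edgeAt_eq_iff (x y : Vertex d) (δ δ' : Dir d) :
    edgeAt x δ = edgeAt y δ' ↔ (y = x ∧ δ' = δ) ∨ (y = x + step δ ∧ δ' = opp δ) := by
  constructor
  · intro h
    have hy : y = x ∨ y = x + step δ := by
      have h1 : y = lower (edgeAt x δ) ∨ y = upper (edgeAt x δ) := by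
        rw [h]
        exact (incident_iff y _).2 ⟨δ', rfl⟩
      rcases edgeAt_ends x δ with h2 | h2
      · rw [h2.1, h2.2] at h1; exact h1
      · rw [h2.1, h2.2] at h1; exact h1.symm
    rcases hy with rfl | rfl
    · left
      exact ⟨rfl, (edgeAt_injective y h).symm⟩
    · right
      refine ⟨rfl, ?_⟩
      rw [← edgeAt_opp x δ] at h
      exact (edgeAt_injective _ h).symm
  · rintro (⟨rfl, rfl⟩ | ⟨rfl, rfl⟩)
    · rfl
    · rw [edgeAt_opp]

theorem not_ringsAt_of_eq {n : ℝ≥0 → ℕ} (hn : Monotone n) {s t : ℝ≥0} (h : n t = n s) :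
    ∀ r, s < r → r ≤ t → ¬ RingsAt n r := by
  rintro r h1 h2 ⟨_, h3⟩
  have h4 := h3 s h1
  have h5 := hn h2
  omega

theorem exists_ring {n : ℝ≥0 → ℕ} (hn : Monotone n)
    (hc : ∀ t, ContinuousWithinAt n (Ici t) t) {s t : ℝ≥0} (hst : s ≤ t) (h : n t = n s + 1) :
    ∃ r, s < r ∧ r ≤ t ∧ RingsAt n r ∧ n r = n t ∧ ∀ u, s ≤ u → u < r → n u = n s := by
  -- the set of times after the jump
  set A : Set ℝ≥0 := {u | s ≤ u ∧ n s < n u} with hA
  have htA : t ∈ A := ⟨hst, by omega⟩
  have hAne : A.Nonempty := ⟨t, htA⟩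
  have hAbdd : BddBelow A := ⟨0, fun u _ => zero_le⟩
  set r := sInf A with hr
  have hrt : r ≤ t := csInf_le hAbdd htA
  have hsr' : s ≤ r := le_csInf hAne fun u hu => hu.1
  -- local constancy to the right
  have hloc : ∀ u, ∀ᶠ v in 𝓝[≥] u, n v = n u := by
    intro u
    have := hc u
    rw [ContinuousWithinAt, nhds_discrete, tendsto_pure] at this
    exact this
  have hrA : n s < n r := by
    by_contra hcon
    have heq : n r = n s := le_antisymm (not_lt.1 hcon) (hn hsr')
    obtain ⟨v, hv, hvr⟩ := (mem_nhdsGE_iff_exists_Ico_subset' (show r < r + 1 by simp)).1 (hloc r)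
    have hv' : r < v := hv
    obtain ⟨u, huA, huv⟩ := (csInf_lt_iff hAbdd hAne).1 hv'
    have hru : r ≤ u := csInf_le hAbdd huA
    have h1 : n u = n r := hvr ⟨hru, huv⟩
    have h2 := huA.2
    omega
  have hsr : s < r := by
    rcases hsr'.lt_or_eq with h1 | h1
    · exact h1
    · rw [← h1] at hrA
      exact absurd hrA (lt_irrefl _)
  have hbefore : ∀ u, s ≤ u → u < r → n u = n s := by
    intro u hsu hur
    by_contra hne
    have h1 : n s < n u := lt_of_le_of_ne (hn hsu) (Ne.symm hne)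
    have h2 : r ≤ u := csInf_le hAbdd ⟨hsu, h1⟩
    exact absurd hur (not_lt.2 h2)
  have hrt2 : n r = n t := by
    have := hn hrt
    omega
  refine ⟨r, hsr, hrt, ⟨zero_le.trans_lt hsr, fun u hu => ?_⟩, hrt2, hbefore⟩
  rcases le_total s u with h1 | h1
  · rw [hbefore u h1 hu]; exact hrA
  · exact (hn h1).trans_lt hrA

namespace IsEdgeAveragingPath

variable {n : Edge d → ℝ≥0 → ℕ} {g : ℝ≥0 → Vertex d → ℝ}

theorem eq_of_no_ring (h : IsEdgeAveragingPath n g) (hn : ∀ e, Monotone (n e)) {s t : ℝ≥0}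
    (hst : s ≤ t) {x : Vertex d} (hx : ∀ δ : Dir d, n (edgeAt x δ) t = n (edgeAt x δ) s) :
    g t x = g s x := by
  refine h.stay x s t hst (fun e he r h1 h2 => ?_)
  obtain ⟨δ, rfl⟩ := (incident_iff x e).1 he
  exact not_ringsAt_of_eq (hn _) (hx δ) r h1 h2

theorem eq_of_one_ring (h : IsEdgeAveragingPath n g) (hn : ∀ e, Monotone (n e))
    (hc : ∀ e t, ContinuousWithinAt (n e) (Ici t) t) {s t : ℝ≥0}
    (hst : s ≤ t) {x : Vertex d} {δ : Dir d} (hδ : n (edgeAt x δ) t = n (edgeAt x δ) s + 1)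
    (hx : ∀ δ' : Dir d, δ' ≠ δ → n (edgeAt x δ') t = n (edgeAt x δ') s)
    (hy : ∀ δ' : Dir d, δ' ≠ opp δ →
      n (edgeAt (x + step δ) δ') t = n (edgeAt (x + step δ) δ') s) :
    g t x = (g s x + g s (x + step δ)) / 2 := by
  obtain ⟨r, hsr, hrt, hring, hnr, hbefore⟩ := exists_ring (hn _) (hc _) hst hδ
  -- before the ring, nothing happens at `x` and `x + step δ`
  have hxb : ∀ u, s ≤ u → u < r → g u x = g s x := by
    intro u hsu hur
    refine h.eq_of_no_ring hn hsu (fun δ' => ?_)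
    by_cases hδ' : δ' = δ
    · rw [hδ']; exact hbefore u hsu hur
    · have h1 := hn (edgeAt x δ') hsu
      have h2 := hn (edgeAt x δ') (hur.le.trans hrt)
      have h3 := hx δ' hδ'
      omega
  have hyb : ∀ u, s ≤ u → u < r → g u (x + step δ) = g s (x + step δ) := by
    intro u hsu hur
    refine h.eq_of_no_ring hn hsu (fun δ' => ?_)
    by_cases hδ' : δ' = opp δ
    · rw [hδ', edgeAt_opp]; exact hbefore u hsu hur
    · have h1 := hn (edgeAt (x + step δ) δ') hsu
      have h2 := hn (edgeAt (x + step δ) δ') (hur.le.trans hrt)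
      have h3 := hy δ' hδ'
      omega
  have hne : (𝓝[<] r).NeBot := nhdsLT_neBot_of_exists_lt ⟨s, hsr⟩
  have hmem : Ico s r ∈ 𝓝[<] r := Ico_mem_nhdsLT hsr
  have hxl : Tendsto (fun u => g u x) (𝓝[<] r) (𝓝 (g s x)) := by
    refine tendsto_const_nhds.congr' ?_
    filter_upwards [hmem] with u hu
    exact (hxb u hu.1 hu.2).symm
  have hyl : Tendsto (fun u => g u (x + step δ)) (𝓝[<] r) (𝓝 (g s (x + step δ))) := by
    refine tendsto_const_nhds.congr' ?_
    filter_upwards [hmem] with u hu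
    exact (hyb u hu.1 hu.2).symm
  obtain ⟨a, b, ha, hb, hlo, hup⟩ := h.average (edgeAt x δ) r hring
  have hgr : g r x = (g s x + g s (x + step δ)) / 2 := by
    rcases edgeAt_ends x δ with h2 | h2
    · rw [h2.1] at ha hlo
      rw [h2.2] at hb
      have e1 := tendsto_nhds_unique ha hxl
      have e2 := tendsto_nhds_unique hb hyl
      rw [hlo, e1, e2]
    · rw [h2.1] at ha
      rw [h2.2] at hb hup
      have e1 := tendsto_nhds_unique ha hyl
      have e2 := tendsto_nhds_unique hb hxl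
      rw [hup, e1, e2]
      ring
  rw [← hgr]
  refine h.eq_of_no_ring hn hrt (fun δ' => ?_)
  by_cases hδ' : δ' = δ
  · rw [hδ']; exact hnr.symm
  · have h1 := hn (edgeAt x δ') hsr.le
    have h2 := hn (edgeAt x δ') hrt
    have h3 := hx δ' hδ'
    omega

/-- trajectories are locally constant to the right -/
theorem eventually_eq_right (h : IsEdgeAveragingPath n g) (hn : ∀ e, Monotone (n e))
    (hc : ∀ e t, ContinuousWithinAt (n e) (Ici t) t) (t : ℝ≥0) (x : Vertex d) :
    ∀ᶠ u in 𝓝[≥] t, g u x = g t x := by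
  have h1 : ∀ δ : Dir d, ∀ᶠ u in 𝓝[≥] t, n (edgeAt x δ) u = n (edgeAt x δ) t := by
    intro δ
    have := hc (edgeAt x δ) t
    rw [ContinuousWithinAt, nhds_discrete, tendsto_pure] at this
    exact this
  filter_upwards [eventually_all.2 h1, self_mem_nhdsWithin] with u hu hu2
  exact h.eq_of_no_ring hn hu2 hu

end IsEdgeAveragingPath

end Pool.Agent.EdgeAveraging
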