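import Mathlib
import Pool.Agent.Helper94.EA.Path

open MeasureTheory ProbabilityTheory Filter Topology Set
open scoped NNReal

set_option linter.unusedSectionVars false
set_option linter.unusedVariables false

namespace Pool.Agent.EdgeAveraging

theorem indep_sup_left {Ω : Type*} {m1 m2 m3 m0 : MeasurableSpace Ω} {P : Measure Ω}
    [IsProbabilityMeasure P] (h1 : m1 ≤ m0) (h2 : m2 ≤ m0) (h3 : m3 ≤ m0)
    (ha : Indep m1 (m2 ⊔ m3) P) (hb : Indep m2 m3 P) : Indep (m1 ⊔ m2) m3 P := by
  set p1 : Set (Set Ω) := {u | ∃ s t, MeasurableSet[m1] s ∧ MeasurableSet[m2] t ∧ u = s ∩ t}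
    with hp1
  set p2 : Set (Set Ω) := {u | MeasurableSet[m3] u} with hp2
  have hpi1 : IsPiSystem p1 := by
    rintro _ ⟨s, t, hs, ht, rfl⟩ _ ⟨s', t', hs', ht', rfl⟩ _
    exact ⟨s ∩ s', t ∩ t', hs.inter hs', ht.inter ht', by ext; simp; tauto⟩
  have hgen : m1 ⊔ m2 = MeasurableSpace.generateFrom p1 := by
    apply le_antisymm
    · refine sup_le (fun s hs => ?_) (fun t ht => ?_)
      · exact MeasurableSpace.measurableSet_generateFrom
          ⟨s, univ, hs, @MeasurableSet.univ _ m2, by simp⟩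
      · exact MeasurableSpace.measurableSet_generateFrom
          ⟨univ, t, @MeasurableSet.univ _ m1, ht, by simp⟩
    · refine MeasurableSpace.generateFrom_le ?_
      rintro _ ⟨s, t, hs, ht, rfl⟩
      have e1 : MeasurableSet[m1 ⊔ m2] s := (le_sup_left : m1 ≤ m1 ⊔ m2) s hs
      have e2 : MeasurableSet[m1 ⊔ m2] t := (le_sup_right : m2 ≤ m1 ⊔ m2) t ht
      exact @MeasurableSet.inter _ (m1 ⊔ m2) _ _ e1 e2
  refine IndepSets.indep (sup_le h1 h2) h3 hpi1 (@MeasurableSpace.isPiSystem_measurableSet _ m3)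
    hgen (@MeasurableSpace.generateFrom_measurableSet _ m3).symm ?_
  rw [IndepSets_iff]
  rintro _ u ⟨s, t, hs, ht, rfl⟩ hu
  rw [Indep_iff] at ha hb
  have hu' : MeasurableSet[m3] u := hu
  have e1 : MeasurableSet[m2 ⊔ m3] t := (le_sup_left : m2 ≤ m2 ⊔ m3) t ht
  have e2 : MeasurableSet[m2 ⊔ m3] u := (le_sup_right : m3 ≤ m2 ⊔ m3) u hu'
  have e3 : MeasurableSet[m2 ⊔ m3] (t ∩ u) := @MeasurableSet.inter _ (m2 ⊔ m3) _ _ e1 e2
  rw [inter_assoc, ha s (t ∩ u) hs e3, hb t u ht hu', ha s t hs e1]
  ring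

section OneClock

variable {Ω : Type*} [MeasurableSpace Ω] {P : Measure Ω} [IsProbabilityMeasure P]
  {N : ℝ≥0 → Ω → ℕ}

theorem IsPoissonClock.measurable_incr (hN : IsPoissonClock N P) (s t : ℝ≥0) :
    Measurable (fun ω => N t ω - N s ω) := (hN.measurable t).sub (hN.measurable s)

theorem IsPoissonClock.ring_prob (hN : IsPoissonClock N P) {s t : ℝ≥0} (hst : s ≤ t) :
    P.real {ω | 1 ≤ N t ω - N s ω} = 1 - Real.exp (-((t : ℝ) - s)) := by
  have h1 := (hN.law s t hst).measureReal_eq (p := fun k => 1 ≤ k) MeasurableSet.of_discrete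
  rw [h1]
  have h2 : {k : ℕ | 1 ≤ k} = ({0} : Set ℕ)ᶜ := by
    ext k; simp; omega
  rw [h2, measureReal_compl MeasurableSet.of_discrete, poissonMeasure_real_singleton]
  simp [NNReal.coe_sub hst]

theorem exp_bound {a : ℝ} (ha : 0 ≤ a) : 1 - Real.exp (-a) - Real.exp (-a) * a ≤ a ^ 2 := by
  have := Real.add_one_le_exp (-a)
  nlinarith

theorem IsPoissonClock.double_prob (hN : IsPoissonClock N P) {s t : ℝ≥0} (hst : s ≤ t) :
    P.real {ω | 2 ≤ N t ω - N s ω} ≤ ((t : ℝ) - s) ^ 2 := by
  have h1 := (hN.law s t hst).measureReal_eq (p := fun k => 2 ≤ k) MeasurableSet.of_discrete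
  rw [h1]
  have h2 : {k : ℕ | 2 ≤ k} = ({0} ∪ {1} : Set ℕ)ᶜ := by
    ext k; simp; omega
  rw [h2, measureReal_compl MeasurableSet.of_discrete, measureReal_union (by simp)
    MeasurableSet.of_discrete, poissonMeasure_real_singleton, poissonMeasure_real_singleton]
  have h3 : ((t - s : ℝ≥0) : ℝ) = (t : ℝ) - s := NNReal.coe_sub hst
  have h4 : (0 : ℝ) ≤ (t : ℝ) - s := sub_nonneg.2 (by exact_mod_cast hst)
  have h5 := exp_bound h4
  simp only [h3, pow_zero, mul_one, Nat.factorial_zero, Nat.cast_one, div_one, pow_one,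
    Nat.factorial_one, probReal_univ]
  linarith

theorem IsPoissonClock.ring_prob_le (hN : IsPoissonClock N P) {s t : ℝ≥0} (hst : s ≤ t) :
    P.real {ω | 1 ≤ N t ω - N s ω} ≤ (t : ℝ) - s := by
  rw [hN.ring_prob hst]
  have := Real.add_one_le_exp (-((t : ℝ) - s))
  linarith

/-- the increment of a Poisson clock is independent of its past -/
theorem IsPoissonClock.indep_past (hN : IsPoissonClock N P) {s t : ℝ≥0} (hst : s ≤ t) :
    IndepFun (fun ω (r : {r : ℝ≥0 // r ≤ s}) => N r.1 ω) (fun ω => N t ω - N s ω) P := by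
  refine IndepFun.process_indepFun (fun r => hN.measurable r.1) (hN.measurable_incr s t)
    (fun I => ?_)
  classical
  set J : Finset ℝ≥0 := insert 0 (insert s (I.image Subtype.val)) with hJ
  have hcard : 0 < J.card := Finset.card_pos.2 ⟨0, by simp [hJ]⟩
  set K := J.card with hK
  set o := J.orderEmbOfFin (k := K) rfl with ho
  have hJle : ∀ r ∈ J, r ≤ s := by
    intro r hr
    simp only [hJ, Finset.mem_insert, Finset.mem_image, Subtype.exists] at hr
    rcases hr with rfl | rfl | ⟨x, hx, _, rfl⟩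
    · exact zero_le
    · exact le_rfl
    · exact hx
  set τ : ℕ → ℝ≥0 := fun j => if h : j < K then o ⟨j, h⟩ else t with hτ
  have hτle : ∀ j, j < K → τ j ≤ s := by
    intro j hj
    simp only [hτ, hj, dif_pos]
    exact hJle _ (Finset.orderEmbOfFin_mem J rfl _)
  have hτmono : Monotone τ := by
    intro i j hij
    by_cases hj : j < K
    · have hi : i < K := hij.trans_lt hj
      simp only [hτ, hi, hj, dif_pos]
      exact o.monotone hij
    · by_cases hi : i < K
      · have := hτle i hi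
        simp only [hτ, hj, dif_neg, not_false_eq_true] at this ⊢
        exact this.trans hst
      · simp [hτ, hi, hj]
  have hτ0 : τ 0 = 0 := by
    simp only [hτ, hcard, dif_pos]
    have h1 := Finset.orderEmbOfFin_zero (s := J) rfl hcard
    rw [ho, h1]
    exact le_antisymm (Finset.min'_le _ _ (by simp [hJ])) zero_le
  have hτlast : τ (K - 1) = s := by
    have h2 : K - 1 < K := by omega
    simp only [hτ, h2, dif_pos]
    have h1 := Finset.orderEmbOfFin_last (s := J) rfl hcard
    rw [ho, h1]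
    exact le_antisymm (hJle _ (Finset.max'_mem _ _)) (Finset.le_max' _ _ (by simp [hJ]))
  have hτK : τ K = t := by simp [hτ]
  have hsurj : ∀ r ∈ J, ∃ j < K, τ j = r := by
    intro r hr
    have h1 : r ∈ Set.range o := by
      rw [ho, Finset.range_orderEmbOfFin]; exact hr
    obtain ⟨i, hi⟩ := h1
    refine ⟨i.1, i.2, ?_⟩
    simp only [hτ, i.2, dif_pos]
    exact hi
  -- independent increments
  set X : ℕ → Ω → ℕ := fun j ω => N (τ (j + 1)) ω - N (τ j) ω with hX
  have hXm : ∀ j, Measurable (X j) := fun j => hN.measurable_incr _ _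
  have hXind : iIndepFun X P := hN.indepIncrements.nat hτmono
  have hdisj : Disjoint (Finset.range (K - 1)) ({K - 1} : Finset ℕ) := by simp
  have hpair := hXind.indepFun_finset (Finset.range (K - 1)) {K - 1} hdisj hXm
  -- index of each time
  have hidx : ∀ i : I, ∃ j < K, τ j = i.1.1 := fun i => hsurj _ (by
    simp only [hJ, Finset.mem_insert, Finset.mem_image]
    right; right
    exact ⟨i.1, i.2, rfl⟩)
  choose idx hidxlt hidxeq using hidx
  have hidxle : ∀ i : I, idx i ≤ K - 1 := fun i => by have := hidxlt i; omega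
  set Φ : (Finset.range (K - 1) → ℕ) → (I → ℕ) :=
    fun x i => ∑ j : Finset.range (idx i), x ⟨j.1, by
      have h1 := Finset.mem_range.1 j.2
      exact Finset.mem_range.2 (h1.trans_le (hidxle i))⟩ with hΦ
  have hΦm : Measurable Φ := by
    refine measurable_pi_lambda _ fun i => ?_
    exact Finset.measurable_sum _ fun j _ => measurable_pi_apply _
  set Ψ : (({K - 1} : Finset ℕ) → ℕ) → ℕ := fun y => y ⟨K - 1, by simp⟩ with hΨ
  have hΨm : Measurable Ψ := measurable_pi_apply _
  have hcomp := hpair.comp hΦm hΨm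
  refine hcomp.congr ?_ ?_
  · filter_upwards [hN.zero, hN.monotone] with ω h0 hmono
    ext i
    simp only [Function.comp, hΦ]
    have htel : ∀ m, ∑ j ∈ Finset.range m, X j ω = N (τ m) ω - N (τ 0) ω := by
      intro m
      induction m with
      | zero => simp
      | succ m ih =>
        rw [Finset.sum_range_succ, ih]
        simp only [hX]
        have e1 : N (τ 0) ω ≤ N (τ m) ω := hmono (hτmono (Nat.zero_le m))
        have e2 : N (τ m) ω ≤ N (τ (m + 1)) ω := hmono (hτmono (Nat.le_succ m))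
        omega
    have h1 : ∑ j : Finset.range (idx i), X j.1 ω = ∑ j ∈ Finset.range (idx i), X j ω :=
      Finset.sum_coe_sort (Finset.range (idx i)) (fun j => X j ω)
    have h2 := htel (idx i)
    rw [hidxeq, hτ0, h0] at h2
    calc _ = ∑ j : Finset.range (idx i), X j.1 ω := rfl
      _ = _ := by rw [h1, h2]; simp
  · refine Filter.Eventually.of_forall fun ω => ?_
    simp only [Function.comp, hΨ, hX]
    have : K - 1 + 1 = K := by omega
    rw [this, hτK, hτlast]

end OneClock

end Pool.Agent.EdgeAveraging
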