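import Mathlib
import Pool.Agent.Helper94.EA.Clock

open MeasureTheory ProbabilityTheory Filter Topology Set
open scoped NNReal

set_option linter.unusedSectionVars false
set_option linter.unusedVariables false

namespace Pool.Agent.EdgeAveraging

variable {Ω : Type*} [mΩ : MeasurableSpace Ω] {P : Measure Ω} [IsProbabilityMeasure P]
  {d : ℕ} {f0 : Ω → Vertex d → ℝ} {N : Edge d → ℝ≥0 → Ω → ℕ}

/-- the driving data of the process -/
structure IsDriving (P : Measure Ω) (f0 : Ω → Vertex d → ℝ) (N : Edge d → ℝ≥0 → Ω → ℕ) :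
    Prop where
  measurable_init : Measurable f0
  clock : ∀ e, IsPoissonClock (N e) P
  indep_clocks : iIndepFun (fun e ω (t : ℝ≥0) => N e t ω) P
  indep_init : IndepFun f0 (fun ω (e : Edge d) (t : ℝ≥0) => N e t ω) P

/-- the sigma-algebra of the initial opinions and the clocks up to time `t` -/
@[reducible] def past (f0 : Ω → Vertex d → ℝ) (N : Edge d → ℝ≥0 → Ω → ℕ) (t : ℝ≥0) : MeasurableSpace Ω :=
  MeasurableSpace.comap f0 inferInstance ⊔
    ⨆ e : Edge d, MeasurableSpace.comap (fun ω (r : {r : ℝ≥0 // r ≤ t}) => N e r.1 ω) inferInstance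

theorem measurable_past_init (t : ℝ≥0) : Measurable[past f0 N t] f0 := by
  have h : MeasurableSpace.comap f0 inferInstance ≤ past f0 N t := le_sup_left
  exact (comap_measurable f0).mono h le_rfl

theorem measurable_past_clock {t r : ℝ≥0} (hr : r ≤ t) (e : Edge d) :
    Measurable[past f0 N t] (N e r) := by
  have h : MeasurableSpace.comap (fun ω (r : {r : ℝ≥0 // r ≤ t}) => N e r.1 ω) inferInstance
      ≤ past f0 N t := le_trans (le_iSup (fun e : Edge d => MeasurableSpace.comap
        (fun ω (r : {r : ℝ≥0 // r ≤ t}) => N e r.1 ω) inferInstance) e) le_sup_right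
  have h1 := (comap_measurable (fun ω (r : {r : ℝ≥0 // r ≤ t}) => N e r.1 ω)).mono h le_rfl
  exact (measurable_pi_apply (⟨r, hr⟩ : {r : ℝ≥0 // r ≤ t})).comp h1

theorem past_mono : Monotone (past f0 N) := by
  intro s t hst
  refine sup_le_sup le_rfl (iSup_mono fun e => ?_)
  have : (fun ω (r : {r : ℝ≥0 // r ≤ s}) => N e r.1 ω)
      = (fun (x : {r : ℝ≥0 // r ≤ t} → ℕ) (r : {r : ℝ≥0 // r ≤ s}) => x ⟨r.1, r.2.trans hst⟩)
        ∘ (fun ω (r : {r : ℝ≥0 // r ≤ t}) => N e r.1 ω) := rfl
  rw [this, ← MeasurableSpace.comap_comp]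
  refine MeasurableSpace.comap_mono ?_
  exact (measurable_pi_lambda _ fun r => measurable_pi_apply _).comap_le

/-- sigma-algebra of one clock -/
@[reducible] def pathSigma (N : Edge d → ℝ≥0 → Ω → ℕ) (e : Edge d) : MeasurableSpace Ω :=
  MeasurableSpace.comap (fun ω (t : ℝ≥0) => N e t ω) inferInstance

/-- sigma-algebra of the past of one clock -/
@[reducible] def pastSigma (N : Edge d → ℝ≥0 → Ω → ℕ) (s : ℝ≥0) (e : Edge d) : MeasurableSpace Ω :=
  MeasurableSpace.comap (fun ω (r : {r : ℝ≥0 // r ≤ s}) => N e r.1 ω) inferInstance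

/-- sigma-algebra of an increment -/
@[reducible] def incrSigma (N : Edge d → ℝ≥0 → Ω → ℕ) (s t : ℝ≥0) (e : Edge d) :
    MeasurableSpace Ω :=
  MeasurableSpace.comap (fun ω => N e t ω - N e s ω) inferInstance

/-- sigma-algebra of the other clocks -/
@[reducible] def othersSigma (N : Edge d → ℝ≥0 → Ω → ℕ) (e : Edge d) : MeasurableSpace Ω :=
  ⨆ e' ∈ ({e}ᶜ : Set (Edge d)), pathSigma N e'

/-- sigma-algebra of all clocks -/
@[reducible] def allSigma (N : Edge d → ℝ≥0 → Ω → ℕ) : MeasurableSpace Ω :=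
  MeasurableSpace.comap (fun ω (e : Edge d) (t : ℝ≥0) => N e t ω) inferInstance

/-- sigma-algebra of the initial profile -/
@[reducible] def initSigma (f0 : Ω → Vertex d → ℝ) : MeasurableSpace Ω :=
  MeasurableSpace.comap f0 inferInstance

theorem pastSigma_le (s : ℝ≥0) (e : Edge d) : pastSigma N s e ≤ pathSigma N e := by
  have : (fun ω (r : {r : ℝ≥0 // r ≤ s}) => N e r.1 ω)
    = (fun (x : ℝ≥0 → ℕ) (r : {r : ℝ≥0 // r ≤ s}) => x r.1)
      ∘ (fun ω (r : ℝ≥0) => N e r ω) := rfl
  rw [pastSigma, this, ← MeasurableSpace.comap_comp]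
  exact MeasurableSpace.comap_mono (measurable_pi_lambda _ fun r => measurable_pi_apply _).comap_le

theorem incrSigma_le (s t : ℝ≥0) (e : Edge d) : incrSigma N s t e ≤ pathSigma N e := by
  have : (fun ω => N e t ω - N e s ω)
    = (fun (x : ℝ≥0 → ℕ) => x t - x s) ∘ (fun ω (r : ℝ≥0) => N e r ω) := rfl
  rw [incrSigma, this, ← MeasurableSpace.comap_comp]
  refine MeasurableSpace.comap_mono (Measurable.comap_le ?_)
  exact (measurable_pi_apply t).fun_sub (measurable_pi_apply s)

theorem pathSigma_le (e' : Edge d) : pathSigma N e' ≤ allSigma N := by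
  have : (fun ω (t : ℝ≥0) => N e' t ω) = (fun (x : Edge d → ℝ≥0 → ℕ) => x e')
    ∘ (fun ω (e : Edge d) (t : ℝ≥0) => N e t ω) := rfl
  rw [pathSigma, this, ← MeasurableSpace.comap_comp]
  exact MeasurableSpace.comap_mono (measurable_pi_apply e').comap_le

namespace IsDriving

theorem measurable_path (h : IsDriving P f0 N) (e : Edge d) :
    Measurable (fun ω (t : ℝ≥0) => N e t ω) :=
  measurable_pi_lambda _ fun t => (h.clock e).measurable t

theorem past_le (h : IsDriving P f0 N) (t : ℝ≥0) : past f0 N t ≤ mΩ := by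
  refine sup_le h.measurable_init.comap_le (iSup_le fun e => ?_)
  exact (measurable_pi_lambda _ fun r => (h.clock e).measurable _).comap_le

/-- the increment of one clock after time `s` is independent of everything before `s`. -/
theorem indep_past (h : IsDriving P f0 N) {s t : ℝ≥0} (hst : s ≤ t) (e : Edge d) :
    Indep (past f0 N s) (incrSigma N s t e) P := by
  have hmN_le : ∀ e, pathSigma N e ≤ mΩ := fun e => (h.measurable_path e).comap_le
  have h2N : pastSigma N s e ≤ pathSigma N e := pastSigma_le s e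
  have h3N : incrSigma N s t e ≤ pathSigma N e := incrSigma_le s t e
  have h0 : initSigma f0 ≤ mΩ := h.measurable_init.comap_le
  have h1 : othersSigma N e ≤ mΩ := iSup₂_le fun e' _ => hmN_le e'
  have h2 : pastSigma N s e ≤ mΩ := h2N.trans (hmN_le e)
  have h3 : incrSigma N s t e ≤ mΩ := h3N.trans (hmN_le e)
  have i23 : Indep (pastSigma N s e) (incrSigma N s t e) P :=
    (IndepFun_iff_Indep _ _ _).1 ((h.clock e).indep_past hst)
  have iN : Indep (othersSigma N e) (pathSigma N e) P := by
    have := indep_iSup_of_disjoint (m := pathSigma N) hmN_le h.indep_clocks.iIndep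
      (disjoint_compl_left : Disjoint ({e}ᶜ : Set (Edge d)) {e})
    have h' : (⨆ i ∈ ({e} : Set (Edge d)), pathSigma N i) = pathSigma N e := iSup_singleton
    rwa [h'] at this
  have i1 : Indep (othersSigma N e) (pastSigma N s e ⊔ incrSigma N s t e) P :=
    indep_of_indep_of_le_right iN (sup_le h2N h3N)
  have i123 : Indep (othersSigma N e ⊔ pastSigma N s e) (incrSigma N s t e) P :=
    indep_sup_left h1 h2 h3 i1 i23
  have i0N : Indep (initSigma f0) (allSigma N) P :=
    (IndepFun_iff_Indep _ _ _).1 h.indep_init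
  have i0 : Indep (initSigma f0) ((othersSigma N e ⊔ pastSigma N s e) ⊔ incrSigma N s t e) P := by
    refine indep_of_indep_of_le_right i0N ?_
    refine sup_le (sup_le ?_ ?_) ?_
    · exact iSup₂_le fun e' _ => pathSigma_le e'
    · exact h2N.trans (pathSigma_le e)
    · exact h3N.trans (pathSigma_le e)
  have i0123 : Indep (initSigma f0 ⊔ (othersSigma N e ⊔ pastSigma N s e)) (incrSigma N s t e) P :=
    indep_sup_left h0 (sup_le h1 h2) h3 i0 i123
  refine indep_of_indep_of_le_left i0123 ?_
  refine sup_le le_sup_left (iSup_le fun e' => ?_)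
  by_cases he : e' = e
  · subst he
    exact le_sup_right.trans le_sup_right
  · have hle : pastSigma N s e' ≤ pathSigma N e' := pastSigma_le s e'
    have hle2 : pathSigma N e' ≤ othersSigma N e := le_iSup₂_of_le e' (by simpa using he) le_rfl
    exact (hle.trans hle2).trans (le_sup_left.trans le_sup_right)

/-- Grid independence. -/
theorem indep_grid (h : IsDriving P f0 N) {τ : ℕ → ℝ≥0} (hτ : Monotone τ) :
    iIndepFun (fun (p : Edge d × ℕ) ω => N p.1 (τ (p.2 + 1)) ω - N p.1 (τ p.2) ω) P := by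
  refine iIndepFun_uncurry' (X := fun e j ω => N e (τ (j + 1)) ω - N e (τ j) ω)
    (fun e j => (h.clock e).measurable_incr _ _) ?_ ?_
  · have := h.indep_clocks.comp (fun e (x : ℝ≥0 → ℕ) (j : ℕ) => x (τ (j + 1)) - x (τ j))
      (fun e => measurable_pi_lambda _ fun j =>
        (measurable_pi_apply _).sub (measurable_pi_apply _))
    exact this
  · intro e
    exact (h.clock e).indepIncrements.nat hτ

/-- rings of two different clocks -/
theorem two_rings (h : IsDriving P f0 N) {s t : ℝ≥0} (hst : s ≤ t) {e e' : Edge d}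
    (he : e ≠ e') :
    P.real {ω | 1 ≤ N e t ω - N e s ω ∧ 1 ≤ N e' t ω - N e' s ω} ≤ ((t : ℝ) - s) ^ 2 := by
  have hind : IndepFun (fun ω => N e t ω - N e s ω) (fun ω => N e' t ω - N e' s ω) P := by
    have hm : Measurable (fun x : ℝ≥0 → ℕ => x t - x s) :=
      (measurable_pi_apply t).fun_sub (measurable_pi_apply s)
    exact (h.indep_clocks.indepFun he).comp hm hm
  have h2 := hind.measure_inter_preimage_eq_mul {k | 1 ≤ k} {k | 1 ≤ k} MeasurableSet.of_discrete
    MeasurableSet.of_discrete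
  have h3 : {ω | 1 ≤ N e t ω - N e s ω ∧ 1 ≤ N e' t ω - N e' s ω}
      = (fun ω => N e t ω - N e s ω) ⁻¹' {k | 1 ≤ k} ∩ (fun ω => N e' t ω - N e' s ω) ⁻¹' {k | 1 ≤ k} :=
    rfl
  rw [h3, measureReal_def, h2, ENNReal.toReal_mul, pow_two]
  refine mul_le_mul ((h.clock e).ring_prob_le hst) ((h.clock e').ring_prob_le hst)
    ENNReal.toReal_nonneg (sub_nonneg.2 (by exact_mod_cast hst))

theorem measurableSet_ring (h : IsDriving P f0 N) (s t : ℝ≥0) (e : Edge d) :
    MeasurableSet {ω | 1 ≤ N e t ω - N e s ω} :=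
  ((h.clock e).measurable_incr s t) MeasurableSet.of_discrete

/-- a random variable of the past is uncorrelated with a ring event. -/
theorem setIntegral_ring (h : IsDriving P f0 N) {s t : ℝ≥0} (hst : s ≤ t) (e : Edge d)
    {W : Ω → ℝ} (hW : Measurable[past f0 N s] W) :
    ∫ ω in {ω | 1 ≤ N e t ω - N e s ω}, W ω ∂P
      = P.real {ω | 1 ≤ N e t ω - N e s ω} * ∫ ω, W ω ∂P := by
  have h1 := h.indep_past hst e
  have hWle : MeasurableSpace.comap W inferInstance ≤ past f0 N s := hW.comap_le
  have h2 : Indep (MeasurableSpace.comap (fun ω => N e t ω - N e s ω) inferInstance)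
      (MeasurableSpace.comap W inferInstance) P := (indep_of_indep_of_le_left h1 hWle).symm
  have hWm : Measurable W := hW.mono (h.past_le s) le_rfl
  refine h2.setIntegral_eq_mul ((h.clock e).measurable_incr s t).comap_le (f := fun x => x)
    hWm.aemeasurable ?_ measurable_id.aestronglyMeasurable
  exact ⟨{k | 1 ≤ k}, MeasurableSet.of_discrete, rfl⟩

/-- probability of the intersection of a past event and a ring -/
theorem measure_inter_ring (h : IsDriving P f0 N) {s t : ℝ≥0} (hst : s ≤ t) (e : Edge d)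
    {A : Set Ω} (hA : MeasurableSet[past f0 N s] A) :
    P.real (A ∩ {ω | 1 ≤ N e t ω - N e s ω})
      = P.real A * P.real {ω | 1 ≤ N e t ω - N e s ω} := by
  have h1 := h.indep_past hst e
  rw [Indep_iff] at h1
  have := h1 A {ω | 1 ≤ N e t ω - N e s ω} hA ⟨{k | 1 ≤ k}, MeasurableSet.of_discrete, rfl⟩
  rw [measureReal_def, this, ENNReal.toReal_mul]
  rfl

end IsDriving

end Pool.Agent.EdgeAveraging
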