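import Mathlib
import Pool.Agent.Helper94.EA.System

open MeasureTheory ProbabilityTheory Filter Topology Set
open scoped NNReal ENNReal

set_option linter.unusedSectionVars false
set_option linter.unusedVariables false

namespace Pool.Agent.EdgeAveraging

variable {Ω : Type*} [mΩ : MeasurableSpace Ω] {P : Measure Ω} [IsProbabilityMeasure P]
  {d : ℕ} {f0 : Ω → Vertex d → ℝ} {N : Edge d → ℝ≥0 → Ω → ℕ}

/-- clamp to `[-M, M]` -/
noncomputable def clamp (M x : ℝ) : ℝ := max (-M) (min M x)

theorem abs_clamp_le {M : ℝ} (hM : 0 ≤ M) (x : ℝ) : |clamp M x| ≤ M := by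
  rw [clamp, abs_le]
  exact ⟨le_max_left _ _, max_le (by linarith) (min_le_left _ _)⟩

theorem clamp_eq {M x : ℝ} (hx : |x| ≤ M) : clamp M x = x := by
  have h1 := abs_le.1 hx
  rw [clamp, min_eq_right h1.2, max_eq_right h1.1]

theorem measurable_clamp (M : ℝ) : Measurable (clamp M) :=
  measurable_const.max (measurable_const.min measurable_id)

/-- the finset of edges incident to `x` or to a neighbour of `x`. -/
def nearEdges (x : Vertex d) : Finset (Edge d) :=
  Finset.image (fun p : Dir d × Dir d => edgeAt (x + step p.1) p.2) Finset.univ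

theorem edgeAt_mem_near (x : Vertex d) (δ : Dir d) : edgeAt x δ ∈ nearEdges x := by
  rw [nearEdges, Finset.mem_image]
  exact ⟨(δ, opp δ), Finset.mem_univ _, edgeAt_opp x δ⟩

theorem edgeAt_step_mem_near (x : Vertex d) (δ δ' : Dir d) :
    edgeAt (x + step δ) δ' ∈ nearEdges x := by
  rw [nearEdges, Finset.mem_image]
  exact ⟨(δ, δ'), Finset.mem_univ _, rfl⟩

theorem card_near_le (x : Vertex d) :
    ((nearEdges x).card : ℝ) ≤ (Fintype.card (Dir d) : ℝ) ^ 2 := by
  have h : (nearEdges x).card ≤ Fintype.card (Dir d) ^ 2 := by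
    refine Finset.card_image_le.trans ?_
    rw [Finset.card_univ, Fintype.card_prod, pow_two]
  exact_mod_cast h

/-- union bound for at least two rings in a finite set of edges -/
theorem IsDriving.many_rings (h : IsDriving P f0 N) {s t : ℝ≥0} (hst : s ≤ t)
    (A : Finset (Edge d)) :
    P.real {ω | 2 ≤ ∑ e ∈ A, (N e t ω - N e s ω)} ≤ (A.card : ℝ) ^ 2 * ((t : ℝ) - s) ^ 2 := by
  classical
  have hsub : {ω | 2 ≤ ∑ e ∈ A, (N e t ω - N e s ω)}
      ⊆ ⋃ p ∈ A ×ˢ A, {ω | if p.1 = p.2 then 2 ≤ N p.1 t ω - N p.1 s ω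
        else (1 ≤ N p.1 t ω - N p.1 s ω ∧ 1 ≤ N p.2 t ω - N p.2 s ω)} := by
    intro ω hω
    simp only [mem_ofPred_eq] at hω
    by_contra hcon
    simp only [mem_iUnion, not_exists, mem_ofPred_eq, Finset.mem_product] at hcon
    have h1 : ∀ e ∈ A, N e t ω - N e s ω ≤ 1 := by
      intro e he
      have := hcon (e, e) ⟨he, he⟩
      simp only [if_true] at this
      omega
    have hex : ∃ e ∈ A, 1 ≤ N e t ω - N e s ω := by
      by_contra hno
      push Not at hno
      have : ∑ e ∈ A, (N e t ω - N e s ω) = 0 :=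
        Finset.sum_eq_zero fun e he => by have := hno e he; omega
      omega
    obtain ⟨e, he, he1⟩ := hex
    have h2 : ∀ e' ∈ A, e' ≠ e → N e' t ω - N e' s ω = 0 := by
      intro e' he' hne
      have := hcon (e', e) ⟨he', he⟩
      simp only [hne, if_false, not_and] at this
      by_contra hc
      exact this (by omega) he1
    rw [Finset.sum_eq_single_of_mem e he (fun e' he' hne => h2 e' he' hne)] at hω
    have := h1 e he
    omega
  have hfin : P.real (⋃ p ∈ A ×ˢ A, {ω | if p.1 = p.2 then 2 ≤ N p.1 t ω - N p.1 s ω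
        else (1 ≤ N p.1 t ω - N p.1 s ω ∧ 1 ≤ N p.2 t ω - N p.2 s ω)})
      ≤ ∑ p ∈ A ×ˢ A, P.real {ω | if p.1 = p.2 then 2 ≤ N p.1 t ω - N p.1 s ω
        else (1 ≤ N p.1 t ω - N p.1 s ω ∧ 1 ≤ N p.2 t ω - N p.2 s ω)} :=
    measureReal_biUnion_finset_le _ _
  refine (measureReal_mono hsub (measure_ne_top _ _)).trans (hfin.trans ?_)
  have hterm : ∀ p ∈ A ×ˢ A, P.real {ω | if p.1 = p.2 then 2 ≤ N p.1 t ω - N p.1 s ω
        else (1 ≤ N p.1 t ω - N p.1 s ω ∧ 1 ≤ N p.2 t ω - N p.2 s ω)} ≤ ((t : ℝ) - s) ^ 2 := by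
    rintro ⟨e, e'⟩ _
    by_cases he : e = e'
    · simp only [he, if_true]
      exact (h.clock e').double_prob hst
    · simp only [he, if_false]
      exact h.two_rings hst he
  refine (Finset.sum_le_sum hterm).trans (le_of_eq ?_)
  rw [Finset.sum_const, Finset.card_product, nsmul_eq_mul, pow_two (A.card : ℝ)]
  push_cast
  ring

section Discrete

variable (f0 N) (τ : ℕ → ℝ≥0) (M : ℝ)

/-- increments on the grid -/
def inc (N : Edge d → ℝ≥0 → Ω → ℕ) (τ : ℕ → ℝ≥0) (e : Edge d) (j : ℕ) (ω : Ω) : ℕ :=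
  N e (τ (j + 1)) ω - N e (τ j) ω

/-- the discretised process -/
noncomputable def disc : ℕ → Ω → Vertex d → ℝ
  | 0, ω, x => clamp M (f0 ω x)
  | j + 1, ω, x =>
    if ∑ δ : Dir d, inc N τ (edgeAt x δ) j ω = 1 then
      disc j ω x + ∑ δ : Dir d, (inc N τ (edgeAt x δ) j ω : ℝ) *
        ((disc j ω (x + step δ) - disc j ω x) / 2)
    else disc j ω x

theorem disc_succ (j : ℕ) (ω : Ω) (x : Vertex d) : disc f0 N τ M (j + 1) ω x =
    if ∑ δ : Dir d, inc N τ (edgeAt x δ) j ω = 1 then
      disc f0 N τ M j ω x + ∑ δ : Dir d, (inc N τ (edgeAt x δ) j ω : ℝ) *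
        ((disc f0 N τ M j ω (x + step δ) - disc f0 N τ M j ω x) / 2)
    else disc f0 N τ M j ω x := rfl

/-- if the total number of rings at `x` is one, there is a unique ringing direction -/
theorem exists_unique_dir {c : Dir d → ℕ} (hc : ∑ δ : Dir d, c δ = 1) :
    ∃ δ, c δ = 1 ∧ ∀ δ', δ' ≠ δ → c δ' = 0 := by
  have hex : ∃ δ, 1 ≤ c δ := by
    by_contra hno
    push Not at hno
    have : ∑ δ : Dir d, c δ = 0 := Finset.sum_eq_zero fun δ _ => by have := hno δ; omega
    omega
  obtain ⟨δ, hδ⟩ := hex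
  have h1 := Finset.add_sum_erase Finset.univ c (Finset.mem_univ δ)
  rw [hc] at h1
  refine ⟨δ, by omega, fun δ' hne => ?_⟩
  have h2 : ∑ x ∈ Finset.univ.erase δ, c x = 0 := by omega
  exact Finset.sum_eq_zero_iff.1 h2 δ' (Finset.mem_erase.2 ⟨hne, Finset.mem_univ _⟩)

theorem disc_bound (hM : 0 ≤ M) (j : ℕ) (ω : Ω) : ∀ x, |disc f0 N τ M j ω x| ≤ M := by
  induction j with
  | zero => intro x; exact abs_clamp_le hM _
  | succ j ih =>
    intro x
    rw [disc_succ]
    split_ifs with h
    · obtain ⟨δ, h1, h2⟩ := exists_unique_dir h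
      rw [Finset.sum_eq_single_of_mem δ (Finset.mem_univ _) (fun δ' _ hne => by
        rw [h2 δ' hne]; simp), h1]
      have e1 := abs_le.1 (ih x)
      have e2 := abs_le.1 (ih (x + step δ))
      rw [abs_le]
      push_cast
      constructor <;> linarith [e1.1, e1.2, e2.1, e2.2]
    · exact ih x

theorem measurable_disc (hτ : Monotone τ) (j : ℕ) :
    ∀ x, Measurable[past f0 N (τ j)] (fun ω => disc f0 N τ M j ω x) := by
  induction j with
  | zero =>
    intro x
    have h1 : Measurable[past f0 N (τ 0)] (fun ω => f0 ω x) :=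
      (measurable_pi_apply x).comp (measurable_past_init (τ 0))
    exact (measurable_clamp M).comp h1
  | succ j ih =>
    intro x
    have hle := past_mono (f0 := f0) (N := N) (hτ (Nat.le_succ j))
    have ih' : ∀ x, Measurable[past f0 N (τ (j + 1))] (fun ω => disc f0 N τ M j ω x) :=
      fun x => (ih x).mono hle le_rfl
    have hinc : ∀ e, Measurable[past f0 N (τ (j + 1))] (fun ω => inc N τ e j ω) := fun e =>
      Measurable.fun_sub (measurable_past_clock le_rfl e) (measurable_past_clock (hτ (Nat.le_succ j)) e)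
    have hsum : Measurable[past f0 N (τ (j + 1))]
        (fun ω => ∑ δ : Dir d, inc N τ (edgeAt x δ) j ω) :=
      Finset.measurable_fun_sum _ fun δ _ => hinc _
    simp_rw [disc_succ]
    refine Measurable.ite ?_ ?_ (ih' x)
    · exact hsum (MeasurableSet.of_discrete (s := {1}))
    · refine (ih' x).fun_add (Finset.measurable_fun_sum _ fun δ _ => ?_)
      refine Measurable.fun_mul ?_ (((ih' _).fun_sub (ih' x)).div_const 2)
      exact (Measurable.of_discrete (f := fun k : ℕ => (k : ℝ))).comp (hinc _)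

end Discrete

section Explore

variable (N) (τ : ℕ → ℝ≥0) (n : ℕ) (v : Vertex d)

/-- backward exploration of the vertices that can influence `(v, τ n)`. -/
def expl : ℕ → Ω → Set (Vertex d)
  | 0, ω => {v}
  | k + 1, ω => {x | x ∈ expl k ω ∨
      ∃ δ : Dir d, x + step δ ∈ expl k ω ∧ 1 ≤ inc N τ (edgeAt x δ) (n - 1 - k) ω}

theorem mem_expl_succ (k : ℕ) (ω : Ω) (x : Vertex d) :
    x ∈ expl N τ n v (k + 1) ω ↔ (x ∈ expl N τ n v k ω ∨
      ∃ δ : Dir d, x + step δ ∈ expl N τ n v k ω ∧ 1 ≤ inc N τ (edgeAt x δ) (n - 1 - k) ω) :=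
  Iff.rfl

/-- the good event on a step -/
def calm (x : Vertex d) (j : ℕ) (ω : Ω) : Prop :=
  ∑ e ∈ nearEdges x, inc N τ e j ω ≤ 1

/-- On calm steps the process is exactly given by the discretised one. -/
theorem disc_eq_path {f : ℝ≥0 → Ω → Vertex d → ℝ} {ω : Ω} {M : ℝ} (hτ : Monotone τ)
    (hτ0 : τ 0 = 0)
    (hpath : IsEdgeAveragingPath (fun e t => N e t ω) (fun t v => f t ω v))
    (hmono : ∀ e, Monotone (fun t => N e t ω))
    (hrc : ∀ e t, ContinuousWithinAt (fun s => N e s ω) (Ici t) t)
    (hinit : f 0 ω = f0 ω) (hb : ∀ v, |f0 ω v| ≤ M)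
    (hcalm : ∀ k < n, ∀ x ∈ expl N τ n v k ω, calm N τ x (n - 1 - k) ω) :
    f (τ n) ω v = disc f0 N τ M n ω v := by
  have key : ∀ j, j ≤ n → ∀ x ∈ expl N τ n v (n - j) ω, f (τ j) ω x = disc f0 N τ M j ω x := by
    intro j
    induction j with
    | zero =>
      intro _ x _
      rw [hτ0, hinit, disc, clamp_eq (hb x)]
    | succ j ih =>
      intro hj x hx
      have hjn : j < n := hj
      have hk : n - j = (n - (j + 1)) + 1 := by omega
      have hkk : n - 1 - (n - (j + 1)) = j := by omega
      have hcalmx := hcalm (n - (j + 1)) (by omega) x hx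
      rw [hkk] at hcalmx
      have hxj : x ∈ expl N τ n v (n - j) ω := by
        rw [hk, mem_expl_succ]; left; exact hx
      have hstepj : ∀ δ : Dir d, 1 ≤ inc N τ (edgeAt x δ) j ω →
          x + step δ ∈ expl N τ n v (n - j) ω := by
        intro δ hδ
        rw [hk, mem_expl_succ]
        right
        refine ⟨opp δ, ?_, ?_⟩
        · rw [step_opp, add_neg_cancel_right]; exact hx
        · rw [hkk, edgeAt_opp]; exact hδ
      have ihx := ih hjn.le x hxj
      have hle : τ j ≤ τ (j + 1) := hτ (Nat.le_succ j)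
      -- increments of near edges
      have hnear : ∀ e ∈ nearEdges x, ∀ e' ∈ nearEdges x, e ≠ e' → 1 ≤ inc N τ e j ω →
          inc N τ e' j ω = 0 := by
        intro e he e' he' hne h1
        have h2 : inc N τ e j ω + inc N τ e' j ω ≤ ∑ e ∈ nearEdges x, inc N τ e j ω := by
          have := Finset.sum_le_sum_of_subset_of_nonneg (f := fun e => inc N τ e j ω)
            (s := {e, e'}) (t := nearEdges x) (by
              intro z hz
              simp only [Finset.mem_insert, Finset.mem_singleton] at hz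
              rcases hz with rfl | rfl <;> assumption) (fun _ _ _ => Nat.zero_le _)
          rwa [Finset.sum_pair hne] at this
        have h3 : ∑ e ∈ nearEdges x, inc N τ e j ω ≤ 1 := hcalmx
        omega
      have hone : ∀ e ∈ nearEdges x, inc N τ e j ω ≤ 1 := by
        intro e he
        have h2 : inc N τ e j ω ≤ ∑ e ∈ nearEdges x, inc N τ e j ω :=
          Finset.single_le_sum (f := fun e => inc N τ e j ω) (fun _ _ => Nat.zero_le _) he
        exact h2.trans hcalmx
      have hincN : ∀ e, N e (τ j) ω ≤ N e (τ (j + 1)) ω := fun e => hmono e hle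
      rw [disc_succ]
      by_cases hex : ∃ δ : Dir d, 1 ≤ inc N τ (edgeAt x δ) j ω
      · obtain ⟨δ, hδ⟩ := hex
        have hδ1 : inc N τ (edgeAt x δ) j ω = 1 :=
          le_antisymm (hone _ (edgeAt_mem_near x δ)) hδ
        have hother : ∀ δ', δ' ≠ δ → inc N τ (edgeAt x δ') j ω = 0 := by
          intro δ' hne
          refine hnear (edgeAt x δ) (edgeAt_mem_near x δ) _ (edgeAt_mem_near x δ') ?_ hδ
          intro h; exact hne (edgeAt_injective x h).symm
        have hsum : ∑ δ : Dir d, inc N τ (edgeAt x δ) j ω = 1 := by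
          rw [Finset.sum_eq_single_of_mem δ (Finset.mem_univ _) (fun δ' _ hne => hother δ' hne), hδ1]
        rw [if_pos hsum, Finset.sum_eq_single_of_mem δ (Finset.mem_univ _) (fun δ' _ hne => by
          rw [hother δ' hne]; simp), hδ1]
        have hstep := hpath.eq_of_one_ring hmono hrc hle (x := x) (δ := δ)
          (by
            have h1 := hincN (edgeAt x δ)
            simp only [inc] at hδ1
            omega)
          (by
            intro δ' hne
            have h1 := hincN (edgeAt x δ')
            have h2 := hother δ' hne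
            simp only [inc] at h2
            omega)
          (by
            intro δ' hne
            have h1 := hincN (edgeAt (x + step δ) δ')
            have h2 : inc N τ (edgeAt (x + step δ) δ') j ω = 0 := by
              refine hnear (edgeAt x δ) (edgeAt_mem_near x δ) _ (edgeAt_step_mem_near x δ δ') ?_ hδ
              intro h
              rw [← edgeAt_opp x δ] at h
              exact hne (edgeAt_injective _ h).symm
            simp only [inc] at h2
            omega)
        rw [hstep, ihx, ih hjn.le _ (hstepj δ hδ)]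
        push_cast
        ring
      · push Not at hex
        have hzero : ∀ δ : Dir d, inc N τ (edgeAt x δ) j ω = 0 := fun δ => by
          have := hex δ; omega
        have hsum : ∑ δ : Dir d, inc N τ (edgeAt x δ) j ω ≠ 1 := by
          rw [Finset.sum_eq_zero fun δ _ => hzero δ]; omega
        rw [if_neg hsum, ← ihx]
        refine hpath.eq_of_no_ring hmono hle (fun δ => ?_)
        have h1 := hincN (edgeAt x δ)
        have h2 := hzero δ
        simp only [inc] at h2
        omega
  refine key n le_rfl v ?_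
  rw [Nat.sub_self]
  exact Set.mem_singleton v

end Explore

end Pool.Agent.EdgeAveraging
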