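import Mathlib
import Pool.Agent.Helper94.EA.Grid

open MeasureTheory ProbabilityTheory Filter Topology Set
open scoped NNReal ENNReal

set_option linter.unusedSectionVars false
set_option linter.unusedVariables false

namespace Pool.Agent.EdgeAveraging

variable {Ω : Type*} [mΩ : MeasurableSpace Ω] {P : Measure Ω} [IsProbabilityMeasure P]
  {d : ℕ} {f0 : Ω → Vertex d → ℝ} {N : Edge d → ℝ≥0 → Ω → ℕ}

/-- sigma-algebra generated by a grid increment -/
@[reducible] def gridSigma (N : Edge d → ℝ≥0 → Ω → ℕ) (τ : ℕ → ℝ≥0) (p : Edge d × ℕ) :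
    MeasurableSpace Ω :=
  MeasurableSpace.comap (fun ω => inc N τ p.1 p.2 ω) inferInstance

/-- sigma-algebra of the last `k` steps out of `n`. -/
@[reducible] def lastSigma (N : Edge d → ℝ≥0 → Ω → ℕ) (τ : ℕ → ℝ≥0) (n k : ℕ) :
    MeasurableSpace Ω :=
  ⨆ p ∈ {p : Edge d × ℕ | n ≤ p.2 + k}, gridSigma N τ p

/-- sigma-algebra of one step. -/
@[reducible] def stepSigma (N : Edge d → ℝ≥0 → Ω → ℕ) (τ : ℕ → ℝ≥0) (j : ℕ) :
    MeasurableSpace Ω :=
  ⨆ p ∈ {p : Edge d × ℕ | p.2 = j}, gridSigma N τ p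

theorem measurable_inc_of_le {N : Edge d → ℝ≥0 → Ω → ℕ} {τ : ℕ → ℝ≥0} {m : MeasurableSpace Ω}
    {e : Edge d} {j : ℕ} (h : gridSigma N τ (e, j) ≤ m) : Measurable[m] (inc N τ e j) :=
  (comap_measurable (fun ω => inc N τ e j ω)).mono h le_rfl

theorem gridSigma_le_last {τ : ℕ → ℝ≥0} {n k : ℕ} {e : Edge d} {j : ℕ} (h : n ≤ j + k) :
    gridSigma N τ (e, j) ≤ lastSigma N τ n k :=
  le_iSup₂_of_le (e, j) h le_rfl

theorem lastSigma_mono {τ : ℕ → ℝ≥0} {n k k' : ℕ} (h : k ≤ k') :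
    lastSigma N τ n k ≤ lastSigma N τ n k' :=
  iSup₂_le fun p hp => le_iSup₂_of_le p (by
    have : n ≤ p.2 + k := hp
    show n ≤ p.2 + k'
    omega) le_rfl

theorem measurableSet_expl (τ : ℕ → ℝ≥0) (n : ℕ) (v : Vertex d) (k : ℕ) (hk : k ≤ n) :
    ∀ x, MeasurableSet[lastSigma N τ n k] {ω | x ∈ expl N τ n v k ω} := by
  induction k with
  | zero =>
    intro x
    by_cases h : x = v
    · have : {ω : Ω | x ∈ expl N τ n v 0 ω} = univ := by
        ext ω; simp [expl, h]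
      rw [this]
      exact @MeasurableSet.univ _ (lastSigma N τ n 0)
    · have : {ω : Ω | x ∈ expl N τ n v 0 ω} = ∅ := by
        ext ω; simp [expl, h]
      rw [this]
      exact @MeasurableSet.empty _ (lastSigma N τ n 0)
  | succ k ih =>
    intro x
    have ih' : ∀ x, MeasurableSet[lastSigma N τ n (k + 1)] {ω | x ∈ expl N τ n v k ω} :=
      fun x => lastSigma_mono (Nat.le_succ k) _ (ih (by omega) x)
    have : {ω : Ω | x ∈ expl N τ n v (k + 1) ω} = {ω | x ∈ expl N τ n v k ω} ∪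
        ⋃ δ : Dir d, ({ω | x + step δ ∈ expl N τ n v k ω} ∩
          {ω | 1 ≤ inc N τ (edgeAt x δ) (n - 1 - k) ω}) := by
      ext ω
      simp only [mem_ofPred_eq, mem_expl_succ, mem_union, mem_iUnion, mem_inter_iff]
    rw [this]
    refine @MeasurableSet.union _ (lastSigma N τ n (k + 1)) _ _ (ih' x) ?_
    refine @MeasurableSet.iUnion _ _ (lastSigma N τ n (k + 1)) _ _ fun δ => ?_
    refine @MeasurableSet.inter _ (lastSigma N τ n (k + 1)) _ _ (ih' _) ?_
    have hm : Measurable[lastSigma N τ n (k + 1)] (inc N τ (edgeAt x δ) (n - 1 - k)) :=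
      measurable_inc_of_le (gridSigma_le_last (by omega))
    exact hm (MeasurableSet.of_discrete (s := {j | 1 ≤ j}))

namespace IsDriving

variable {τ : ℕ → ℝ≥0}

theorem gridSigma_le (h : IsDriving P f0 N) (p : Edge d × ℕ) : gridSigma N τ p ≤ mΩ :=
  ((h.clock p.1).measurable_incr _ _).comap_le

theorem lastSigma_le (h : IsDriving P f0 N) (n k : ℕ) : lastSigma N τ n k ≤ mΩ :=
  iSup₂_le fun p _ => h.gridSigma_le p

theorem indep_last_step (h : IsDriving P f0 N) (hτ : Monotone τ) {n k : ℕ} (hk : k < n) :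
    Indep (lastSigma N τ n k) (stepSigma N τ (n - 1 - k)) P := by
  refine indep_iSup_of_disjoint (m := gridSigma N τ) (fun p => h.gridSigma_le p)
    (h.indep_grid hτ).iIndep ?_
  rw [Set.disjoint_left]
  rintro p hp hp'
  have h1 : n ≤ p.2 + k := hp
  have h2 : p.2 = n - 1 - k := hp'
  omega

theorem measure_inter (h : IsDriving P f0 N) (hτ : Monotone τ) {n k : ℕ} (hk : k < n)
    {A B : Set Ω} (hA : MeasurableSet[lastSigma N τ n k] A)
    (hB : MeasurableSet[stepSigma N τ (n - 1 - k)] B) : P (A ∩ B) = P A * P B := by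
  have := h.indep_last_step hτ hk
  rw [Indep_iff] at this
  exact this A B hA hB

theorem tsum_expl_succ (h : IsDriving P f0 N) (hτ : Monotone τ) {η : ℝ} (hη : 0 ≤ η)
    (hstep : ∀ j, (τ (j + 1) : ℝ) - τ j ≤ η) (n : ℕ) (v : Vertex d) {k : ℕ} (hk : k < n) :
    ∑' x, P {ω | x ∈ expl N τ n v (k + 1) ω}
      ≤ ENNReal.ofReal (1 + Fintype.card (Dir d) * η) * ∑' x, P {ω | x ∈ expl N τ n v k ω} := by
  set a : Vertex d → ℝ≥0∞ := fun x => P {ω | x ∈ expl N τ n v k ω} with ha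
  have hx : ∀ x, P {ω | x ∈ expl N τ n v (k + 1) ω}
      ≤ a x + ∑ δ : Dir d, a (x + step δ) * ENNReal.ofReal η := by
    intro x
    have hset : {ω : Ω | x ∈ expl N τ n v (k + 1) ω} = {ω | x ∈ expl N τ n v k ω} ∪
        ⋃ δ : Dir d, ({ω | x + step δ ∈ expl N τ n v k ω} ∩
          {ω | 1 ≤ inc N τ (edgeAt x δ) (n - 1 - k) ω}) := by
      ext ω
      simp only [mem_ofPred_eq, mem_expl_succ, mem_union, mem_iUnion, mem_inter_iff]
    rw [hset]
    refine (measure_union_le _ _).trans (add_le_add le_rfl ?_)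
    refine (measure_iUnion_fintype_le _ _).trans (Finset.sum_le_sum fun δ _ => ?_)
    have hm : Measurable[stepSigma N τ (n - 1 - k)] (inc N τ (edgeAt x δ) (n - 1 - k)) :=
      measurable_inc_of_le (le_iSup₂_of_le (edgeAt x δ, n - 1 - k) rfl le_rfl)
    have hB : MeasurableSet[stepSigma N τ (n - 1 - k)]
        {ω | 1 ≤ inc N τ (edgeAt x δ) (n - 1 - k) ω} :=
      hm (MeasurableSet.of_discrete (s := {j | 1 ≤ j}))
    rw [h.measure_inter hτ hk (measurableSet_expl τ n v k hk.le _) hB]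
    refine mul_le_mul_right ?_ _
    have h1 := (h.clock (edgeAt x δ)).ring_prob_le (hτ (Nat.le_succ (n - 1 - k)))
    have h2 : P {ω | 1 ≤ inc N τ (edgeAt x δ) (n - 1 - k) ω}
        = ENNReal.ofReal (P.real {ω | 1 ≤ inc N τ (edgeAt x δ) (n - 1 - k) ω}) :=
      (ENNReal.ofReal_toReal (measure_ne_top P _)).symm
    rw [h2]
    exact ENNReal.ofReal_le_ofReal (h1.trans (hstep _))
  refine (ENNReal.tsum_le_tsum hx).trans (le_of_eq ?_)
  have h3 : ∀ δ : Dir d, ∑' x, a (x + step δ) * ENNReal.ofReal η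
      = (∑' x, a x) * ENNReal.ofReal η := by
    intro δ
    rw [ENNReal.tsum_mul_right]
    congr 1
    exact (Equiv.addRight (step δ)).tsum_eq a
  rw [ENNReal.tsum_add, Summable.tsum_finsetSum (fun _ _ => ENNReal.summable)]
  simp_rw [h3]
  rw [Finset.sum_const, Finset.card_univ, ENNReal.ofReal_add zero_le_one (by positivity),
    ENNReal.ofReal_mul (by positivity), ENNReal.ofReal_one, nsmul_eq_mul, add_mul, one_mul,
    ENNReal.ofReal_natCast]
  ring

end IsDriving

end Pool.Agent.EdgeAveraging
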