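import Mathlib
import Pool.Agent.Helper94.EA.Explore

open MeasureTheory ProbabilityTheory Filter Topology Set
open scoped NNReal ENNReal

set_option linter.unusedSectionVars false
set_option linter.unusedVariables false

namespace Pool.Agent.EdgeAveraging

variable {Ω : Type*} [mΩ : MeasurableSpace Ω] {P : Measure Ω} [IsProbabilityMeasure P]
  {d : ℕ} {f0 : Ω → Vertex d → ℝ} {N : Edge d → ℝ≥0 → Ω → ℕ}

namespace IsDriving

variable {τ : ℕ → ℝ≥0}

theorem tsum_expl_le (h : IsDriving P f0 N) (hτ : Monotone τ) {η : ℝ} (hη : 0 ≤ η)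
    (hstep : ∀ j, (τ (j + 1) : ℝ) - τ j ≤ η) (n : ℕ) (v : Vertex d) (k : ℕ) (hk : k ≤ n) :
    ∑' x, P {ω | x ∈ expl N τ n v k ω}
      ≤ ENNReal.ofReal (1 + Fintype.card (Dir d) * η) ^ k := by
  induction k with
  | zero =>
    rw [pow_zero, tsum_eq_single v]
    · exact prob_le_one
    · intro x hx
      have : {ω : Ω | x ∈ expl N τ n v 0 ω} = ∅ := by
        ext ω; simp [expl, hx]
      rw [this, measure_empty]
  | succ k ih =>
    refine (h.tsum_expl_succ hτ hη hstep n v (k := k) (by omega)).trans ?_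
    rw [pow_succ']
    exact mul_le_mul_right (ih (by omega)) _

theorem prob_not_calm (h : IsDriving P f0 N) (hτ : Monotone τ) {η : ℝ} (hη : 0 ≤ η)
    (hstep : ∀ j, (τ (j + 1) : ℝ) - τ j ≤ η) (x : Vertex d) (j : ℕ) :
    P {ω | ¬ calm N τ x j ω} ≤ ENNReal.ofReal ((Fintype.card (Dir d) : ℝ) ^ 4 * η ^ 2) := by
  have h1 := h.many_rings (hτ (Nat.le_succ j)) (nearEdges x)
  have h2 : {ω | ¬ calm N τ x j ω}
      = {ω | 2 ≤ ∑ e ∈ nearEdges x, (N e (τ (j + 1)) ω - N e (τ j) ω)} := by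
    ext ω
    simp only [mem_ofPred_eq, calm, inc, not_le]
    exact Iff.rfl
  rw [h2, ← ENNReal.ofReal_toReal (measure_ne_top P _)]
  refine ENNReal.ofReal_le_ofReal (h1.trans ?_)
  have h3 := card_near_le x
  have h4 : (0 : ℝ) ≤ (nearEdges x).card := Nat.cast_nonneg _
  have h5 : (0 : ℝ) ≤ (τ (j + 1) : ℝ) - τ j := sub_nonneg.2 (by exact_mod_cast hτ (Nat.le_succ j))
  calc ((nearEdges x).card : ℝ) ^ 2 * ((τ (j + 1) : ℝ) - τ j) ^ 2
      ≤ ((Fintype.card (Dir d) : ℝ) ^ 2) ^ 2 * η ^ 2 := by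
        gcongr
        exact hstep j
    _ = _ := by ring

theorem measurableSet_not_calm (x : Vertex d) (j : ℕ) :
    MeasurableSet[stepSigma N τ j] {ω | ¬ calm N τ x j ω} := by
  have hm : Measurable[stepSigma N τ j] (fun ω => ∑ e ∈ nearEdges x, inc N τ e j ω) :=
    Finset.measurable_fun_sum _ fun e _ =>
      measurable_inc_of_le (le_iSup₂_of_le (e, j) rfl le_rfl)
  exact hm (MeasurableSet.of_discrete (s := {k | ¬ k ≤ 1}))

theorem fail_le (h : IsDriving P f0 N) (hτ : Monotone τ) {η : ℝ} (hη : 0 ≤ η)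
    (hstep : ∀ j, (τ (j + 1) : ℝ) - τ j ≤ η) (n : ℕ) (v : Vertex d) :
    P {ω | ∃ k < n, ∃ x ∈ expl N τ n v k ω, ¬ calm N τ x (n - 1 - k) ω}
      ≤ ENNReal.ofReal (n * ((1 + Fintype.card (Dir d) * η) ^ n
        * ((Fintype.card (Dir d) : ℝ) ^ 4 * η ^ 2))) := by
  have hsub : {ω | ∃ k < n, ∃ x ∈ expl N τ n v k ω, ¬ calm N τ x (n - 1 - k) ω}
      ⊆ ⋃ k ∈ Finset.range n, ⋃ x, ({ω | x ∈ expl N τ n v k ω} ∩
        {ω | ¬ calm N τ x (n - 1 - k) ω}) := by
    rintro ω ⟨k, hk, x, hx, hc⟩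
    simp only [mem_iUnion]
    exact ⟨k, Finset.mem_range.2 hk, x, hx, hc⟩
  have hD : (0 : ℝ) ≤ Fintype.card (Dir d) := Nat.cast_nonneg _
  refine (measure_mono hsub).trans ((measure_biUnion_finset_le _ _).trans ?_)
  have hterm : ∀ k ∈ Finset.range n, P (⋃ x, ({ω | x ∈ expl N τ n v k ω} ∩
        {ω | ¬ calm N τ x (n - 1 - k) ω}))
      ≤ ENNReal.ofReal ((1 + Fintype.card (Dir d) * η) ^ n
        * ((Fintype.card (Dir d) : ℝ) ^ 4 * η ^ 2)) := by
    intro k hk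
    have hkn : k < n := Finset.mem_range.1 hk
    refine (measure_iUnion_le _).trans ?_
    have h1 : ∀ x, P ({ω | x ∈ expl N τ n v k ω} ∩ {ω | ¬ calm N τ x (n - 1 - k) ω})
        ≤ P {ω | x ∈ expl N τ n v k ω}
          * ENNReal.ofReal ((Fintype.card (Dir d) : ℝ) ^ 4 * η ^ 2) := by
      intro x
      rw [h.measure_inter hτ hkn (measurableSet_expl τ n v k hkn.le x)
        (measurableSet_not_calm x _)]
      exact mul_le_mul_right (h.prob_not_calm hτ hη hstep x _) _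
    refine (ENNReal.tsum_le_tsum h1).trans ?_
    have h2 : ∑' x, P {ω | x ∈ expl N τ n v k ω}
        ≤ ENNReal.ofReal ((1 + Fintype.card (Dir d) * η) ^ n) := by
      refine (h.tsum_expl_le hτ hη hstep n v k hkn.le).trans ?_
      rw [← ENNReal.ofReal_pow (by positivity)]
      refine ENNReal.ofReal_le_ofReal (pow_le_pow_right₀ ?_ hkn.le)
      have : 0 ≤ (Fintype.card (Dir d) : ℝ) * η := by positivity
      linarith
    rw [ENNReal.tsum_mul_right, ENNReal.ofReal_mul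
      (p := (1 + (Fintype.card (Dir d) : ℝ) * η) ^ n) (by positivity)]
    exact mul_le_mul_left h2 _
  refine (Finset.sum_le_sum hterm).trans (le_of_eq ?_)
  rw [Finset.sum_const, Finset.card_range, nsmul_eq_mul, ENNReal.ofReal_mul (Nat.cast_nonneg _),
    ENNReal.ofReal_natCast]

end IsDriving

/-- uniform grid -/
noncomputable def ugrid (t : ℝ≥0) (n : ℕ) (j : ℕ) : ℝ≥0 := j * (t / n)

theorem ugrid_zero (t : ℝ≥0) (n : ℕ) : ugrid t n 0 = 0 := by simp [ugrid]

theorem ugrid_last (t : ℝ≥0) {n : ℕ} (hn : n ≠ 0) : ugrid t n n = t := by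
  rw [ugrid, mul_div_cancel₀]
  exact_mod_cast hn

theorem ugrid_mono (t : ℝ≥0) (n : ℕ) : Monotone (ugrid t n) := by
  intro i j hij
  exact mul_le_mul_left (by exact_mod_cast hij) _

theorem ugrid_step (t : ℝ≥0) (n j : ℕ) : (ugrid t n (j + 1) : ℝ) - ugrid t n j = t / n := by
  simp only [ugrid]
  push_cast
  ring

/-- the bad event for the uniform grid -/
def failSet (N : Edge d → ℝ≥0 → Ω → ℕ) (t : ℝ≥0) (v : Vertex d) (n : ℕ) : Set Ω :=
  {ω | ∃ k < n, ∃ x ∈ expl N (ugrid t n) n v k ω, ¬ calm N (ugrid t n) x (n - 1 - k) ω}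

theorem IsDriving.failSet_le (h : IsDriving P f0 N) (t : ℝ≥0) (v : Vertex d) {n : ℕ}
    (hn : n ≠ 0) :
    P (failSet N t v n) ≤ ENNReal.ofReal (Real.exp (Fintype.card (Dir d) * t)
      * (Fintype.card (Dir d) : ℝ) ^ 4 * t ^ 2 / n) := by
  have h1 := h.fail_le (ugrid_mono t n) (η := t / n) (by positivity)
    (fun j => (ugrid_step t n j).le) n v
  refine h1.trans (ENNReal.ofReal_le_ofReal ?_)
  have hn' : (0 : ℝ) < n := by positivity
  have h2 : (1 + (Fintype.card (Dir d) : ℝ) * (t / n)) ^ n ≤ Real.exp (Fintype.card (Dir d) * t) := by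
    have h3 : 1 + (Fintype.card (Dir d) : ℝ) * (t / n)
        ≤ Real.exp ((Fintype.card (Dir d) : ℝ) * (t / n)) := by
      rw [add_comm]; exact Real.add_one_le_exp _
    refine (pow_le_pow_left₀ (by positivity) h3 n).trans (le_of_eq ?_)
    rw [← Real.exp_nat_mul]
    congr 1
    field_simp
  calc (n : ℝ) * ((1 + (Fintype.card (Dir d) : ℝ) * (t / n)) ^ n
        * ((Fintype.card (Dir d) : ℝ) ^ 4 * ((t : ℝ) / n) ^ 2))
      ≤ (n : ℝ) * (Real.exp (Fintype.card (Dir d) * t)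
        * ((Fintype.card (Dir d) : ℝ) ^ 4 * ((t : ℝ) / n) ^ 2)) := by gcongr
    _ = _ := by field_simp

theorem IsDriving.ae_eventually_not_fail (h : IsDriving P f0 N) (t : ℝ≥0) (v : Vertex d) :
    ∀ᵐ ω ∂P, ∀ᶠ m : ℕ in atTop, ω ∉ failSet N t v (2 ^ m) := by
  refine ae_eventually_notMem (ne_of_lt ?_)
  have hs : Summable fun m : ℕ => Real.exp (Fintype.card (Dir d) * t)
      * (Fintype.card (Dir d) : ℝ) ^ 4 * (t : ℝ) ^ 2 / ((2 ^ m : ℕ) : ℝ) := by
    have := (summable_geometric_two).mul_left (Real.exp (Fintype.card (Dir d) * t)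
      * (Fintype.card (Dir d) : ℝ) ^ 4 * (t : ℝ) ^ 2)
    refine this.congr fun m => ?_
    push_cast
    rw [one_div, inv_pow]
    ring
  refine (ENNReal.tsum_le_tsum fun m => h.failSet_le t v (n := 2 ^ m) (by positivity)).trans_lt ?_
  rw [← ENNReal.ofReal_tsum_of_nonneg (fun m => by positivity) hs]
  exact ENNReal.ofReal_lt_top

/-- the canonical version of the process -/
noncomputable def canon (f0 : Ω → Vertex d → ℝ) (N : Edge d → ℝ≥0 → Ω → ℕ) (M : ℝ) (t : ℝ≥0)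
    (v : Vertex d) (ω : Ω) : ℝ :=
  clamp M (limsup (fun m : ℕ => disc f0 N (ugrid t (2 ^ m)) M (2 ^ m) ω v) atTop)

theorem abs_canon_le {M : ℝ} (hM : 0 ≤ M) (t : ℝ≥0) (v : Vertex d) (ω : Ω) :
    |canon f0 N M t v ω| ≤ M := abs_clamp_le hM _

theorem measurable_canon (M : ℝ) (t : ℝ≥0) (v : Vertex d) :
    Measurable[past f0 N t] (canon f0 N M t v) := by
  refine (measurable_clamp M).comp ?_
  have h1 : ∀ m : ℕ, Measurable[past f0 N t]
      (fun ω => disc f0 N (ugrid t (2 ^ m)) M (2 ^ m) ω v) := by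
    intro m
    have := measurable_disc f0 N (ugrid t (2 ^ m)) M (ugrid_mono t _) (2 ^ m) v
    rwa [ugrid_last t (by positivity)] at this
  exact Measurable.limsup h1

theorem IsEdgeAveragingProcess.driving {f : ℝ≥0 → Ω → Vertex d → ℝ}
    (h : IsEdgeAveragingProcess P f0 N f) : IsDriving P f0 N :=
  ⟨h.measurable_init, h.clock, h.indep_clocks, h.indep_init⟩

theorem IsEdgeAveragingProcess.ae_eq_canon {f : ℝ≥0 → Ω → Vertex d → ℝ}
    (h : IsEdgeAveragingProcess P f0 N f) {M : ℝ} (hM : 0 ≤ M)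
    (hb : ∀ᵐ ω ∂P, ∀ v, |f0 ω v| ≤ M) (t : ℝ≥0) (v : Vertex d) :
    ∀ᵐ ω ∂P, f t ω v = canon f0 N M t v ω := by
  have hmono : ∀ᵐ ω ∂P, ∀ e, Monotone (fun t => N e t ω) :=
    ae_all_iff.2 fun e => (h.clock e).monotone
  have hrc : ∀ᵐ ω ∂P, ∀ e t, ContinuousWithinAt (fun s => N e s ω) (Ici t) t :=
    ae_all_iff.2 fun e => (h.clock e).rightCont
  filter_upwards [h.path, h.init, hb, hmono, hrc, h.driving.ae_eventually_not_fail t v]
    with ω hpath hinit hbω hmω hrω hfail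
  have hev : ∀ᶠ m : ℕ in atTop,
      disc f0 N (ugrid t (2 ^ m)) M (2 ^ m) ω v = f t ω v := by
    filter_upwards [hfail] with m hm
    have hm' : ∀ k < 2 ^ m, ∀ x ∈ expl N (ugrid t (2 ^ m)) (2 ^ m) v k ω,
        calm N (ugrid t (2 ^ m)) x (2 ^ m - 1 - k) ω := by
      intro k hk x hx
      by_contra hc
      exact hm ⟨k, hk, x, hx, hc⟩
    have := disc_eq_path N (ugrid t (2 ^ m)) (2 ^ m) v (M := M) (ugrid_mono t _) (ugrid_zero t _)
      hpath hmω hrω hinit hbω hm'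
    rw [ugrid_last t (by positivity)] at this
    exact this.symm
  have hlim : limsup (fun m : ℕ => disc f0 N (ugrid t (2 ^ m)) M (2 ^ m) ω v) atTop = f t ω v := by
    rw [limsup_congr hev, limsup_const]
  have hbd : |f t ω v| ≤ M := by
    obtain ⟨m, hm⟩ := hev.exists
    rw [← hm]
    exact disc_bound f0 N (ugrid t (2 ^ m)) M hM _ ω v
  rw [canon, hlim, clamp_eq hbd]

end Pool.Agent.EdgeAveraging
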