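import Mathlib
import Pool.Agent.Helper94.EA.Approx

open MeasureTheory ProbabilityTheory Filter Topology Set
open scoped NNReal ENNReal

set_option linter.unusedSectionVars false
set_option linter.unusedVariables false

namespace Pool.Agent.EdgeAveraging

variable {Ω : Type*} [mΩ : MeasurableSpace Ω] {P : Measure Ω} [IsProbabilityMeasure P]
  {d : ℕ} {f0 : Ω → Vertex d → ℝ} {N : Edge d → ℝ≥0 → Ω → ℕ}

/-- indicator of a ring in `(s, t]` -/
noncomputable def ringInd (N : Edge d → ℝ≥0 → Ω → ℕ) (s t : ℝ≥0) (e : Edge d) (ω : Ω) : ℝ :=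
  if 1 ≤ N e t ω - N e s ω then 1 else 0

theorem ringInd_nonneg (s t : ℝ≥0) (e : Edge d) (ω : Ω) : 0 ≤ ringInd N s t e ω := by
  rw [ringInd]; split_ifs <;> norm_num

theorem ringInd_le_one (s t : ℝ≥0) (e : Edge d) (ω : Ω) : ringInd N s t e ω ≤ 1 := by
  rw [ringInd]; split_ifs <;> norm_num

theorem le_one_of_mem {c : Edge d → ℕ} {A : Finset (Edge d)} (hA : ∑ e ∈ A, c e ≤ 1)
    {e : Edge d} (he : e ∈ A) : c e ≤ 1 :=
  (Finset.single_le_sum (f := c) (fun _ _ => Nat.zero_le _) he).trans hA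

theorem eq_zero_of_ne {c : Edge d → ℕ} {A : Finset (Edge d)} (hA : ∑ e ∈ A, c e ≤ 1)
    {e e' : Edge d} (he : e ∈ A) (he' : e' ∈ A) (hne : e ≠ e') (h1 : 1 ≤ c e) : c e' = 0 := by
  have h2 : c e + c e' ≤ ∑ e ∈ A, c e := by
    have := Finset.sum_le_sum_of_subset_of_nonneg (f := c)
      (s := {e, e'}) (t := A) (by
        intro z hz
        simp only [Finset.mem_insert, Finset.mem_singleton] at hz
        rcases hz with rfl | rfl <;> assumption) (fun _ _ _ => Nat.zero_le _)
    rwa [Finset.sum_pair hne] at this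
  omega

theorem ringInd_mul {s t : ℝ≥0} {ω : Ω} {A : Finset (Edge d)}
    (hA : ∑ e ∈ A, (N e t ω - N e s ω) ≤ 1) {e e' : Edge d} (he : e ∈ A) (he' : e' ∈ A) :
    ringInd N s t e ω * ringInd N s t e' ω = if e = e' then ringInd N s t e ω else 0 := by
  by_cases hne : e = e'
  · subst hne
    rw [if_pos rfl, ringInd]
    split_ifs <;> norm_num
  · rw [if_neg hne]
    by_cases h1 : 1 ≤ N e t ω - N e s ω
    · have h2 := eq_zero_of_ne hA he he' hne h1
      rw [ringInd, ringInd, h2]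
      norm_num
    · rw [ringInd, if_neg h1, zero_mul]

theorem IsEdgeAveragingPath.one_step {n : Edge d → ℝ≥0 → ℕ} {g : ℝ≥0 → Vertex d → ℝ}
    (h : IsEdgeAveragingPath n g) (hn : ∀ e, Monotone (n e))
    (hc : ∀ e t, ContinuousWithinAt (n e) (Ici t) t) {s t : ℝ≥0}
    (hst : s ≤ t) (x : Vertex d) (hA : ∑ e ∈ nearEdges x, (n e t - n e s) ≤ 1) :
    g t x = g s x + ∑ δ : Dir d, (if 1 ≤ n (edgeAt x δ) t - n (edgeAt x δ) s then (1 : ℝ) else 0)
      * ((g s (x + step δ) - g s x) / 2) := by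
  by_cases hex : ∃ δ : Dir d, 1 ≤ n (edgeAt x δ) t - n (edgeAt x δ) s
  · obtain ⟨δ, hδ⟩ := hex
    have hδ1 : n (edgeAt x δ) t - n (edgeAt x δ) s = 1 :=
      le_antisymm (le_one_of_mem hA (edgeAt_mem_near x δ)) hδ
    have hother : ∀ δ', δ' ≠ δ → n (edgeAt x δ') t - n (edgeAt x δ') s = 0 := by
      intro δ' hne
      refine eq_zero_of_ne hA (edgeAt_mem_near x δ) (edgeAt_mem_near x δ') ?_ hδ
      intro h; exact hne (edgeAt_injective x h).symm
    rw [Finset.sum_eq_single_of_mem δ (Finset.mem_univ _) (fun δ' _ hne => by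
      rw [hother δ' hne]; simp), hδ1]
    have hstep := h.eq_of_one_ring hn hc hst (x := x) (δ := δ)
      (by
        have h1 := hn (edgeAt x δ) hst
        omega)
      (by
        intro δ' hne
        have h1 := hn (edgeAt x δ') hst
        have h2 := hother δ' hne
        omega)
      (by
        intro δ' hne
        have h1 := hn (edgeAt (x + step δ) δ') hst
        have h2 : n (edgeAt (x + step δ) δ') t - n (edgeAt (x + step δ) δ') s = 0 := by
          refine eq_zero_of_ne hA (edgeAt_mem_near x δ) (edgeAt_step_mem_near x δ δ') ?_ hδ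
          intro h
          rw [← edgeAt_opp x δ] at h
          exact hne (edgeAt_injective _ h).symm
        omega)
    rw [hstep, if_pos le_rfl]
    ring
  · push Not at hex
    have hzero : ∀ δ : Dir d, n (edgeAt x δ) t - n (edgeAt x δ) s = 0 := fun δ => by
      have := hex δ; omega
    have h0 : ∑ δ : Dir d, (if 1 ≤ n (edgeAt x δ) t - n (edgeAt x δ) s then (1 : ℝ) else 0)
        * ((g s (x + step δ) - g s x) / 2) = 0 := by
      refine Finset.sum_eq_zero fun δ _ => ?_
      rw [hzero δ]; simp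
    rw [h0, add_zero]
    refine h.eq_of_no_ring hn hst (fun δ => ?_)
    have h1 := hn (edgeAt x δ) hst
    have h2 := hzero δ
    omega

/-- Abstract properties of the process used in the second moment analysis. -/
structure IsModel (P : Measure Ω) (f0 : Ω → Vertex d → ℝ) (N : Edge d → ℝ≥0 → Ω → ℕ)
    (F : ℝ≥0 → Vertex d → Ω → ℝ) (M : ℝ) : Prop where
  driving : IsDriving P f0 N
  nonneg : 0 ≤ M
  meas : ∀ t v, Measurable[past f0 N t] (F t v)
  bound : ∀ t v ω, |F t v ω| ≤ M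
  init : ∀ v, ∀ᵐ ω ∂P, F 0 v ω = f0 ω v
  oneStep : ∀ s t, s ≤ t → ∀ x, ∀ᵐ ω ∂P, ∑ e ∈ nearEdges x, (N e t ω - N e s ω) ≤ 1 →
    F t x ω = F s x ω + ∑ δ : Dir d, ringInd N s t (edgeAt x δ) ω *
      ((F s (x + step δ) ω - F s x ω) / 2)

theorem IsEdgeAveragingProcess.model {f : ℝ≥0 → Ω → Vertex d → ℝ}
    (h : IsEdgeAveragingProcess P f0 N f) {M : ℝ} (hM : 0 ≤ M)
    (hb : ∀ᵐ ω ∂P, ∀ v, |f0 ω v| ≤ M) : IsModel P f0 N (canon f0 N M) M := by
  have hmono : ∀ᵐ ω ∂P, ∀ e, Monotone (fun t => N e t ω) :=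
    ae_all_iff.2 fun e => (h.clock e).monotone
  have hrc : ∀ᵐ ω ∂P, ∀ e t, ContinuousWithinAt (fun s => N e s ω) (Ici t) t :=
    ae_all_iff.2 fun e => (h.clock e).rightCont
  refine ⟨h.driving, hM, measurable_canon M, abs_canon_le hM, ?_, ?_⟩
  · intro v
    filter_upwards [h.ae_eq_canon hM hb 0 v, h.init] with ω h1 h2
    rw [← h1, h2]
  · intro s t hst x
    have h3 : ∀ᵐ ω ∂P, ∀ δ : Dir d, f s ω (x + EdgeAveraging.step δ)
        = canon f0 N M s (x + EdgeAveraging.step δ) ω :=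
      ae_all_iff.2 fun δ => h.ae_eq_canon hM hb s _
    filter_upwards [h.path, hmono, hrc, h.ae_eq_canon hM hb s x, h.ae_eq_canon hM hb t x, h3]
      with ω hp h1 h2 h4 h5 h3 hA
    have := hp.one_step h1 h2 hst x hA
    rw [← h4, ← h5, this]
    congr 1
    refine Finset.sum_congr rfl fun δ _ => ?_
    rw [h3 δ]
    rfl

theorem abs_integral_sub_le {X Y : Ω → ℝ} {K : ℝ} (hX : Measurable X) (hY : Measurable Y)
    (hXK : ∀ ω, |X ω| ≤ K) (hYK : ∀ ω, |Y ω| ≤ K) {B : Set Ω} (hB : MeasurableSet B)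
    (hXY : ∀ᵐ ω ∂P, ω ∉ B → X ω = Y ω) :
    |∫ ω, X ω ∂P - ∫ ω, Y ω ∂P| ≤ 2 * K * P.real B := by
  have iX : Integrable X P := Integrable.of_bound hX.aestronglyMeasurable K
    (Eventually.of_forall hXK)
  have iY : Integrable Y P := Integrable.of_bound hY.aestronglyMeasurable K
    (Eventually.of_forall hYK)
  rw [← integral_sub iX iY]
  have h1 : |∫ ω, (X ω - Y ω) ∂P| ≤ ∫ ω, |X ω - Y ω| ∂P := abs_integral_le_integral_abs
  refine h1.trans ?_
  have h2 : ∫ ω, |X ω - Y ω| ∂P ≤ ∫ ω, B.indicator (fun _ => 2 * K) ω ∂P := by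
    refine integral_mono_ae (iX.sub iY).abs ((integrable_const _).indicator hB) ?_
    filter_upwards [hXY] with ω hω
    by_cases hωB : ω ∈ B
    · rw [indicator_of_mem hωB]
      have := abs_sub (X ω) (Y ω)
      have := hXK ω
      have := hYK ω
      linarith
    · rw [indicator_of_notMem hωB, hω hωB, sub_self, abs_zero]
  refine h2.trans (le_of_eq ?_)
  rw [integral_indicator hB, setIntegral_const, smul_eq_mul, mul_comm]

theorem measurable_ringInd (h : IsDriving P f0 N) (s t : ℝ≥0) (e : Edge d) :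
    Measurable (ringInd N s t e) :=
  Measurable.ite (h.measurableSet_ring s t e) measurable_const measurable_const

theorem integral_ringInd_mul (h : IsDriving P f0 N) {s t : ℝ≥0} (hst : s ≤ t) (e : Edge d)
    {W : Ω → ℝ} (hW : Measurable[past f0 N s] W) :
    ∫ ω, ringInd N s t e ω * W ω ∂P = (1 - Real.exp (-((t : ℝ) - s))) * ∫ ω, W ω ∂P := by
  have h1 : (fun ω => ringInd N s t e ω * W ω)
      = {ω | 1 ≤ N e t ω - N e s ω}.indicator W := by
    ext ω
    by_cases hω : 1 ≤ N e t ω - N e s ω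
    · rw [ringInd, if_pos hω, one_mul, indicator_of_mem (by exact hω)]
    · rw [ringInd, if_neg hω, zero_mul, indicator_of_notMem (by exact hω)]
  rw [h1, integral_indicator (h.measurableSet_ring s t e), h.setIntegral_ring hst e hW,
    (h.clock e).ring_prob hst]

end Pool.Agent.EdgeAveraging
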