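import Mathlib
import Pool.Agent.Helper94.EA.OneStep

open MeasureTheory ProbabilityTheory Filter Topology Set
open scoped NNReal ENNReal

set_option linter.unusedSectionVars false
set_option linter.unusedVariables false

namespace Pool.Agent.EdgeAveraging

variable {Ω : Type*} [mΩ : MeasurableSpace Ω] {P : Measure Ω} [IsProbabilityMeasure P]
  {d : ℕ} {f0 : Ω → Vertex d → ℝ} {N : Edge d → ℝ≥0 → Ω → ℕ}
  {F : ℝ≥0 → Vertex d → Ω → ℝ} {M : ℝ}

/-- second moments -/
noncomputable def mom (P : Measure Ω) (F : ℝ≥0 → Vertex d → Ω → ℝ) (t : ℝ≥0) (x y : Vertex d) :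
    ℝ := ∫ ω, F t x ω * F t y ω ∂P

/-- generator of the second moments -/
noncomputable def gen (m : Vertex d → Vertex d → ℝ) (x y : Vertex d) : ℝ :=
  (∑ δ : Dir d, (m (x + step δ) y - m x y) / 2)
    + (∑ δ : Dir d, (m x (y + step δ) - m x y) / 2)
    + ∑ δ : Dir d, ∑ δ' : Dir d, if edgeAt x δ = edgeAt y δ' then
        (m (x + step δ) (y + step δ') - m (x + step δ) y - m x (y + step δ') + m x y) / 4 else 0

theorem one_sub_exp_bound {h : ℝ} (hh : 0 ≤ h) : |(1 - Real.exp (-h)) - h| ≤ h ^ 2 := by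
  have h1 := Real.add_one_le_exp (-h)
  have h2 := exp_bound hh
  have h3 : Real.exp (-h) ≤ 1 := Real.exp_le_one_iff.2 (by linarith)
  have h4 := Real.exp_pos (-h)
  rw [abs_le]
  constructor
  · rcases le_total h 1 with h5 | h5
    · have h7 : Real.exp (-h) ≤ 1 - h + h ^ 2 := by
        rw [Real.exp_neg]
        have h8 : 1 + h ≤ Real.exp h := by linarith [Real.add_one_le_exp h]
        have h9 : (Real.exp h)⁻¹ ≤ (1 + h)⁻¹ := inv_anti₀ (by linarith) h8
        refine h9.trans ?_
        rw [inv_le_iff_one_le_mul₀ (by linarith)]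
        nlinarith [pow_nonneg hh 3]
      linarith
    · nlinarith
  · linarith [sq_nonneg h]

namespace IsModel

theorem meas' (h : IsModel P f0 N F M) (t : ℝ≥0) (v : Vertex d) : Measurable (F t v) :=
  (h.meas t v).mono (h.driving.past_le t) le_rfl

theorem integrable_of_bound' {W : Ω → ℝ} {K : ℝ} (hW : Measurable W) (hb : ∀ ω, |W ω| ≤ K) :
    Integrable W P :=
  Integrable.of_bound hW.aestronglyMeasurable K (Eventually.of_forall hb)

/-- general one step expectation -/
theorem integral_step (h : IsDriving P f0 N) {s t : ℝ≥0} (hst : s ≤ t) {ι : Type*} (I : Finset ι)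
    (e : ι → Edge d) (W : ι → Ω → ℝ) (hW : ∀ i, Measurable[past f0 N s] (W i)) {K : ℝ}
    (hb : ∀ i ω, |W i ω| ≤ K) :
    ∫ ω, ∑ i ∈ I, ringInd N s t (e i) ω * W i ω ∂P
      = (1 - Real.exp (-((t : ℝ) - s))) * ∑ i ∈ I, ∫ ω, W i ω ∂P := by
  have hWm : ∀ i, Measurable (W i) := fun i => (hW i).mono (h.past_le s) le_rfl
  rw [integral_finsetSum I fun i _ => ?_, Finset.mul_sum]
  · exact Finset.sum_congr rfl fun i _ => integral_ringInd_mul h hst (e i) (hW i)
  · refine integrable_of_bound' (K := K) ((measurable_ringInd h s t (e i)).mul (hWm i)) fun ω => ?_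
    rw [abs_mul, abs_of_nonneg (ringInd_nonneg _ _ _ _)]
    calc ringInd N s t (e i) ω * |W i ω| ≤ 1 * |W i ω| :=
          mul_le_mul_of_nonneg_right (ringInd_le_one _ _ _ _) (abs_nonneg _)
      _ = |W i ω| := one_mul _
      _ ≤ K := hb i ω

theorem sum_ring_abs_le {s t : ℝ≥0} {ι : Type*} (I : Finset ι) (e : ι → Edge d) (W : ι → Ω → ℝ)
    {K : ℝ} (hb : ∀ i ω, |W i ω| ≤ K) (ω : Ω) :
    |∑ i ∈ I, ringInd N s t (e i) ω * W i ω| ≤ I.card * K := by
  refine (Finset.abs_sum_le_sum_abs _ _).trans ?_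
  rw [← nsmul_eq_mul, ← Finset.sum_const]
  refine Finset.sum_le_sum fun i _ => ?_
  rw [abs_mul, abs_of_nonneg (ringInd_nonneg _ _ _ _)]
  calc ringInd N s t (e i) ω * |W i ω| ≤ 1 * |W i ω| :=
        mul_le_mul_of_nonneg_right (ringInd_le_one _ _ _ _) (abs_nonneg _)
    _ = |W i ω| := one_mul _
    _ ≤ K := hb i ω

theorem integral_mul_diff (h : IsModel P f0 N F M) (s : ℝ≥0) (x x' y : Vertex d) :
    ∫ ω, (F s x' ω - F s x ω) / 2 * F s y ω ∂P = (mom P F s x' y - mom P F s x y) / 2 := by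
  have hi : ∀ x y, Integrable (fun ω => F s x ω * F s y ω) P := by
    intro x y
    refine integrable_of_bound' (K := M * M) ((h.meas' s x).mul (h.meas' s y)) fun ω => ?_
    rw [abs_mul]
    exact mul_le_mul (h.bound _ _ _) (h.bound _ _ _) (abs_nonneg _) h.nonneg
  rw [mom, mom, ← integral_sub (hi _ _) (hi _ _), ← integral_div]
  refine integral_congr_ae (Eventually.of_forall fun ω => ?_)
  simp only
  ring

theorem mom_symm (s : ℝ≥0) (x y : Vertex d) : mom P F s x y = mom P F s y x := by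
  simp only [mom, mul_comm]

theorem mom_abs_le (h : IsModel P f0 N F M) (s : ℝ≥0) (x y : Vertex d) :
    |mom P F s x y| ≤ M * M := by
  have h1 : |∫ ω, F s x ω * F s y ω ∂P| ≤ ∫ ω, |F s x ω * F s y ω| ∂P :=
    abs_integral_le_integral_abs
  refine h1.trans ?_
  have h2 : ∫ ω, |F s x ω * F s y ω| ∂P ≤ ∫ _, M * M ∂P := by
    refine integral_mono_of_nonneg (Eventually.of_forall fun ω => abs_nonneg _)
      (integrable_const _) (Eventually.of_forall fun ω => ?_)
    show |F s x ω * F s y ω| ≤ M * M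
    rw [abs_mul]
    exact mul_le_mul (h.bound _ _ _) (h.bound _ _ _) (abs_nonneg _) h.nonneg
  refine h2.trans (le_of_eq ?_)
  simp

theorem integral_mul_diff2 (h : IsModel P f0 N F M) (s : ℝ≥0) (x x' y y' : Vertex d) :
    ∫ ω, (F s x' ω - F s x ω) / 2 * ((F s y' ω - F s y ω) / 2) ∂P
      = (mom P F s x' y' - mom P F s x' y - mom P F s x y' + mom P F s x y) / 4 := by
  have hi : ∀ y, Integrable (fun ω => (F s x' ω - F s x ω) / 2 * F s y ω) P := by
    intro y
    refine integrable_of_bound' (K := M * M)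
      ((((h.meas' s x').sub (h.meas' s x)).div_const 2).mul (h.meas' s y)) fun ω => ?_
    rw [abs_mul, abs_div, abs_two]
    have := abs_sub (F s x' ω) (F s x ω)
    have := h.bound s x' ω
    have := h.bound s x ω
    exact mul_le_mul (by linarith) (h.bound _ _ _) (abs_nonneg _) h.nonneg
  have h1 := h.integral_mul_diff s x x' y
  have h2 := h.integral_mul_diff s x x' y'
  have h3 : ∫ ω, (F s x' ω - F s x ω) / 2 * ((F s y' ω - F s y ω) / 2) ∂P
      = ((∫ ω, (F s x' ω - F s x ω) / 2 * F s y' ω ∂P)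
        - ∫ ω, (F s x' ω - F s x ω) / 2 * F s y ω ∂P) / 2 := by
    rw [← integral_sub (hi _) (hi _), ← integral_div]
    refine integral_congr_ae (Eventually.of_forall fun ω => ?_)
    simp only
    ring
  rw [h3, h1, h2]
  ring

/-- one step estimate for the second moments -/
theorem euler_pair (h : IsModel P f0 N F M) {s t : ℝ≥0} (hst : s ≤ t) (x y : Vertex d) :
    |mom P F t x y - mom P F s x y - ((t : ℝ) - s) * gen (mom P F s) x y|
      ≤ (M ^ 2 * (1 + Fintype.card (Dir d)) ^ 2 * (8 * (Fintype.card (Dir d) : ℝ) ^ 4 + 1))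
        * ((t : ℝ) - s) ^ 2 := by
  set D : ℝ := (Fintype.card (Dir d) : ℝ) with hD
  have hD0 : 0 ≤ D := Nat.cast_nonneg _
  have hM := h.nonneg
  have hh : (0 : ℝ) ≤ (t : ℝ) - s := sub_nonneg.2 (by exact_mod_cast hst)
  set A : Finset (Edge d) := nearEdges x ∪ nearEdges y with hA
  set B : Set Ω := {ω | 2 ≤ ∑ e ∈ A, (N e t ω - N e s ω)} with hB
  have hBm : MeasurableSet B := by
    have : Measurable fun ω => ∑ e ∈ A, (N e t ω - N e s ω) :=
      Finset.measurable_fun_sum _ fun e _ => (h.driving.clock e).measurable_incr s t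
    exact this (MeasurableSet.of_discrete (s := {k | 2 ≤ k}))
  have hAcard : (A.card : ℝ) ≤ 2 * D ^ 2 := by
    have h1 : (A.card : ℝ) ≤ (nearEdges x).card + (nearEdges y).card := by
      exact_mod_cast Finset.card_union_le _ _
    have := card_near_le x
    have := card_near_le y
    linarith
  have hPB : P.real B ≤ 4 * D ^ 4 * ((t : ℝ) - s) ^ 2 := by
    refine (h.driving.many_rings hst A).trans ?_
    have : (A.card : ℝ) ^ 2 ≤ (2 * D ^ 2) ^ 2 := pow_le_pow_left₀ (Nat.cast_nonneg _) hAcard 2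
    calc (A.card : ℝ) ^ 2 * ((t : ℝ) - s) ^ 2 ≤ (2 * D ^ 2) ^ 2 * ((t : ℝ) - s) ^ 2 :=
          mul_le_mul_of_nonneg_right this (sq_nonneg _)
      _ = _ := by ring
  -- increments
  set a : Vertex d → Dir d → Ω → ℝ := fun z δ ω => (F s (z + step δ) ω - F s z ω) / 2 with ha
  have ham : ∀ z δ, Measurable[past f0 N s] (a z δ) := fun z δ =>
    ((h.meas s _).fun_sub (h.meas s _)).div_const 2
  have hab : ∀ z δ ω, |a z δ ω| ≤ M := by
    intro z δ ω
    simp only [ha]
    rw [abs_div, abs_two]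
    have := abs_sub (F s (z + step δ) ω) (F s z ω)
    have := h.bound s (z + step δ) ω
    have := h.bound s z ω
    linarith
  set W1 : Dir d → Ω → ℝ := fun δ ω => a x δ ω * F s y ω with hW1
  set W2 : Dir d → Ω → ℝ := fun δ ω => a y δ ω * F s x ω with hW2
  set W3 : Dir d × Dir d → Ω → ℝ := fun p ω => if edgeAt x p.1 = edgeAt y p.2 then
    a x p.1 ω * a y p.2 ω else 0 with hW3
  have hmulb : ∀ u v : ℝ, |u| ≤ M → |v| ≤ M → |u * v| ≤ M ^ 2 := by
    intro u v hu hv
    rw [abs_mul, pow_two]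
    exact mul_le_mul hu hv (abs_nonneg _) hM
  have hW1m : ∀ δ, Measurable[past f0 N s] (W1 δ) := fun δ => (ham x δ).fun_mul (h.meas s y)
  have hW2m : ∀ δ, Measurable[past f0 N s] (W2 δ) := fun δ => (ham y δ).fun_mul (h.meas s x)
  have hW3m : ∀ p, Measurable[past f0 N s] (W3 p) := by
    intro p
    by_cases hp : edgeAt x p.1 = edgeAt y p.2
    · simp only [hW3, hp, if_true]
      exact (ham x _).fun_mul (ham y _)
    · simp only [hW3, hp, if_false]
      exact @measurable_const _ _ _ (past f0 N s) _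
  have hW1b : ∀ δ ω, |W1 δ ω| ≤ M ^ 2 := fun δ ω => hmulb _ _ (hab _ _ _) (h.bound _ _ _)
  have hW2b : ∀ δ ω, |W2 δ ω| ≤ M ^ 2 := fun δ ω => hmulb _ _ (hab _ _ _) (h.bound _ _ _)
  have hW3b : ∀ p ω, |W3 p ω| ≤ M ^ 2 := by
    intro p ω
    by_cases hp : edgeAt x p.1 = edgeAt y p.2
    · simp only [hW3, hp, if_true]
      exact hmulb _ _ (hab _ _ _) (hab _ _ _)
    · simp only [hW3, hp, if_false, abs_zero]
      positivity
  set R : Ω → ℝ := fun ω => F s x ω * F s y ω
    + ∑ δ : Dir d, ringInd N s t (edgeAt x δ) ω * W1 δ ω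
    + ∑ δ : Dir d, ringInd N s t (edgeAt y δ) ω * W2 δ ω
    + ∑ p : Dir d × Dir d, ringInd N s t (edgeAt x p.1) ω * W3 p ω with hR
  have hWm' : ∀ {W : Ω → ℝ}, Measurable[past f0 N s] W → Measurable W :=
    fun hW => hW.mono (h.driving.past_le s) le_rfl
  have hrm := measurable_ringInd h.driving s t
  have m0 : Measurable fun ω => F s x ω * F s y ω := (h.meas' s x).mul (h.meas' s y)
  have m1 : Measurable fun ω => ∑ δ : Dir d, ringInd N s t (edgeAt x δ) ω * W1 δ ω :=
    Finset.measurable_fun_sum _ fun δ _ => (hrm _).mul (hWm' (hW1m δ))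
  have m2 : Measurable fun ω => ∑ δ : Dir d, ringInd N s t (edgeAt y δ) ω * W2 δ ω :=
    Finset.measurable_fun_sum _ fun δ _ => (hrm _).mul (hWm' (hW2m δ))
  have m3 : Measurable fun ω => ∑ p : Dir d × Dir d, ringInd N s t (edgeAt x p.1) ω * W3 p ω :=
    Finset.measurable_fun_sum _ fun p _ => (hrm _).mul (hWm' (hW3m p))
  have b0 : ∀ ω, |F s x ω * F s y ω| ≤ M ^ 2 := fun ω => hmulb _ _ (h.bound _ _ _) (h.bound _ _ _)
  have b1 := sum_ring_abs_le (N := N) (s := s) (t := t) Finset.univ (fun δ => edgeAt x δ) W1 hW1b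
  have b2 := sum_ring_abs_le (N := N) (s := s) (t := t) Finset.univ (fun δ => edgeAt y δ) W2 hW2b
  have b3 := sum_ring_abs_le (N := N) (s := s) (t := t) Finset.univ
    (fun p : Dir d × Dir d => edgeAt x p.1) W3 hW3b
  have hcard1 : ((Finset.univ : Finset (Dir d)).card : ℝ) = D := by
    rw [Finset.card_univ]
  have hcard2 : ((Finset.univ : Finset (Dir d × Dir d)).card : ℝ) = D * D := by
    have : (Finset.univ : Finset (Dir d × Dir d)).card
        = Fintype.card (Dir d) * Fintype.card (Dir d) := by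
      rw [Finset.card_univ, Fintype.card_prod (Dir d) (Dir d)]
    rw [this, Nat.cast_mul]
  rw [hcard1] at b1 b2
  rw [hcard2] at b3
  have i0 : Integrable (fun ω => F s x ω * F s y ω) P := integrable_of_bound' m0 b0
  have i1 := integrable_of_bound' (P := P) m1 b1
  have i2 := integrable_of_bound' (P := P) m2 b2
  have i3 := integrable_of_bound' (P := P) m3 b3
  have hRm : Measurable R := ((m0.add m1).add m2).add m3
  have hRb : ∀ ω, |R ω| ≤ M ^ 2 * (1 + D) ^ 2 := by
    intro ω
    have e0 := b0 ω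
    have e1 := b1 ω
    have e2 := b2 ω
    have e3 := b3 ω
    have t1 := abs_add_le (F s x ω * F s y ω
      + ∑ δ : Dir d, ringInd N s t (edgeAt x δ) ω * W1 δ ω
      + ∑ δ : Dir d, ringInd N s t (edgeAt y δ) ω * W2 δ ω)
      (∑ p : Dir d × Dir d, ringInd N s t (edgeAt x p.1) ω * W3 p ω)
    have t2 := abs_add_le (F s x ω * F s y ω
      + ∑ δ : Dir d, ringInd N s t (edgeAt x δ) ω * W1 δ ω)
      (∑ δ : Dir d, ringInd N s t (edgeAt y δ) ω * W2 δ ω)
    have t3 := abs_add_le (F s x ω * F s y ω)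
      (∑ δ : Dir d, ringInd N s t (edgeAt x δ) ω * W1 δ ω)
    simp only [hR]
    have : M ^ 2 * (1 + D) ^ 2 = M ^ 2 + D * M ^ 2 + D * M ^ 2 + D * D * M ^ 2 := by ring
    rw [this]
    linarith
  have hXb : ∀ ω, |F t x ω * F t y ω| ≤ M ^ 2 * (1 + D) ^ 2 := by
    intro ω
    refine (hmulb _ _ (h.bound _ _ _) (h.bound _ _ _)).trans ?_
    have : 1 ≤ (1 + D) ^ 2 := by nlinarith
    nlinarith [sq_nonneg M]
  have hXR : ∀ᵐ ω ∂P, ω ∉ B → F t x ω * F t y ω = R ω := by
    filter_upwards [h.oneStep s t hst x, h.oneStep s t hst y] with ω hx hy hω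
    have hAle : ∑ e ∈ A, (N e t ω - N e s ω) ≤ 1 := by
      simp only [hB, mem_ofPred_eq, not_le] at hω
      omega
    have hAx : ∑ e ∈ nearEdges x, (N e t ω - N e s ω) ≤ 1 :=
      (Finset.sum_le_sum_of_subset (f := fun e => N e t ω - N e s ω)
        Finset.subset_union_left).trans hAle
    have hAy : ∑ e ∈ nearEdges y, (N e t ω - N e s ω) ≤ 1 :=
      (Finset.sum_le_sum_of_subset (f := fun e => N e t ω - N e s ω)
        Finset.subset_union_right).trans hAle
    rw [hx hAx, hy hAy]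
    simp only [hR, hW1, hW2]
    have e3 : ∑ p : Dir d × Dir d, ringInd N s t (edgeAt x p.1) ω * W3 p ω
        = (∑ δ : Dir d, ringInd N s t (edgeAt x δ) ω * a x δ ω)
          * (∑ δ : Dir d, ringInd N s t (edgeAt y δ) ω * a y δ ω) := by
      rw [Finset.sum_mul_sum, ← Finset.univ_product_univ (α := Dir d) (β := Dir d),
        Finset.sum_product]
      refine Finset.sum_congr rfl fun δ _ => Finset.sum_congr rfl fun δ' _ => ?_
      have h5 := ringInd_mul hAle (e := edgeAt x δ) (e' := edgeAt y δ')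
        (Finset.mem_union_left _ (edgeAt_mem_near x δ))
        (Finset.mem_union_right _ (edgeAt_mem_near y δ'))
      have h6 : ringInd N s t (edgeAt x δ) ω * a x δ ω * (ringInd N s t (edgeAt y δ') ω * a y δ' ω)
          = (ringInd N s t (edgeAt x δ) ω * ringInd N s t (edgeAt y δ') ω)
            * (a x δ ω * a y δ' ω) := by ring
      rw [h6, h5]
      simp only [hW3]
      split_ifs with hc
      · ring
      · simp
    rw [e3]
    have e1 : ∑ δ : Dir d, ringInd N s t (edgeAt x δ) ω * (a x δ ω * F s y ω)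
        = (∑ δ : Dir d, ringInd N s t (edgeAt x δ) ω * a x δ ω) * F s y ω := by
      rw [Finset.sum_mul]
      exact Finset.sum_congr rfl fun δ _ => by ring
    have e2 : ∑ δ : Dir d, ringInd N s t (edgeAt y δ) ω * (a y δ ω * F s x ω)
        = (∑ δ : Dir d, ringInd N s t (edgeAt y δ) ω * a y δ ω) * F s x ω := by
      rw [Finset.sum_mul]
      exact Finset.sum_congr rfl fun δ _ => by ring
    rw [e1, e2]
    ring
  have h1 := abs_integral_sub_le (P := P) ((h.meas' t x).mul (h.meas' t y)) hRm hXb hRb hBm hXR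
  set p : ℝ := 1 - Real.exp (-((t : ℝ) - s)) with hp
  have hER : ∫ ω, R ω ∂P = mom P F s x y + p * gen (mom P F s) x y := by
    have j1 := integral_step h.driving hst Finset.univ (fun δ : Dir d => edgeAt x δ) W1 hW1m hW1b
    have j2 := integral_step h.driving hst Finset.univ (fun δ : Dir d => edgeAt y δ) W2 hW2m hW2b
    have j3 := integral_step h.driving hst Finset.univ
      (fun p : Dir d × Dir d => edgeAt x p.1) W3 hW3m hW3b
    have k1 : ∀ δ, ∫ ω, W1 δ ω ∂P = (mom P F s (x + step δ) y - mom P F s x y) / 2 :=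
      fun δ => h.integral_mul_diff s x (x + step δ) y
    have k2 : ∀ δ, ∫ ω, W2 δ ω ∂P = (mom P F s x (y + step δ) - mom P F s x y) / 2 := by
      intro δ
      have := h.integral_mul_diff s y (y + step δ) x
      rw [mom_symm s (y + step δ) x, mom_symm s y x] at this
      exact this
    have k3 : ∀ p : Dir d × Dir d, ∫ ω, W3 p ω ∂P = if edgeAt x p.1 = edgeAt y p.2 then
        (mom P F s (x + step p.1) (y + step p.2) - mom P F s (x + step p.1) y
          - mom P F s x (y + step p.2) + mom P F s x y) / 4 else 0 := by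
      intro p
      by_cases hp : edgeAt x p.1 = edgeAt y p.2
      · simp only [hW3, hp, if_true]
        exact h.integral_mul_diff2 s x (x + step p.1) y (y + step p.2)
      · simp only [hW3, hp, if_false, integral_zero]
    have hsplit : ∫ ω, R ω ∂P = (∫ ω, F s x ω * F s y ω ∂P)
        + (∫ ω, ∑ δ : Dir d, ringInd N s t (edgeAt x δ) ω * W1 δ ω ∂P)
        + (∫ ω, ∑ δ : Dir d, ringInd N s t (edgeAt y δ) ω * W2 δ ω ∂P)
        + (∫ ω, ∑ p : Dir d × Dir d, ringInd N s t (edgeAt x p.1) ω * W3 p ω ∂P) := by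
      have q1 := integral_add i0 i1
      have q2 := integral_add (i0.add i1) i2
      have q3 := integral_add ((i0.add i1).add i2) i3
      simp only [Pi.add_apply] at q1 q2 q3
      rw [← q1, ← q2, ← q3]
    rw [hsplit, j1, j2, j3, ← hp, gen, mul_add, mul_add]
    have q1 : ∑ i : Dir d, ∫ ω, W1 i ω ∂P
        = ∑ δ : Dir d, (mom P F s (x + step δ) y - mom P F s x y) / 2 :=
      Finset.sum_congr rfl fun δ _ => k1 δ
    have q2 : ∑ i : Dir d, ∫ ω, W2 i ω ∂P
        = ∑ δ : Dir d, (mom P F s x (y + step δ) - mom P F s x y) / 2 :=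
      Finset.sum_congr rfl fun δ _ => k2 δ
    have q3 : ∑ i : Dir d × Dir d, ∫ ω, W3 i ω ∂P
        = ∑ δ : Dir d, ∑ δ' : Dir d, if edgeAt x δ = edgeAt y δ' then
        (mom P F s (x + step δ) (y + step δ') - mom P F s (x + step δ) y
          - mom P F s x (y + step δ') + mom P F s x y) / 4 else 0 := by
      rw [← Finset.univ_product_univ (α := Dir d) (β := Dir d), Finset.sum_product]
      exact Finset.sum_congr rfl fun δ _ => Finset.sum_congr rfl fun δ' _ => k3 (δ, δ')
    rw [q1, q2, q3]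
    have q0 : ∫ ω, F s x ω * F s y ω ∂P = mom P F s x y := rfl
    rw [q0]
    ring
  have hG : |gen (mom P F s) x y| ≤ M ^ 2 * (1 + D) ^ 2 := by
    have hm := fun x y => h.mom_abs_le s x y
    have g1 : |∑ δ : Dir d, (mom P F s (x + step δ) y - mom P F s x y) / 2| ≤ D * M ^ 2 := by
      refine (Finset.abs_sum_le_sum_abs _ _).trans ?_
      have : ∀ δ ∈ (Finset.univ : Finset (Dir d)),
          |(mom P F s (x + step δ) y - mom P F s x y) / 2| ≤ M ^ 2 := by
        intro δ _
        have h1 := abs_le.1 (hm (x + step δ) y)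
        have h2 := abs_le.1 (hm x y)
        rw [abs_le]; constructor <;> nlinarith
      refine (Finset.sum_le_sum this).trans (le_of_eq ?_)
      rw [Finset.sum_const, Finset.card_univ, nsmul_eq_mul]
    have g2 : |∑ δ : Dir d, (mom P F s x (y + step δ) - mom P F s x y) / 2| ≤ D * M ^ 2 := by
      refine (Finset.abs_sum_le_sum_abs _ _).trans ?_
      have : ∀ δ ∈ (Finset.univ : Finset (Dir d)),
          |(mom P F s x (y + step δ) - mom P F s x y) / 2| ≤ M ^ 2 := by
        intro δ _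
        have h1 := abs_le.1 (hm x (y + step δ))
        have h2 := abs_le.1 (hm x y)
        rw [abs_le]; constructor <;> nlinarith
      refine (Finset.sum_le_sum this).trans (le_of_eq ?_)
      rw [Finset.sum_const, Finset.card_univ, nsmul_eq_mul]
    have g3 : |∑ δ : Dir d, ∑ δ' : Dir d, if edgeAt x δ = edgeAt y δ' then
        (mom P F s (x + step δ) (y + step δ') - mom P F s (x + step δ) y
          - mom P F s x (y + step δ') + mom P F s x y) / 4 else 0| ≤ D * D * M ^ 2 := by
      refine (Finset.abs_sum_le_sum_abs _ _).trans ?_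
      have : ∀ δ ∈ (Finset.univ : Finset (Dir d)), |∑ δ' : Dir d, if edgeAt x δ = edgeAt y δ' then
        (mom P F s (x + step δ) (y + step δ') - mom P F s (x + step δ) y
          - mom P F s x (y + step δ') + mom P F s x y) / 4 else 0| ≤ D * M ^ 2 := by
        intro δ _
        refine (Finset.abs_sum_le_sum_abs _ _).trans ?_
        have : ∀ δ' ∈ (Finset.univ : Finset (Dir d)), |if edgeAt x δ = edgeAt y δ' then
          (mom P F s (x + step δ) (y + step δ') - mom P F s (x + step δ) y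
            - mom P F s x (y + step δ') + mom P F s x y) / 4 else 0| ≤ M ^ 2 := by
          intro δ' _
          split_ifs
          · have h1 := abs_le.1 (hm (x + step δ) (y + step δ'))
            have h2 := abs_le.1 (hm (x + step δ) y)
            have h3 := abs_le.1 (hm x (y + step δ'))
            have h4 := abs_le.1 (hm x y)
            rw [abs_le]; constructor <;> nlinarith
          · rw [abs_zero]; positivity
        refine (Finset.sum_le_sum this).trans (le_of_eq ?_)
        rw [Finset.sum_const, Finset.card_univ, nsmul_eq_mul]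
      refine (Finset.sum_le_sum this).trans (le_of_eq ?_)
      rw [Finset.sum_const, Finset.card_univ, nsmul_eq_mul, ← hD]
      ring
    rw [gen]
    refine (abs_add_le _ _).trans ((add_le_add (abs_add_le _ _) le_rfl).trans ?_)
    have : M ^ 2 * (1 + D) ^ 2 = M ^ 2 + D * M ^ 2 + D * M ^ 2 + D * D * M ^ 2 := by ring
    rw [this]
    nlinarith [sq_nonneg M]
  have hp1 := one_sub_exp_bound hh
  rw [hER] at h1
  have h2 : mom P F t x y - mom P F s x y - ((t : ℝ) - s) * gen (mom P F s) x y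
      = (mom P F t x y - (mom P F s x y + p * gen (mom P F s) x y))
        + (p - ((t : ℝ) - s)) * gen (mom P F s) x y := by ring
  rw [h2]
  refine (abs_add_le _ _).trans ?_
  have h3 : |(p - ((t : ℝ) - s)) * gen (mom P F s) x y|
      ≤ ((t : ℝ) - s) ^ 2 * (M ^ 2 * (1 + D) ^ 2) := by
    rw [abs_mul]
    exact mul_le_mul hp1 hG (abs_nonneg _) (sq_nonneg _)
  have h4 : 2 * (M ^ 2 * (1 + D) ^ 2) * P.real B
      ≤ 2 * (M ^ 2 * (1 + D) ^ 2) * (4 * D ^ 4 * ((t : ℝ) - s) ^ 2) :=
    mul_le_mul_of_nonneg_left hPB (by positivity)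
  have h5 : |mom P F t x y - (mom P F s x y + p * gen (mom P F s) x y)|
      ≤ 2 * (M ^ 2 * (1 + D) ^ 2) * P.real B := h1
  calc _ ≤ 2 * (M ^ 2 * (1 + D) ^ 2) * (4 * D ^ 4 * ((t : ℝ) - s) ^ 2)
        + ((t : ℝ) - s) ^ 2 * (M ^ 2 * (1 + D) ^ 2) := add_le_add (h5.trans h4) h3
    _ = _ := by ring

end IsModel

end Pool.Agent.EdgeAveraging
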