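import Mathlib
import Pool.Agent.Helper94.EA.Euler

open MeasureTheory ProbabilityTheory Filter Topology Set
open scoped NNReal ENNReal

set_option linter.unusedSectionVars false
set_option linter.unusedVariables false

namespace Pool.Agent.EdgeAveraging

variable {Ω : Type*} [mΩ : MeasurableSpace Ω] {P : Measure Ω} [IsProbabilityMeasure P]
  {d : ℕ} {f0 : Ω → Vertex d → ℝ} {N : Edge d → ℝ≥0 → Ω → ℕ}
  {F : ℝ≥0 → Vertex d → Ω → ℝ} {M : ℝ}

/-- Euler comparison: two bounded solutions of the same linear evolution agree. -/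
theorem euler_unique {ι : Type*} {u : ℝ≥0 → ι → ℝ} {C1 C2 h0 : ℝ} (hC1 : 0 ≤ C1)
    (hC2 : 0 ≤ C2) (hh0 : 0 < h0) (hu0 : ∀ i, u 0 i = 0)
    (hstep : ∀ s t : ℝ≥0, s ≤ t → (t : ℝ) - s ≤ h0 → ∀ c, 0 ≤ c → (∀ i, |u s i| ≤ c) →
      ∀ i, |u t i| ≤ (1 + C1 * ((t : ℝ) - s)) * c + C2 * ((t : ℝ) - s) ^ 2) :
    ∀ t i, u t i = 0 := by
  intro t i
  have key : ∀ n : ℕ, n ≠ 0 → (t : ℝ) / n ≤ h0 →
      |u t i| ≤ Real.exp (C1 * t) * C2 * t ^ 2 / n := by
    intro n hn hnh
    have hn' : (0 : ℝ) < n := by positivity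
    have h1 : ∀ j : ℕ, ∀ i, |u (ugrid t n j) i|
        ≤ j * ((1 + C1 * (t / n)) ^ j * (C2 * ((t : ℝ) / n) ^ 2)) := by
      intro j
      induction j with
      | zero => intro i; rw [ugrid_zero, hu0]; simp
      | succ j ih =>
        intro i
        have h2 := hstep (ugrid t n j) (ugrid t n (j + 1)) (ugrid_mono t n (Nat.le_succ j))
          (by rw [ugrid_step]; exact hnh) _ (by positivity) ih i
        rw [ugrid_step] at h2
        refine h2.trans ?_
        push_cast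
        set q : ℝ := 1 + C1 * (t / n) with hq
        have hq1 : 1 ≤ q := by
          have : 0 ≤ C1 * ((t : ℝ) / n) := by positivity
          linarith
        have h3 : C2 * ((t : ℝ) / n) ^ 2 ≤ q ^ (j + 1) * (C2 * ((t : ℝ) / n) ^ 2) := by
          have : 1 ≤ q ^ (j + 1) := one_le_pow₀ hq1
          have h4 : 0 ≤ C2 * ((t : ℝ) / n) ^ 2 := by positivity
          nlinarith
        have h5 : q * (j * (q ^ j * (C2 * ((t : ℝ) / n) ^ 2)))
            = j * (q ^ (j + 1) * (C2 * ((t : ℝ) / n) ^ 2)) := by ring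
        rw [h5]
        linarith
    have h2 := h1 n i
    rw [ugrid_last t hn] at h2
    refine h2.trans ?_
    have h4 : (1 + C1 * ((t : ℝ) / n)) ^ n ≤ Real.exp (C1 * t) := by
      have h3 : 1 + C1 * ((t : ℝ) / n) ≤ Real.exp (C1 * (t / n)) := by
        rw [add_comm]; exact Real.add_one_le_exp _
      refine (pow_le_pow_left₀ (by positivity) h3 n).trans (le_of_eq ?_)
      rw [← Real.exp_nat_mul]
      congr 1
      field_simp
    calc (n : ℝ) * ((1 + C1 * ((t : ℝ) / n)) ^ n * (C2 * ((t : ℝ) / n) ^ 2))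
        ≤ (n : ℝ) * (Real.exp (C1 * t) * (C2 * ((t : ℝ) / n) ^ 2)) := by gcongr
      _ = _ := by field_simp
  have hlim : Tendsto (fun n : ℕ => Real.exp (C1 * t) * C2 * (t : ℝ) ^ 2 / n) atTop (𝓝 0) :=
    tendsto_const_div_atTop_nhds_zero_nat _
  have h0 : |u t i| ≤ 0 := by
    refine ge_of_tendsto hlim ?_
    have hev : ∀ᶠ n : ℕ in atTop, (t : ℝ) / n ≤ h0 := by
      have := tendsto_const_div_atTop_nhds_zero_nat (t : ℝ)
      filter_upwards [this.eventually (gt_mem_nhds hh0)] with n hn using hn.le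
    filter_upwards [eventually_ne_atTop 0, hev] with n hn hn2
    exact key n hn hn2
  exact abs_nonpos_iff.1 h0

namespace IsModel

/-- one step estimate for the first moments against an initial random variable -/
theorem euler_single (h : IsModel P f0 N F M) {s t : ℝ≥0} (hst : s ≤ t) (x : Vertex d)
    {Z : Ω → ℝ} (hZ : Measurable[past f0 N 0] Z) {K : ℝ} (hK : 0 ≤ K) (hZb : ∀ ω, |Z ω| ≤ K) :
    |(∫ ω, F t x ω * Z ω ∂P) - (∫ ω, F s x ω * Z ω ∂P)
        - ((t : ℝ) - s) * ∑ δ : Dir d,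
          ((∫ ω, F s (x + EdgeAveraging.step δ) ω * Z ω ∂P) - ∫ ω, F s x ω * Z ω ∂P) / 2|
      ≤ (M * K * (1 + Fintype.card (Dir d)) * (2 * (Fintype.card (Dir d) : ℝ) ^ 4 + 1))
        * ((t : ℝ) - s) ^ 2 := by
  set D : ℝ := (Fintype.card (Dir d) : ℝ) with hD
  have hD0 : 0 ≤ D := Nat.cast_nonneg _
  have hM := h.nonneg
  have hh : (0 : ℝ) ≤ (t : ℝ) - s := sub_nonneg.2 (by exact_mod_cast hst)
  set A : Finset (Edge d) := nearEdges x with hA
  set B : Set Ω := {ω | 2 ≤ ∑ e ∈ A, (N e t ω - N e s ω)} with hB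
  have hBm : MeasurableSet B := by
    have : Measurable fun ω => ∑ e ∈ A, (N e t ω - N e s ω) :=
      Finset.measurable_fun_sum _ fun e _ => (h.driving.clock e).measurable_incr s t
    exact this (MeasurableSet.of_discrete (s := {k | 2 ≤ k}))
  have hAcard : (A.card : ℝ) ≤ D ^ 2 := card_near_le x
  have hPB : P.real B ≤ D ^ 4 * ((t : ℝ) - s) ^ 2 := by
    refine (h.driving.many_rings hst A).trans ?_
    have : (A.card : ℝ) ^ 2 ≤ (D ^ 2) ^ 2 := pow_le_pow_left₀ (Nat.cast_nonneg _) hAcard 2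
    calc (A.card : ℝ) ^ 2 * ((t : ℝ) - s) ^ 2 ≤ (D ^ 2) ^ 2 * ((t : ℝ) - s) ^ 2 :=
          mul_le_mul_of_nonneg_right this (sq_nonneg _)
      _ = _ := by ring
  have hZs : Measurable[past f0 N s] Z := hZ.mono (past_mono (zero_le)) le_rfl
  have hZm : Measurable Z := hZ.mono (h.driving.past_le 0) le_rfl
  set a : Dir d → Ω → ℝ := fun δ ω => (F s (x + EdgeAveraging.step δ) ω - F s x ω) / 2 with ha
  have ham : ∀ δ, Measurable[past f0 N s] (a δ) := fun δ =>
    ((h.meas s _).fun_sub (h.meas s _)).div_const 2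
  have hab : ∀ δ ω, |a δ ω| ≤ M := by
    intro δ ω
    simp only [ha]
    rw [abs_div, abs_two]
    have := abs_sub (F s (x + EdgeAveraging.step δ) ω) (F s x ω)
    have := h.bound s (x + EdgeAveraging.step δ) ω
    have := h.bound s x ω
    linarith
  set W1 : Dir d → Ω → ℝ := fun δ ω => a δ ω * Z ω with hW1
  have hmulb : ∀ u v : ℝ, |u| ≤ M → |v| ≤ K → |u * v| ≤ M * K := by
    intro u v hu hv
    rw [abs_mul]
    exact mul_le_mul hu hv (abs_nonneg _) hM
  have hW1m : ∀ δ, Measurable[past f0 N s] (W1 δ) := fun δ => (ham δ).fun_mul hZs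
  have hW1b : ∀ δ ω, |W1 δ ω| ≤ M * K := fun δ ω => hmulb _ _ (hab _ _) (hZb _)
  set R : Ω → ℝ := fun ω => F s x ω * Z ω
    + ∑ δ : Dir d, ringInd N s t (edgeAt x δ) ω * W1 δ ω with hR
  have hWm' : ∀ {W : Ω → ℝ}, Measurable[past f0 N s] W → Measurable W :=
    fun hW => hW.mono (h.driving.past_le s) le_rfl
  have hrm := measurable_ringInd h.driving s t
  have m0 : Measurable fun ω => F s x ω * Z ω := (h.meas' s x).mul hZm
  have m1 : Measurable fun ω => ∑ δ : Dir d, ringInd N s t (edgeAt x δ) ω * W1 δ ω :=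
    Finset.measurable_fun_sum _ fun δ _ => (hrm _).mul (hWm' (hW1m δ))
  have b0 : ∀ ω, |F s x ω * Z ω| ≤ M * K := fun ω => hmulb _ _ (h.bound _ _ _) (hZb _)
  have b1 := sum_ring_abs_le (N := N) (s := s) (t := t) Finset.univ (fun δ => edgeAt x δ) W1 hW1b
  have hcard1 : ((Finset.univ : Finset (Dir d)).card : ℝ) = D := by
    rw [Finset.card_univ]
  rw [hcard1] at b1
  have i0 : Integrable (fun ω => F s x ω * Z ω) P := integrable_of_bound' m0 b0
  have i1 := integrable_of_bound' (P := P) m1 b1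
  have hRm : Measurable R := m0.add m1
  have hRb : ∀ ω, |R ω| ≤ M * K * (1 + D) := by
    intro ω
    have e0 := b0 ω
    have e1 := b1 ω
    have t3 := abs_add_le (F s x ω * Z ω)
      (∑ δ : Dir d, ringInd N s t (edgeAt x δ) ω * W1 δ ω)
    simp only [hR]
    have : M * K * (1 + D) = M * K + D * (M * K) := by ring
    rw [this]
    linarith
  have hXb : ∀ ω, |F t x ω * Z ω| ≤ M * K * (1 + D) := by
    intro ω
    refine (hmulb _ _ (h.bound _ _ _) (hZb _)).trans ?_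
    nlinarith [mul_nonneg hM hK]
  have hXR : ∀ᵐ ω ∂P, ω ∉ B → F t x ω * Z ω = R ω := by
    filter_upwards [h.oneStep s t hst x] with ω hx hω
    have hAle : ∑ e ∈ A, (N e t ω - N e s ω) ≤ 1 := by
      simp only [hB, mem_ofPred_eq, not_le] at hω
      omega
    rw [hx hAle]
    simp only [hR, hW1]
    have e1 : ∑ δ : Dir d, ringInd N s t (edgeAt x δ) ω * (a δ ω * Z ω)
        = (∑ δ : Dir d, ringInd N s t (edgeAt x δ) ω * a δ ω) * Z ω := by
      rw [Finset.sum_mul]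
      exact Finset.sum_congr rfl fun δ _ => by ring
    rw [e1]
    ring
  have h1 := abs_integral_sub_le (P := P) ((h.meas' t x).mul hZm) hRm hXb hRb hBm hXR
  set p : ℝ := 1 - Real.exp (-((t : ℝ) - s)) with hp
  set G : ℝ := ∑ δ : Dir d,
    ((∫ ω, F s (x + EdgeAveraging.step δ) ω * Z ω ∂P) - ∫ ω, F s x ω * Z ω ∂P) / 2 with hG
  have hint : ∀ y, Integrable (fun ω => F s y ω * Z ω) P := fun y =>
    integrable_of_bound' ((h.meas' s y).mul hZm) (fun ω => hmulb _ _ (h.bound _ _ _) (hZb ω))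
  have k1 : ∀ δ, ∫ ω, W1 δ ω ∂P
      = ((∫ ω, F s (x + EdgeAveraging.step δ) ω * Z ω ∂P) - ∫ ω, F s x ω * Z ω ∂P) / 2 := by
    intro δ
    rw [← integral_sub (hint _) (hint _), ← integral_div]
    refine integral_congr_ae (Eventually.of_forall fun ω => ?_)
    simp only [hW1, ha]
    ring
  have hER : ∫ ω, R ω ∂P = (∫ ω, F s x ω * Z ω ∂P) + p * G := by
    have j1 := integral_step h.driving hst Finset.univ (fun δ : Dir d => edgeAt x δ) W1 hW1m hW1b
    have q1 := integral_add i0 i1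
    have q2 : ∫ ω, R ω ∂P = (∫ ω, F s x ω * Z ω ∂P)
      + ∫ ω, ∑ δ : Dir d, ringInd N s t (edgeAt x δ) ω * W1 δ ω ∂P := q1
    rw [q2, j1, ← hp, hG]
    congr 2
    exact Finset.sum_congr rfl fun δ _ => k1 δ
  have hGb : |G| ≤ M * K * (1 + D) := by
    have g0 : ∀ δ ∈ (Finset.univ : Finset (Dir d)),
        |((∫ ω, F s (x + EdgeAveraging.step δ) ω * Z ω ∂P) - ∫ ω, F s x ω * Z ω ∂P) / 2|
          ≤ M * K := by
      intro δ _
      rw [← k1 δ]
      have h2 : |∫ ω, W1 δ ω ∂P| ≤ ∫ ω, |W1 δ ω| ∂P := abs_integral_le_integral_abs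
      refine h2.trans ?_
      have h3 : ∫ ω, |W1 δ ω| ∂P ≤ ∫ _, M * K ∂P :=
        integral_mono_of_nonneg (Eventually.of_forall fun ω => abs_nonneg _)
          (integrable_const _) (Eventually.of_forall fun ω => hW1b δ ω)
      refine h3.trans (le_of_eq ?_)
      simp
    have g1 : |G| ≤ D * (M * K) := by
      refine (Finset.abs_sum_le_sum_abs _ _).trans ((Finset.sum_le_sum g0).trans (le_of_eq ?_))
      rw [Finset.sum_const, Finset.card_univ, nsmul_eq_mul]
    nlinarith [mul_nonneg hM hK]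
  have hp1 := one_sub_exp_bound hh
  rw [hER] at h1
  have h2 : (∫ ω, F t x ω * Z ω ∂P) - (∫ ω, F s x ω * Z ω ∂P) - ((t : ℝ) - s) * G
      = ((∫ ω, F t x ω * Z ω ∂P) - ((∫ ω, F s x ω * Z ω ∂P) + p * G))
        + (p - ((t : ℝ) - s)) * G := by ring
  rw [h2]
  refine (abs_add_le _ _).trans ?_
  have h3 : |(p - ((t : ℝ) - s)) * G| ≤ ((t : ℝ) - s) ^ 2 * (M * K * (1 + D)) := by
    rw [abs_mul]
    exact mul_le_mul hp1 hGb (abs_nonneg _) (sq_nonneg _)
  have h4 : 2 * (M * K * (1 + D)) * P.real B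
      ≤ 2 * (M * K * (1 + D)) * (D ^ 4 * ((t : ℝ) - s) ^ 2) :=
    mul_le_mul_of_nonneg_left hPB (by positivity)
  have h5 : |(∫ ω, F t x ω * Z ω ∂P) - ((∫ ω, F s x ω * Z ω ∂P) + p * G)|
      ≤ 2 * (M * K * (1 + D)) * P.real B := h1
  calc _ ≤ 2 * (M * K * (1 + D)) * (D ^ 4 * ((t : ℝ) - s) ^ 2)
        + ((t : ℝ) - s) ^ 2 * (M * K * (1 + D)) := add_le_add (h5.trans h4) h3
    _ = _ := by ring

end IsModel

end Pool.Agent.EdgeAveraging
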