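import Mathlib
import Pool.Agent.Helper94.EA.Single

open MeasureTheory ProbabilityTheory Filter Topology Set
open scoped NNReal ENNReal

set_option linter.unusedSectionVars false
set_option linter.unusedVariables false

namespace Pool.Agent.EdgeAveraging

variable {Ω : Type*} [mΩ : MeasurableSpace Ω] {P : Measure Ω} [IsProbabilityMeasure P]
  {d : ℕ} {f0 : Ω → Vertex d → ℝ} {N : Edge d → ℝ≥0 → Ω → ℕ}
  {F : ℝ≥0 → Vertex d → Ω → ℝ} {M : ℝ}

theorem gen_sub (m m' : Vertex d → Vertex d → ℝ) (x y : Vertex d) :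
    gen (fun a b => m a b - m' a b) x y = gen m x y - gen m' x y := by
  simp only [gen]
  have h1 : ∑ δ : Dir d, (m (x + step δ) y - m' (x + step δ) y - (m x y - m' x y)) / 2
      = ∑ δ : Dir d, (m (x + step δ) y - m x y) / 2
        - ∑ δ : Dir d, (m' (x + step δ) y - m' x y) / 2 := by
    rw [← Finset.sum_sub_distrib]
    exact Finset.sum_congr rfl fun δ _ => by ring
  have h2 : ∑ δ : Dir d, (m x (y + step δ) - m' x (y + step δ) - (m x y - m' x y)) / 2
      = ∑ δ : Dir d, (m x (y + step δ) - m x y) / 2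
        - ∑ δ : Dir d, (m' x (y + step δ) - m' x y) / 2 := by
    rw [← Finset.sum_sub_distrib]
    exact Finset.sum_congr rfl fun δ _ => by ring
  have h3 : ∑ δ : Dir d, ∑ δ' : Dir d, (if edgeAt x δ = edgeAt y δ' then
        (m (x + step δ) (y + step δ') - m' (x + step δ) (y + step δ')
          - (m (x + step δ) y - m' (x + step δ) y)
          - (m x (y + step δ') - m' x (y + step δ')) + (m x y - m' x y)) / 4 else 0)
      = (∑ δ : Dir d, ∑ δ' : Dir d, if edgeAt x δ = edgeAt y δ' then
        (m (x + step δ) (y + step δ') - m (x + step δ) y - m x (y + step δ') + m x y) / 4 else 0)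
        - ∑ δ : Dir d, ∑ δ' : Dir d, if edgeAt x δ = edgeAt y δ' then
        (m' (x + step δ) (y + step δ') - m' (x + step δ) y - m' x (y + step δ') + m' x y) / 4
          else 0 := by
    rw [← Finset.sum_sub_distrib]
    refine Finset.sum_congr rfl fun δ _ => ?_
    rw [← Finset.sum_sub_distrib]
    refine Finset.sum_congr rfl fun δ' _ => ?_
    split_ifs <;> ring
  rw [h1, h2, h3]
  ring

theorem gen_shift (m : Vertex d → Vertex d → ℝ) (z x y : Vertex d) :
    gen (fun a b => m (a + z) (b + z)) x y = gen m (x + z) (y + z) := by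
  have he : ∀ δ δ' : Dir d, (edgeAt x δ = edgeAt y δ' ↔ edgeAt (x + z) δ = edgeAt (y + z) δ') := by
    intro δ δ'
    rw [edgeAt_eq_iff, edgeAt_eq_iff]
    have h1 : (y + z = x + z) ↔ y = x := add_left_inj z
    have h2 : (y + z = x + z + step δ) ↔ y = x + step δ := by
      rw [add_right_comm]; exact add_left_inj z
    rw [h1, h2]
  simp only [gen]
  have h1 : ∀ (a : Vertex d) (δ : Dir d), a + step δ + z = a + z + step δ := fun a δ =>
    add_right_comm _ _ _
  simp only [h1, he]

theorem gen_abs_le {m : Vertex d → Vertex d → ℝ} {c : ℝ} (hc : 0 ≤ c) (hm : ∀ x y, |m x y| ≤ c)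
    (x y : Vertex d) : |gen m x y| ≤ (1 + Fintype.card (Dir d)) ^ 2 * c := by
  set D : ℝ := (Fintype.card (Dir d) : ℝ) with hD
  have hD0 : 0 ≤ D := Nat.cast_nonneg _
  have g1 : |∑ δ : Dir d, (m (x + step δ) y - m x y) / 2| ≤ D * c := by
    refine (Finset.abs_sum_le_sum_abs _ _).trans ?_
    have : ∀ δ ∈ (Finset.univ : Finset (Dir d)), |(m (x + step δ) y - m x y) / 2| ≤ c := by
      intro δ _
      have h1 := abs_le.1 (hm (x + step δ) y)
      have h2 := abs_le.1 (hm x y)
      rw [abs_le]; constructor <;> linarith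
    refine (Finset.sum_le_sum this).trans (le_of_eq ?_)
    rw [Finset.sum_const, Finset.card_univ, nsmul_eq_mul]
  have g2 : |∑ δ : Dir d, (m x (y + step δ) - m x y) / 2| ≤ D * c := by
    refine (Finset.abs_sum_le_sum_abs _ _).trans ?_
    have : ∀ δ ∈ (Finset.univ : Finset (Dir d)), |(m x (y + step δ) - m x y) / 2| ≤ c := by
      intro δ _
      have h1 := abs_le.1 (hm x (y + step δ))
      have h2 := abs_le.1 (hm x y)
      rw [abs_le]; constructor <;> linarith
    refine (Finset.sum_le_sum this).trans (le_of_eq ?_)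
    rw [Finset.sum_const, Finset.card_univ, nsmul_eq_mul]
  have g3 : |∑ δ : Dir d, ∑ δ' : Dir d, if edgeAt x δ = edgeAt y δ' then
      (m (x + step δ) (y + step δ') - m (x + step δ) y
        - m x (y + step δ') + m x y) / 4 else 0| ≤ D * D * c := by
    refine (Finset.abs_sum_le_sum_abs _ _).trans ?_
    have : ∀ δ ∈ (Finset.univ : Finset (Dir d)), |∑ δ' : Dir d, if edgeAt x δ = edgeAt y δ' then
      (m (x + step δ) (y + step δ') - m (x + step δ) y
        - m x (y + step δ') + m x y) / 4 else 0| ≤ D * c := by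
      intro δ _
      refine (Finset.abs_sum_le_sum_abs _ _).trans ?_
      have : ∀ δ' ∈ (Finset.univ : Finset (Dir d)), |if edgeAt x δ = edgeAt y δ' then
        (m (x + step δ) (y + step δ') - m (x + step δ) y
          - m x (y + step δ') + m x y) / 4 else 0| ≤ c := by
        intro δ' _
        split_ifs
        · have h1 := abs_le.1 (hm (x + step δ) (y + step δ'))
          have h2 := abs_le.1 (hm (x + step δ) y)
          have h3 := abs_le.1 (hm x (y + step δ'))
          have h4 := abs_le.1 (hm x y)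
          rw [abs_le]; constructor <;> linarith
        · rw [abs_zero]; positivity
      refine (Finset.sum_le_sum this).trans (le_of_eq ?_)
      rw [Finset.sum_const, Finset.card_univ, nsmul_eq_mul]
    refine (Finset.sum_le_sum this).trans (le_of_eq ?_)
    rw [Finset.sum_const, Finset.card_univ, nsmul_eq_mul, ← hD]
    ring
  rw [gen]
  refine (abs_add_le _ _).trans ((add_le_add (abs_add_le _ _) le_rfl).trans ?_)
  have : (1 + D) ^ 2 * c = c + D * c + D * c + D * D * c := by ring
  rw [this]
  linarith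

theorem integral_shift_eq (hf0 : Measurable f0) (hst : IsStationaryField P f0) (x : Vertex d)
    {g : (Vertex d → ℝ) → ℝ} (hg : Measurable g) :
    ∫ ω, g (shift x (f0 ω)) ∂P = ∫ ω, g (f0 ω) ∂P := by
  have h1 : Measurable fun ω v => f0 ω (v + x) :=
    measurable_pi_lambda _ fun v => (measurable_pi_apply _).comp hf0
  have h2 : ∫ ω, g (shift x (f0 ω)) ∂P = ∫ s, g s ∂(P.map fun ω v => f0 ω (v + x)) := by
    rw [integral_map h1.aemeasurable hg.aestronglyMeasurable]
    rfl
  rw [h2, hst x, integral_map hf0.aemeasurable hg.aestronglyMeasurable]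

namespace IsModel

theorem init_clamp (h : IsModel P f0 N F M) (hb : ∀ᵐ ω ∂P, ∀ v, |f0 ω v| ≤ M) (v : Vertex d) :
    ∀ᵐ ω ∂P, F 0 v ω = clamp M (f0 ω v) := by
  filter_upwards [h.init v, hb] with ω h1 h2
  rw [h1, clamp_eq (h2 v)]

theorem mom_zero (h : IsModel P f0 N F M) (hb : ∀ᵐ ω ∂P, ∀ v, |f0 ω v| ≤ M) (x y : Vertex d) :
    mom P F 0 x y = ∫ ω, clamp M (f0 ω x) * clamp M (f0 ω y) ∂P := by
  refine integral_congr_ae ?_
  filter_upwards [h.init_clamp hb x, h.init_clamp hb y] with ω h1 h2
  rw [h1, h2]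

/-- the second moments are translation invariant -/
theorem mom_shift (h : IsModel P f0 N F M) (hb : ∀ᵐ ω ∂P, ∀ v, |f0 ω v| ≤ M)
    (hst : IsStationaryField P f0) (t : ℝ≥0) (x y z : Vertex d) :
    mom P F t (x + z) (y + z) = mom P F t x y := by
  set C : ℝ := M ^ 2 * (1 + Fintype.card (Dir d)) ^ 2 * (8 * (Fintype.card (Dir d) : ℝ) ^ 4 + 1)
    with hC
  have hC0 : 0 ≤ C := by positivity
  have key := euler_unique (ι := Vertex d × Vertex d)
    (u := fun t p => mom P F t (p.1 + z) (p.2 + z) - mom P F t p.1 p.2)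
    (C1 := (1 + Fintype.card (Dir d)) ^ 2) (C2 := 2 * C) (h0 := 1) (by positivity) (by positivity)
    one_pos ?_ ?_ t (x, y)
  · exact sub_eq_zero.1 key
  · rintro ⟨a, b⟩
    simp only
    rw [h.mom_zero hb, h.mom_zero hb, sub_eq_zero]
    have hg : Measurable fun g : Vertex d → ℝ => clamp M (g a) * clamp M (g b) :=
      ((measurable_clamp M).comp (measurable_pi_apply a)).mul
        ((measurable_clamp M).comp (measurable_pi_apply b))
    exact integral_shift_eq h.driving.measurable_init hst z hg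
  · rintro s t hst' _ c hc hu ⟨a, b⟩
    simp only
    have hh : (0 : ℝ) ≤ (t : ℝ) - s := sub_nonneg.2 (by exact_mod_cast hst')
    have e1 := h.euler_pair hst' (a + z) (b + z)
    have e2 := h.euler_pair hst' a b
    rw [← gen_shift] at e1
    rw [← hC] at e1 e2
    set g1 := gen (fun a b => mom P F s (a + z) (b + z)) a b with hg1
    set g2 := gen (mom P F s) a b with hg2
    have e3 : |g1 - g2| ≤ (1 + Fintype.card (Dir d)) ^ 2 * c := by
      rw [hg1, hg2, ← gen_sub]
      exact gen_abs_le hc (fun x y => hu (x, y)) a b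
    have e4 := hu (a, b)
    simp only at e4
    have e5 : ((t : ℝ) - s) * |g1 - g2| ≤ ((t : ℝ) - s) * ((1 + Fintype.card (Dir d)) ^ 2 * c) :=
      mul_le_mul_of_nonneg_left e3 hh
    have e6 : mom P F t (a + z) (b + z) - mom P F t a b
        = (mom P F t (a + z) (b + z) - mom P F s (a + z) (b + z) - ((t : ℝ) - s) * g1)
          - (mom P F t a b - mom P F s a b - ((t : ℝ) - s) * g2)
          + (mom P F s (a + z) (b + z) - mom P F s a b) + ((t : ℝ) - s) * (g1 - g2) := by ring
    rw [e6]
    have e7 := abs_add_le ((mom P F t (a + z) (b + z) - mom P F s (a + z) (b + z)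
      - ((t : ℝ) - s) * g1) - (mom P F t a b - mom P F s a b - ((t : ℝ) - s) * g2)
      + (mom P F s (a + z) (b + z) - mom P F s a b)) (((t : ℝ) - s) * (g1 - g2))
    have e8 := abs_add_le ((mom P F t (a + z) (b + z) - mom P F s (a + z) (b + z)
      - ((t : ℝ) - s) * g1) - (mom P F t a b - mom P F s a b - ((t : ℝ) - s) * g2))
      (mom P F s (a + z) (b + z) - mom P F s a b)
    have e9 := abs_sub (mom P F t (a + z) (b + z) - mom P F s (a + z) (b + z)
      - ((t : ℝ) - s) * g1) (mom P F t a b - mom P F s a b - ((t : ℝ) - s) * g2)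
    rw [abs_mul, abs_of_nonneg hh] at e7
    have e10 : (1 + (1 + (Fintype.card (Dir d) : ℝ)) ^ 2 * ((t : ℝ) - s)) * c
        + 2 * C * ((t : ℝ) - s) ^ 2 = C * ((t : ℝ) - s) ^ 2 + C * ((t : ℝ) - s) ^ 2 + c
          + ((t : ℝ) - s) * ((1 + Fintype.card (Dir d)) ^ 2 * c) := by ring
    rw [e10]
    linarith

end IsModel

end Pool.Agent.EdgeAveraging
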