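import Mathlib
import Pool.Agent.Helper94.EA.Invariance

open MeasureTheory ProbabilityTheory Filter Topology Set
open scoped NNReal ENNReal

set_option linter.unusedSectionVars false
set_option linter.unusedVariables false

namespace Pool.Agent.EdgeAveraging

variable {Ω : Type*} [mΩ : MeasurableSpace Ω] {P : Measure Ω} [IsProbabilityMeasure P]
  {d : ℕ} {f0 : Ω → Vertex d → ℝ} {N : Edge d → ℝ≥0 → Ω → ℕ}
  {F : ℝ≥0 → Vertex d → Ω → ℝ} {M : ℝ}

/-- the bounded observable `clamp (g 0)` -/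
noncomputable def obs (d : ℕ) (M : ℝ) (hM : 0 ≤ M) : BM (Vertex d → ℝ) :=
  ⟨fun g => clamp M (g 0), (measurable_clamp M).comp (measurable_pi_apply 0),
    M, fun g => abs_clamp_le hM _⟩

theorem obs_apply (hM : 0 ≤ M) (g : Vertex d → ℝ) : (obs d M hM).1 g = clamp M (g 0) := rfl

section Heat

variable {μ : Measure (Vertex d → ℝ)} [IsProbabilityMeasure μ]

/-- the heat semigroup with jump rate `1/2` to each neighbour -/
noncomputable def heatOp (hS : IsSymMarkov μ (nnAvg d)) (t : ℝ≥0) :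
    BM (Vertex d → ℝ) →ₗ[ℝ] BM (Vertex d → ℝ) := poisOp hS (t * d)

theorem card_dir (d : ℕ) : (Fintype.card (Dir d) : ℝ) = 2 * d := by
  have : Fintype.card (Dir d) = d * 2 := by
    rw [Fintype.card_prod, Fintype.card_fin, Fintype.card_bool]
  rw [this]
  push_cast
  ring

theorem heatOp_zero (hS : IsSymMarkov μ (nnAvg d)) (G : BM (Vertex d → ℝ)) :
    heatOp hS 0 G = G := by
  rw [heatOp, zero_mul, poisOp_zero]

theorem heatOp_add [Nonempty (Dir d)] (hS : IsSymMarkov μ (nnAvg d)) (s t : ℝ≥0) (G : BM (Vertex d → ℝ)) :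
    heatOp hS (s + t) G = heatOp hS s (heatOp hS t G) := by
  have hc : PoisComm hS := poisComm_avgOp hS
  rw [heatOp, heatOp, heatOp, add_mul, poisOp_add hc]

theorem isSymMarkov_heatOp (hS : IsSymMarkov μ (nnAvg d)) (t : ℝ≥0) :
    IsSymMarkov μ (heatOp hS t) := isSymMarkov_poisOp hS _

theorem heatOp_abs_le (hS : IsSymMarkov μ (nnAvg d)) (t : ℝ≥0) {G : BM (Vertex d → ℝ)} {K : ℝ}
    (hG : ∀ s, |G.1 s| ≤ K) (s : Vertex d → ℝ) : |(heatOp hS t G).1 s| ≤ K :=
  (isSymMarkov_heatOp hS t).abs_le_of_abs_le hG s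

/-- Euler estimate for the heat semigroup -/
theorem heatOp_euler [Nonempty (Dir d)] (hd : 0 < d) (hS : IsSymMarkov μ (nnAvg d)) {s t : ℝ≥0} (hst : s ≤ t)
    (hsmall : ((t : ℝ) - s) * d ≤ 1) {G : BM (Vertex d → ℝ)} {K : ℝ} (hG : ∀ s, |G.1 s| ≤ K)
    (x : Vertex d) (g : Vertex d → ℝ) :
    |(heatOp hS t G).1 (shift x g) - (heatOp hS s G).1 (shift x g)
        - ((t : ℝ) - s) * ∑ δ : Dir d,
          ((heatOp hS s G).1 (shift (x + step δ) g) - (heatOp hS s G).1 (shift x g)) / 2|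
      ≤ 3 * (((t : ℝ) - s) * d) ^ 2 * K := by
  obtain ⟨r, rfl⟩ := exists_add_of_le hst
  have hr : ((s + r : ℝ≥0) : ℝ) - s = r := by push_cast; ring
  rw [hr] at hsmall ⊢
  have h1 : (r * d : ℝ≥0) ≤ 1 := by
    have : ((r * d : ℝ≥0) : ℝ) ≤ 1 := by push_cast; exact hsmall
    exact_mod_cast this
  rw [add_comm s r, heatOp_add]
  set H := heatOp hS s G with hH
  have h2 := poisOp_expand hS h1 (F := H) (heatOp_abs_le hS s hG) (shift x g)
  have h3 : ((r * d : ℝ≥0) : ℝ) * ((nnAvg d H).1 (shift x g) - H.1 (shift x g))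
      = (r : ℝ) * ∑ δ : Dir d, (H.1 (shift (x + step δ) g) - H.1 (shift x g)) / 2 := by
    rw [nnAvg_apply, card_dir]
    simp_rw [shift_shift, fun δ : Dir d => add_comm (step δ) x]
    rw [← Finset.sum_div, Finset.sum_sub_distrib, Finset.sum_const, Finset.card_univ,
      nsmul_eq_mul, card_dir]
    have : (d : ℝ) ≠ 0 := by positivity
    push_cast
    field_simp
  rw [h3] at h2
  have h4 : ((r * d : ℝ≥0) : ℝ) = (r : ℝ) * d := by push_cast; ring
  rw [h4] at h2
  exact h2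

end Heat

/-- conditional expectation process -/
noncomputable def cond {μ : Measure (Vertex d → ℝ)} [IsProbabilityMeasure μ]
    (hS : IsSymMarkov μ (nnAvg d)) (f0 : Ω → Vertex d → ℝ) (M : ℝ) (hM : 0 ≤ M) (t : ℝ≥0)
    (x : Vertex d) (ω : Ω) : ℝ := (heatOp hS t (obs d M hM)).1 (shift x (f0 ω))

section Cond

variable {μ : Measure (Vertex d → ℝ)} [IsProbabilityMeasure μ] {hS : IsSymMarkov μ (nnAvg d)}
  {hM : 0 ≤ M}

theorem cond_abs_le (t : ℝ≥0) (x : Vertex d) (ω : Ω) : |cond hS f0 M hM t x ω| ≤ M :=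
  heatOp_abs_le hS t (fun g => abs_clamp_le hM _) _

theorem measurable_cond (t : ℝ≥0) (x : Vertex d) :
    Measurable[past f0 N 0] (cond hS f0 M hM t x) := by
  have h1 : Measurable fun g : Vertex d → ℝ => (heatOp hS t (obs d M hM)).1 (shift x g) :=
    (BM.measurable _).comp (measurable_shift x)
  exact h1.comp (measurable_past_init 0)

theorem cond_zero (x : Vertex d) (ω : Ω) : cond hS f0 M hM 0 x ω = clamp M (f0 ω x) := by
  rw [cond, heatOp_zero, obs_apply, shift, zero_add]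

theorem IsModel.cross [Nonempty (Dir d)] (h : IsModel P f0 N F M) (hd : 0 < d)
    (hb : ∀ᵐ ω ∂P, ∀ v, |f0 ω v| ≤ M) {Z : Ω → ℝ} (hZ : Measurable[past f0 N 0] Z) {K : ℝ}
    (hK : 0 ≤ K) (hZb : ∀ ω, |Z ω| ≤ K) (t : ℝ≥0) (x : Vertex d) :
    ∫ ω, F t x ω * Z ω ∂P = ∫ ω, cond hS f0 M hM t x ω * Z ω ∂P := by
  have hZm : Measurable Z := hZ.mono (h.driving.past_le 0) le_rfl
  have hcm : ∀ t x, Measurable (cond hS f0 M hM t x) := fun t x =>
    (measurable_cond (N := N) t x).mono (h.driving.past_le 0) le_rfl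
  have hci : ∀ t x, Integrable (fun ω => cond hS f0 M hM t x ω * Z ω) P := by
    intro t x
    refine IsModel.integrable_of_bound' (K := M * K) ((hcm t x).mul hZm) fun ω => ?_
    rw [abs_mul]
    exact mul_le_mul (cond_abs_le _ _ _) (hZb ω) (abs_nonneg _) hM
  set D : ℝ := (Fintype.card (Dir d) : ℝ) with hD
  have hD0 : 0 ≤ D := Nat.cast_nonneg _
  set C : ℝ := M * K * (1 + D) * (2 * D ^ 4 + 1) with hC
  have hC0 : 0 ≤ C := by positivity
  set C' : ℝ := 3 * (d : ℝ) ^ 2 * M * K with hC'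
  have hC'0 : 0 ≤ C' := by positivity
  have hd' : (0 : ℝ) < d := by exact_mod_cast hd
  have key := euler_unique (ι := Vertex d)
    (u := fun t x => (∫ ω, F t x ω * Z ω ∂P) - ∫ ω, cond hS f0 M hM t x ω * Z ω ∂P)
    (C1 := D) (C2 := C + C') (h0 := 1 / d) hD0 (by positivity) (by positivity) ?_ ?_ t x
  · exact sub_eq_zero.1 key
  · intro a
    rw [sub_eq_zero]
    refine integral_congr_ae ?_
    filter_upwards [h.init_clamp hb a] with ω h1
    rw [h1, cond_zero]
  · intro s t hst hsmall c hc hu a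
    have hh : (0 : ℝ) ≤ (t : ℝ) - s := sub_nonneg.2 (by exact_mod_cast hst)
    have hsm : ((t : ℝ) - s) * d ≤ 1 := by rwa [le_div_iff₀ hd'] at hsmall
    have e1 := h.euler_single hst a hZ hK hZb
    rw [← hD, ← hC] at e1
    set G1 : ℝ := ∑ δ : Dir d, ((∫ ω, F s (a + step δ) ω * Z ω ∂P)
      - ∫ ω, F s a ω * Z ω ∂P) / 2 with hG1
    set G2 : ℝ := ∑ δ : Dir d, ((∫ ω, cond hS f0 M hM s (a + step δ) ω * Z ω ∂P)
      - ∫ ω, cond hS f0 M hM s a ω * Z ω ∂P) / 2 with hG2
    have e2 : |(∫ ω, cond hS f0 M hM t a ω * Z ω ∂P) - (∫ ω, cond hS f0 M hM s a ω * Z ω ∂P)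
        - ((t : ℝ) - s) * G2| ≤ C' * ((t : ℝ) - s) ^ 2 := by
      set R : Ω → ℝ := fun ω => (cond hS f0 M hM t a ω - cond hS f0 M hM s a ω
        - ((t : ℝ) - s) * ∑ δ : Dir d,
          (cond hS f0 M hM s (a + step δ) ω - cond hS f0 M hM s a ω) / 2) * Z ω with hR
      have hRb : ∀ ω, |R ω| ≤ C' * ((t : ℝ) - s) ^ 2 := by
        intro ω
        have e3 := heatOp_euler hd hS hst hsm (G := obs d M hM) (K := M)
          (fun g => abs_clamp_le hM _) a (f0 ω)
        have e4 : |R ω| ≤ (3 * (((t : ℝ) - s) * d) ^ 2 * M) * K := by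
          rw [hR, abs_mul]
          exact mul_le_mul e3 (hZb ω) (abs_nonneg _) (by positivity)
        refine e4.trans (le_of_eq ?_)
        rw [hC']
        ring
      have hRi : ∫ ω, R ω ∂P = (∫ ω, cond hS f0 M hM t a ω * Z ω ∂P)
          - (∫ ω, cond hS f0 M hM s a ω * Z ω ∂P) - ((t : ℝ) - s) * G2 := by
        have q1 : ∀ δ : Dir d, Integrable (fun ω => (cond hS f0 M hM s (a + step δ) ω * Z ω
            - cond hS f0 M hM s a ω * Z ω) / 2) P := fun δ =>
          ((hci s (a + step δ)).sub (hci s a)).div_const 2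
        have q2 : Integrable (fun ω => ∑ δ : Dir d, (cond hS f0 M hM s (a + step δ) ω * Z ω
            - cond hS f0 M hM s a ω * Z ω) / 2) P := integrable_finsetSum _ fun δ _ => q1 δ
        have q3 : ∫ ω, ∑ δ : Dir d, (cond hS f0 M hM s (a + step δ) ω * Z ω
            - cond hS f0 M hM s a ω * Z ω) / 2 ∂P = G2 := by
          rw [integral_finsetSum _ fun δ _ => q1 δ, hG2]
          refine Finset.sum_congr rfl fun δ _ => ?_
          rw [integral_div, integral_sub (hci s (a + step δ)) (hci s a)]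
        have q4 : R = fun ω => (cond hS f0 M hM t a ω * Z ω - cond hS f0 M hM s a ω * Z ω)
            - ((t : ℝ) - s) * ∑ δ : Dir d, (cond hS f0 M hM s (a + step δ) ω * Z ω
            - cond hS f0 M hM s a ω * Z ω) / 2 := by
          ext ω
          simp only [hR]
          rw [sub_mul, sub_mul, mul_assoc, Finset.sum_mul]
          congr 2
          exact Finset.sum_congr rfl fun δ _ => by ring
        have i1 : Integrable (fun ω => cond hS f0 M hM t a ω * Z ω
            - cond hS f0 M hM s a ω * Z ω) P := (hci t a).sub (hci s a)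
        have i2 : Integrable (fun ω => ((t : ℝ) - s) * ∑ δ : Dir d,
            (cond hS f0 M hM s (a + step δ) ω * Z ω - cond hS f0 M hM s a ω * Z ω) / 2) P :=
          q2.const_mul _
        rw [q4, integral_sub i1 i2, integral_sub (hci t a) (hci s a), integral_const_mul, q3]
      rw [← hRi]
      refine abs_integral_le_integral_abs.trans ?_
      have : ∫ ω, |R ω| ∂P ≤ ∫ _, C' * ((t : ℝ) - s) ^ 2 ∂P :=
        integral_mono_of_nonneg (Eventually.of_forall fun ω => abs_nonneg _)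
          (integrable_const _) (Eventually.of_forall fun ω => hRb ω)
      refine this.trans (le_of_eq ?_)
      simp
    have e3 : |G1 - G2| ≤ D * c := by
      have : G1 - G2 = ∑ δ : Dir d, (((∫ ω, F s (a + step δ) ω * Z ω ∂P)
          - ∫ ω, cond hS f0 M hM s (a + step δ) ω * Z ω ∂P)
          - ((∫ ω, F s a ω * Z ω ∂P) - ∫ ω, cond hS f0 M hM s a ω * Z ω ∂P)) / 2 := by
        rw [hG1, hG2, ← Finset.sum_sub_distrib]
        exact Finset.sum_congr rfl fun δ _ => by ring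
      rw [this]
      refine (Finset.abs_sum_le_sum_abs _ _).trans ?_
      have hle : ∀ δ ∈ (Finset.univ : Finset (Dir d)), |(((∫ ω, F s (a + step δ) ω * Z ω ∂P)
          - ∫ ω, cond hS f0 M hM s (a + step δ) ω * Z ω ∂P)
          - ((∫ ω, F s a ω * Z ω ∂P) - ∫ ω, cond hS f0 M hM s a ω * Z ω ∂P)) / 2| ≤ c := by
        intro δ _
        have h1 := abs_le.1 (hu (a + step δ))
        have h2 := abs_le.1 (hu a)
        rw [abs_le]; constructor <;> linarith
      refine (Finset.sum_le_sum hle).trans (le_of_eq ?_)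
      rw [Finset.sum_const, Finset.card_univ, nsmul_eq_mul]
    have e4 := hu a
    have e5 : ((t : ℝ) - s) * |G1 - G2| ≤ ((t : ℝ) - s) * (D * c) :=
      mul_le_mul_of_nonneg_left e3 hh
    set X1 := ∫ ω, F t a ω * Z ω ∂P
    set X2 := ∫ ω, F s a ω * Z ω ∂P
    set Y1 := ∫ ω, cond hS f0 M hM t a ω * Z ω ∂P
    set Y2 := ∫ ω, cond hS f0 M hM s a ω * Z ω ∂P
    have e6 : X1 - Y1 = (X1 - X2 - ((t : ℝ) - s) * G1) - (Y1 - Y2 - ((t : ℝ) - s) * G2)
        + (X2 - Y2) + ((t : ℝ) - s) * (G1 - G2) := by ring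
    rw [e6]
    have e7 := abs_add_le ((X1 - X2 - ((t : ℝ) - s) * G1) - (Y1 - Y2 - ((t : ℝ) - s) * G2)
      + (X2 - Y2)) (((t : ℝ) - s) * (G1 - G2))
    have e8 := abs_add_le ((X1 - X2 - ((t : ℝ) - s) * G1) - (Y1 - Y2 - ((t : ℝ) - s) * G2))
      (X2 - Y2)
    have e9 := abs_sub (X1 - X2 - ((t : ℝ) - s) * G1) (Y1 - Y2 - ((t : ℝ) - s) * G2)
    rw [abs_mul, abs_of_nonneg hh] at e7
    have e10 : (1 + D * ((t : ℝ) - s)) * c + (C + C') * ((t : ℝ) - s) ^ 2
        = C * ((t : ℝ) - s) ^ 2 + C' * ((t : ℝ) - s) ^ 2 + c + ((t : ℝ) - s) * (D * c) := by ring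
    rw [e10]
    linarith

end Cond

end Pool.Agent.EdgeAveraging
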