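import Mathlib
import Pool.Agent.Helper94.EA.Heat

open MeasureTheory ProbabilityTheory Filter Topology Set
open scoped NNReal ENNReal

set_option linter.unusedSectionVars false
set_option linter.unusedVariables false

namespace Pool.Agent.EdgeAveraging

variable {Ω : Type*} [mΩ : MeasurableSpace Ω] {P : Measure Ω} [IsProbabilityMeasure P]
  {d : ℕ} {f0 : Ω → Vertex d → ℝ} {N : Edge d → ℝ≥0 → Ω → ℕ}
  {F : ℝ≥0 → Vertex d → Ω → ℝ} {M : ℝ}

theorem gen_eq_lap_add_pert {m : Vertex d → Vertex d → ℝ}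
    (hinv : ∀ x y z, m (x + z) (y + z) = m x y) (hsymm : ∀ x y, m x y = m y x) (x : Vertex d) :
    gen m 0 x = lap (m 0) x + pert (m 0) x := by
  set φ : Vertex d → ℝ := m 0 with hφ
  have h1 : ∀ y z, m y z = φ (z - y) := by
    intro y z
    have := hinv 0 (z - y) y
    rw [zero_add, sub_add_cancel] at this
    rw [this]
  have h2 : ∀ y, φ (-y) = φ y := by
    intro y
    have := h1 y 0
    rw [zero_sub] at this
    rw [← this, hsymm y 0]
  rw [gen, lap, pert]
  have e1 : ∑ δ : Dir d, (m (0 + step δ) x - m 0 x) / 2 = ∑ δ : Dir d, (φ (x + step δ) - φ x) / 2 := by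
    rw [← Equiv.sum_comp opp fun δ : Dir d => (φ (x + step δ) - φ x) / 2]
    refine Finset.sum_congr rfl fun δ _ => ?_
    rw [h1 (0 + step δ) x, step_opp, zero_add, sub_eq_add_neg x]
  have e2 : ∑ δ : Dir d, (m 0 (x + step δ) - m 0 x) / 2
      = ∑ δ : Dir d, (φ (x + step δ) - φ x) / 2 := rfl
  have e3 : ∀ δ : Dir d, (∑ δ' : Dir d, if edgeAt 0 δ = edgeAt x δ' then
      (m (0 + step δ) (x + step δ') - m (0 + step δ) x - m 0 (x + step δ') + m 0 x) / 4 else 0)
      = (φ 0 - φ (step δ)) / 2 *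
    ((Pi.single 0 1 : Vertex d → ℝ) x - (Pi.single (step δ) 1 : Vertex d → ℝ) x) := by
    intro δ
    by_cases hx0 : x = 0
    · subst hx0
      have hc : ∀ δ' : Dir d, (edgeAt (0 : Vertex d) δ = edgeAt 0 δ' ↔ δ = δ') := fun δ' =>
        (edgeAt_injective 0).eq_iff
      simp only [hc]
      rw [Finset.sum_ite_eq, if_pos (Finset.mem_univ _), Pi.single_eq_same,
        Pi.single_eq_of_ne (step_ne_zero δ).symm, zero_add, h1 (step δ) (step δ),
        h1 (step δ) 0, sub_self, zero_sub, h2]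
      ring
    · by_cases hxs : x = step δ
      · subst hxs
        have hc : ∀ δ' : Dir d, (edgeAt (0 : Vertex d) δ = edgeAt (step δ) δ' ↔ opp δ = δ') := by
          intro δ'
          have := edgeAt_opp (0 : Vertex d) δ
          rw [zero_add] at this
          rw [← this]
          exact (edgeAt_injective (step δ)).eq_iff
        simp only [hc]
        rw [Finset.sum_ite_eq, if_pos (Finset.mem_univ _), Pi.single_eq_same,
          Pi.single_eq_of_ne (step_ne_zero δ), zero_add, step_opp, add_neg_cancel,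
          h1 (step δ) 0, h1 (step δ) (step δ), sub_self, zero_sub, h2]
        ring
      · have hc : ∀ δ' : Dir d, ¬ (edgeAt (0 : Vertex d) δ = edgeAt x δ') := by
          intro δ' he
          rw [edgeAt_eq_iff] at he
          rcases he with ⟨h3, _⟩ | ⟨h3, _⟩
          · exact hx0 h3
          · rw [zero_add] at h3; exact hxs h3
        simp only [hc, if_false, Finset.sum_const_zero]
        rw [Pi.single_eq_of_ne hx0, Pi.single_eq_of_ne hxs]
        ring
  rw [e1, e2, Finset.sum_congr rfl fun δ _ => e3 δ, ← Finset.sum_add_distrib]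
  congr 1
  exact Finset.sum_congr rfl fun δ _ => by ring

/-- autocovariance of the process -/
noncomputable def phi (P : Measure Ω) (F : ℝ≥0 → Vertex d → Ω → ℝ) (t : ℝ) (x : Vertex d) : ℝ :=
  mom P F t.toNNReal 0 x

/-- autocovariance of the heat flow -/
noncomputable def psi {μ : Measure (Vertex d → ℝ)} [IsProbabilityMeasure μ]
    (hS : IsSymMarkov μ (nnAvg d)) (M : ℝ) (hM : 0 ≤ M) (t : ℝ) (x : Vertex d) : ℝ :=
  ∫ g, (obs d M hM).1 g * (heatOp hS (2 * t.toNNReal) (obs d M hM)).1 (shift x g) ∂μ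

theorem toNNReal_diff {t h : ℝ} (ht : 0 ≤ t) (hh : 0 ≤ h) :
    t.toNNReal ≤ (t + h).toNNReal ∧ (((t + h).toNNReal : ℝ) - (t.toNNReal : ℝ)) = h := by
  refine ⟨Real.toNNReal_le_toNNReal (by linarith), ?_⟩
  rw [Real.coe_toNNReal _ (by linarith), Real.coe_toNNReal _ ht]
  ring

section

variable {μ : Measure (Vertex d → ℝ)} [IsProbabilityMeasure μ] {hS : IsSymMarkov μ (nnAvg d)}
  {hM : 0 ≤ M}

theorem integrable_shift (G H : BM (Vertex d → ℝ)) (x : Vertex d) :
    Integrable (fun g => G.1 g * H.1 (shift x g)) μ := by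
  obtain ⟨K, hK⟩ := G.2.2
  obtain ⟨L, hL⟩ := H.2.2
  refine Integrable.of_bound (C := K * L)
    ((BM.measurable G).mul ((BM.measurable H).comp (measurable_shift x))).aestronglyMeasurable
    (Eventually.of_forall fun g => ?_)
  rw [Real.norm_eq_abs, abs_mul]
  exact mul_le_mul (hK g) (hL _) (abs_nonneg _) ((abs_nonneg _).trans (hK g))

theorem psi_abs_le (t : ℝ) (x : Vertex d) : |psi hS M hM t x| ≤ M * M := by
  refine abs_integral_le_integral_abs.trans ?_
  have : ∫ g, |(obs d M hM).1 g * (heatOp hS (2 * t.toNNReal) (obs d M hM)).1 (shift x g)| ∂μ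
      ≤ ∫ _, M * M ∂μ := by
    refine integral_mono_of_nonneg (Eventually.of_forall fun ω => abs_nonneg _)
      (integrable_const _) (Eventually.of_forall fun g => ?_)
    show |(obs d M hM).1 g * (heatOp hS (2 * t.toNNReal) (obs d M hM)).1 (shift x g)| ≤ M * M
    rw [abs_mul]
    exact mul_le_mul (abs_clamp_le hM _) (heatOp_abs_le hS _ (fun g => abs_clamp_le hM _) _)
      (abs_nonneg _) hM
  refine this.trans (le_of_eq ?_)
  simp

theorem psi_euler [Nonempty (Dir d)] (hd : 0 < d) {t h : ℝ} (ht : 0 ≤ t) (hh : 0 ≤ h)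
    (hsmall : h ≤ 1 / (2 * d)) (x : Vertex d) :
    |psi hS M hM (t + h) x - psi hS M hM t x - h * lap (psi hS M hM t) x|
      ≤ (12 * d ^ 2 * M ^ 2) * h ^ 2 := by
  have hd' : (0 : ℝ) < d := by exact_mod_cast hd
  obtain ⟨h1, h2⟩ := toNNReal_diff ht hh
  set s' : ℝ≥0 := 2 * t.toNNReal with hs'
  set t' : ℝ≥0 := 2 * (t + h).toNNReal with ht'
  have h3 : s' ≤ t' := mul_le_mul_right h1 _
  have h4 : (t' : ℝ) - s' = 2 * h := by
    rw [hs', ht']; push_cast; linarith
  have h5 : ((t' : ℝ) - s') * d ≤ 1 := by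
    rw [h4]
    have := (le_div_iff₀ (by positivity : (0 : ℝ) < 2 * d)).1 hsmall
    linarith
  set O := obs d M hM with hO
  set G := heatOp hS s' O with hG
  set H := heatOp hS t' O with hH
  set R : (Vertex d → ℝ) → ℝ := fun g => O.1 g * (H.1 (shift x g) - G.1 (shift x g)
    - 2 * h * ∑ δ : Dir d, (G.1 (shift (x + step δ) g) - G.1 (shift x g)) / 2) with hR
  have hRb : ∀ g, |R g| ≤ (12 * d ^ 2 * M ^ 2) * h ^ 2 := by
    intro g
    have e1 := heatOp_euler hd hS h3 h5 (G := O) (K := M) (fun g => abs_clamp_le hM _) x g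
    rw [h4, ← hG, ← hH] at e1
    have e2 : |R g| ≤ M * (3 * (2 * h * d) ^ 2 * M) := by
      rw [hR, abs_mul]
      exact mul_le_mul (abs_clamp_le hM _) e1 (abs_nonneg _) hM
    refine e2.trans (le_of_eq ?_)
    ring
  have hi := fun (K L : BM (Vertex d → ℝ)) y => integrable_shift (μ := μ) K L y
  have hRi : ∫ g, R g ∂μ = psi hS M hM (t + h) x - psi hS M hM t x
      - h * lap (psi hS M hM t) x := by
    have q1 : ∀ δ : Dir d, Integrable (fun g => O.1 g * G.1 (shift (x + step δ) g)
        - O.1 g * G.1 (shift x g)) μ := fun δ => (hi O G _).sub (hi O G x)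
    have q2 : Integrable (fun g => ∑ δ : Dir d, (O.1 g * G.1 (shift (x + step δ) g)
        - O.1 g * G.1 (shift x g))) μ := integrable_finsetSum _ fun δ _ => q1 δ
    have q3 : ∫ g, ∑ δ : Dir d, (O.1 g * G.1 (shift (x + step δ) g)
        - O.1 g * G.1 (shift x g)) ∂μ = lap (psi hS M hM t) x := by
      rw [integral_finsetSum _ fun δ _ => q1 δ, lap]
      refine Finset.sum_congr rfl fun δ _ => ?_
      rw [integral_sub (hi O G _) (hi O G x)]
      rfl
    have q4 : R = fun g => (O.1 g * H.1 (shift x g) - O.1 g * G.1 (shift x g))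
        - h * ∑ δ : Dir d, (O.1 g * G.1 (shift (x + step δ) g) - O.1 g * G.1 (shift x g)) := by
      ext g
      simp only [hR]
      rw [← Finset.sum_div]
      simp_rw [← mul_sub]
      rw [← Finset.mul_sum]
      ring
    have i1 : Integrable (fun g => O.1 g * H.1 (shift x g) - O.1 g * G.1 (shift x g)) μ :=
      (hi O H x).sub (hi O G x)
    have i2 : Integrable (fun g => h * ∑ δ : Dir d, (O.1 g * G.1 (shift (x + step δ) g)
        - O.1 g * G.1 (shift x g))) μ := q2.const_mul _
    rw [q4, integral_sub i1 i2, integral_sub (hi O H x) (hi O G x), integral_const_mul, q3]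
    rfl
  rw [← hRi]
  refine abs_integral_le_integral_abs.trans ?_
  have : ∫ g, |R g| ∂μ ≤ ∫ _, (12 * d ^ 2 * M ^ 2) * h ^ 2 ∂μ :=
    integral_mono_of_nonneg (Eventually.of_forall fun ω => abs_nonneg _)
      (integrable_const _) (Eventually.of_forall fun ω => hRb ω)
  refine this.trans (le_of_eq ?_)
  simp

end

namespace IsModel

theorem phi_euler (h : IsModel P f0 N F M) (hb : ∀ᵐ ω ∂P, ∀ v, |f0 ω v| ≤ M)
    (hst : IsStationaryField P f0) {t k : ℝ} (ht : 0 ≤ t) (hk : 0 ≤ k) (x : Vertex d) :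
    |phi P F (t + k) x - phi P F t x - k * (lap (phi P F t) x + pert (phi P F t) x)|
      ≤ (M ^ 2 * (1 + Fintype.card (Dir d)) ^ 2 * (8 * (Fintype.card (Dir d) : ℝ) ^ 4 + 1))
        * k ^ 2 := by
  obtain ⟨h1, h2⟩ := toNNReal_diff ht hk
  have h3 := h.euler_pair h1 0 x
  rw [h2, gen_eq_lap_add_pert (fun a b c => h.mom_shift hb hst _ a b c)
    (fun a b => mom_symm _ a b)] at h3
  exact h3

theorem phi_step_le (h : IsModel P f0 N F M) (hb : ∀ᵐ ω ∂P, ∀ v, |f0 ω v| ≤ M)
    (hst : IsStationaryField P f0) (t : ℝ) (x : Vertex d) : phi P F t x ≤ phi P F t 0 := by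
  rw [phi, phi]
  set s := t.toNNReal
  have h1 : mom P F s x x = mom P F s 0 0 := by
    have := h.mom_shift hb hst s 0 0 x
    rwa [zero_add] at this
  have hi : ∀ x y, Integrable (fun ω => F s x ω * F s y ω) P := by
    intro x y
    refine integrable_of_bound' (K := M * M) ((h.meas' s x).mul (h.meas' s y)) fun ω => ?_
    rw [abs_mul]
    exact mul_le_mul (h.bound _ _ _) (h.bound _ _ _) (abs_nonneg _) h.nonneg
  have h2 : mom P F s 0 x ≤ (mom P F s 0 0 + mom P F s x x) / 2 := by
    rw [mom, mom, mom, ← integral_add (hi _ _) (hi _ _), ← integral_div]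
    refine integral_mono (hi _ _) (((hi _ _).add (hi _ _)).div_const _) fun ω => ?_
    simp only
    nlinarith [sq_nonneg (F s 0 ω - F s x ω)]
  rw [h1] at h2
  linarith

theorem phi_nonneg (h : IsModel P f0 N F M) (t : ℝ) : 0 ≤ phi P F t 0 :=
  integral_nonneg fun ω => mul_self_nonneg _

end IsModel

end Pool.Agent.EdgeAveraging
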