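import Mathlib
import Pool.Agent.Helper94.EA.Defect

open MeasureTheory ProbabilityTheory Filter Topology Set
open scoped NNReal ENNReal

set_option linter.unusedSectionVars false
set_option linter.unusedVariables false

namespace Pool.Agent.EdgeAveraging

variable {Ω : Type*} [mΩ : MeasurableSpace Ω] {P : Measure Ω} [IsProbabilityMeasure P]
  {d : ℕ} {f0 : Ω → Vertex d → ℝ} {N : Edge d → ℝ≥0 → Ω → ℕ}
  {F : ℝ≥0 → Vertex d → Ω → ℝ} {M : ℝ}

theorem shiftInv_of_stationary (hf0 : Measurable f0) (hst : IsStationaryField P f0) :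
    ShiftInv (P.map f0) := by
  intro x
  rw [Measure.map_map (measurable_shift x) hf0]
  exact hst x

theorem psi_zero_eq [Nonempty (Dir d)] {μ : Measure (Vertex d → ℝ)} [IsProbabilityMeasure μ]
    {hS : IsSymMarkov μ (nnAvg d)} {hM : 0 ≤ M} (t : ℝ) :
    psi hS M hM t 0 = ∫ g, (heatOp hS t.toNNReal (obs d M hM)).1 g ^ 2 ∂μ := by
  rw [psi]
  simp_rw [shift_zero]
  rw [two_mul, heatOp_add]
  rw [← (isSymMarkov_heatOp hS t.toNNReal).symm]
  simp_rw [pow_two]

theorem psi_antitone [Nonempty (Dir d)] {μ : Measure (Vertex d → ℝ)} [IsProbabilityMeasure μ]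
    {hS : IsSymMarkov μ (nnAvg d)} {hM : 0 ≤ M} {s t : ℝ} (hs : 0 ≤ s) (hst : s ≤ t) :
    psi hS M hM t 0 ≤ psi hS M hM s 0 := by
  rw [psi_zero_eq, psi_zero_eq]
  obtain ⟨r, hr⟩ := exists_add_of_le (Real.toNNReal_le_toNNReal hst)
  rw [hr, add_comm, heatOp_add]
  exact (isSymMarkov_heatOp hS r).integral_sq_le _

namespace IsModel

variable [Nonempty (Dir d)] {hS : IsSymMarkov (P.map f0) (nnAvg d)} [IsProbabilityMeasure (P.map f0)]

theorem defect_eq (h : IsModel P f0 N F M) (hd : 0 < d) (hb : ∀ᵐ ω ∂P, ∀ v, |f0 ω v| ≤ M)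
    (hst : IsStationaryField P f0) (t : ℝ) (v : Vertex d) :
    ∫ ω, (F t.toNNReal v ω - cond hS f0 M h.nonneg t.toNNReal v ω) ^ 2 ∂P
      = phi P F t 0 - psi hS M h.nonneg t 0 := by
  set s := t.toNNReal with hs
  set U := cond hS f0 M h.nonneg s v with hU
  have hUm : Measurable U := (measurable_cond (N := N) s v).mono (h.driving.past_le 0) le_rfl
  have hUb : ∀ ω, |U ω| ≤ M := fun ω => cond_abs_le _ _ _
  have hFm := h.meas' s v
  have hFb := h.bound s v
  have hmulb : ∀ a b : ℝ, |a| ≤ M → |b| ≤ M → |a * b| ≤ M * M := by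
    intro a b ha hb
    rw [abs_mul]
    exact mul_le_mul ha hb (abs_nonneg _) h.nonneg
  have i1 : Integrable (fun ω => F s v ω * F s v ω) P :=
    integrable_of_bound' (hFm.mul hFm) fun ω => hmulb _ _ (hFb ω) (hFb ω)
  have i2 : Integrable (fun ω => F s v ω * U ω) P :=
    integrable_of_bound' (hFm.mul hUm) fun ω => hmulb _ _ (hFb ω) (hUb ω)
  have i3 : Integrable (fun ω => U ω * U ω) P :=
    integrable_of_bound' (hUm.mul hUm) fun ω => hmulb _ _ (hUb ω) (hUb ω)
  have h1 : ∫ ω, (F s v ω - U ω) ^ 2 ∂P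
      = (∫ ω, F s v ω * F s v ω ∂P) - 2 * (∫ ω, F s v ω * U ω ∂P) + ∫ ω, U ω * U ω ∂P := by
    have i4 : Integrable (fun ω => F s v ω * F s v ω - 2 * (F s v ω * U ω)) P :=
      i1.sub (i2.const_mul 2)
    rw [← integral_const_mul, ← integral_sub i1 (i2.const_mul 2), ← integral_add i4 i3]
    refine integral_congr_ae (Eventually.of_forall fun ω => ?_)
    simp only
    ring
  have h2 : ∫ ω, F s v ω * U ω ∂P = ∫ ω, U ω * U ω ∂P :=
    h.cross hd hb (measurable_cond (N := N) s v) h.nonneg hUb s v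
  have h3 : ∫ ω, F s v ω * F s v ω ∂P = phi P F t 0 := by
    have := h.mom_shift hb hst s 0 0 v
    rw [zero_add] at this
    exact this
  have h4 : ∫ ω, U ω * U ω ∂P = psi hS M h.nonneg t 0 := by
    rw [psi_zero_eq]
    have hg : Measurable fun g : Vertex d → ℝ => (heatOp hS s (obs d M h.nonneg)).1 g ^ 2 :=
      (BM.measurable _).pow_const 2
    have h5 := integral_shift_eq h.driving.measurable_init hst v hg
    rw [integral_map h.driving.measurable_init.aemeasurable hg.aestronglyMeasurable, ← h5]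
    simp_rw [pow_two]
    rfl
  rw [h1, h2, h3, h4]
  ring

theorem sum_defect (h : IsModel P f0 N F M) (hd : 0 < d) (hb : ∀ᵐ ω ∂P, ∀ v, |f0 ω v| ≤ M)
    (hst : IsStationaryField P f0) {a : ℝ≥0} (ha : 0 < a) (v : Vertex d) (n : ℕ) :
    ∑ k ∈ Finset.range n, ∫ ω, (F ((k + 1 : ℕ) * a) v ω
      - cond hS f0 M h.nonneg ((k + 1 : ℕ) * a) v ω) ^ 2 ∂P ≤ M * M / a + M * M := by
  have hd' : (0 : ℝ) < d := by exact_mod_cast hd
  set C1 : ℝ := M ^ 2 * (1 + Fintype.card (Dir d)) ^ 2 * (8 * (Fintype.card (Dir d) : ℝ) ^ 4 + 1)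
    with hC1
  set C2 : ℝ := 12 * d ^ 2 * M ^ 2 with hC2
  have hneg1 : ∀ t : ℝ, t ≤ 0 → phi P F t = phi P F 0 := by
    intro t ht
    ext x
    rw [phi, phi, Real.toNNReal_of_nonpos ht, Real.toNNReal_zero]
  have hneg2 : ∀ t : ℝ, t ≤ 0 → psi hS M h.nonneg t = psi hS M h.nonneg 0 := by
    intro t ht
    ext x
    rw [psi, psi, Real.toNNReal_of_nonpos ht, Real.toNNReal_zero]
  have hge : ∀ t : ℝ, 0 ≤ t → psi hS M h.nonneg t 0 ≤ phi P F t 0 := by
    intro t _
    have h1 := h.defect_eq (hS := hS) hd hb hst t 0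
    have h2 : 0 ≤ ∫ ω, (F t.toNNReal 0 ω - cond hS f0 M h.nonneg t.toNNReal 0 ω) ^ 2 ∂P :=
      integral_nonneg fun ω => sq_nonneg _
    linarith
  have h00 : ∀ x, phi P F 0 x = psi hS M h.nonneg 0 x := by
    intro x
    rw [phi, Real.toNNReal_zero, h.mom_zero hb, psi, Real.toNNReal_zero, mul_zero, heatOp_zero]
    have hg : Measurable fun g : Vertex d → ℝ => (obs d M h.nonneg).1 g
        * (obs d M h.nonneg).1 (shift x g) :=
      (BM.measurable _).mul ((BM.measurable _).comp (measurable_shift x))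
    rw [integral_map h.driving.measurable_init.aemeasurable hg.aestronglyMeasurable]
    refine integral_congr_ae (Eventually.of_forall fun ω => ?_)
    simp only [obs_apply, shift, zero_add]
  have hcmp := fun {T : ℝ} (hT : 0 ≤ T) =>
    comparison (φ := phi P F) (ψ := psi hS M h.nonneg) (C0 := M * M)
    (C := max C1 C2) (h0 := 1 / (2 * d)) (by positivity) hneg1 hneg2
    (fun t x => h.mom_abs_le _ _ _) (fun t x => psi_abs_le t x)
    (fun t ht k hk _ x => (h.phi_euler hb hst ht hk x).trans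
      (mul_le_mul_of_nonneg_right (le_max_left _ _) (sq_nonneg k)))
    (fun t ht k hk hk2 x => (psi_euler hd ht hk hk2 x).trans
      (mul_le_mul_of_nonneg_right (le_max_right _ _) (sq_nonneg k)))
    h00 (fun t _ δ => h.phi_step_le hb hst t _) (fun t _ => h.phi_nonneg t) hge hT
  have hA := (hcmp le_rfl).1
  have hB := (hcmp le_rfl).2.1
  have hAanti : ∀ s t : ℝ, 0 ≤ s → s ≤ t → phi P F t 0 ≤ phi P F s 0 := by
    intro s t hs hst'
    refine antitoneOn_of_right_deriv (y := fun t => phi P F t 0)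
      (y' := fun t => lap (phi P F t) 0 + pert (phi P F t) 0) hA ?_ ?_ hs hst'
    · intro t ht
      exact hasDerivWithinAt_of_euler (C := C1) (h0 := 1) one_pos
        (fun k hk _ => h.phi_euler hb hst ht hk 0)
    · intro t ht
      rw [lap_add_pert_zero, neg_nonpos]
      refine Finset.sum_nonneg fun δ _ => ?_
      have := h.phi_step_le hb hst t (EdgeAveraging.step δ)
      linarith
  have hsum := sum_grid_le hA hB hAanti (fun s t hs hst' => psi_antitone hs hst')
    (K := M * M) (fun T hT => ((hcmp hT).2.2).trans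
      ((le_abs_self _).trans (h.mom_abs_le _ _ _)))
    (fun t ht => by rw [psi_zero_eq]; exact integral_nonneg fun g => sq_nonneg _)
    (a := (a : ℝ)) (by exact_mod_cast ha) n
  have hterm : ∀ k ∈ Finset.range n, ∫ ω, (F ((k + 1 : ℕ) * a) v ω
      - cond hS f0 M h.nonneg ((k + 1 : ℕ) * a) v ω) ^ 2 ∂P
      = phi P F ((k + 1 : ℕ) * a) 0 - psi hS M h.nonneg ((k + 1 : ℕ) * a) 0 := by
    intro k _
    have h1 := h.defect_eq (hS := hS) hd hb hst (((k + 1 : ℕ) : ℝ) * a) v
    have h2 : (((k + 1 : ℕ) : ℝ) * a).toNNReal = ((k + 1 : ℕ) * a : ℝ≥0) := by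
      rw [← NNReal.coe_inj, Real.coe_toNNReal _ (by positivity)]
      push_cast
      ring
    rw [h2] at h1
    exact h1
  rw [Finset.sum_congr rfl hterm]
  refine hsum.trans (add_le_add le_rfl ?_)
  exact (le_abs_self _).trans (psi_abs_le 0 0)

end IsModel

end Pool.Agent.EdgeAveraging
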