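import Mathlib
import Pool.Agent.Helper94.EA.Defect2

open MeasureTheory ProbabilityTheory Filter Topology Set
open scoped NNReal ENNReal

set_option linter.unusedSectionVars false
set_option linter.unusedVariables false

namespace Pool.Agent.EdgeAveraging

variable {Ω : Type*} [mΩ : MeasurableSpace Ω] {P : Measure Ω} [IsProbabilityMeasure P]
  {d : ℕ} {f0 : Ω → Vertex d → ℝ} {N : Edge d → ℝ≥0 → Ω → ℕ}
  {F : ℝ≥0 → Vertex d → Ω → ℝ} {M : ℝ}

/-- nothing happens at `x` while no edge at `x` rings -/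
def Stays (P : Measure Ω) (N : Edge d → ℝ≥0 → Ω → ℕ) (F : ℝ≥0 → Vertex d → Ω → ℝ) : Prop :=
  ∀ s t, s ≤ t → ∀ x, ∀ᵐ ω ∂P, (∀ δ : Dir d, ¬ (1 ≤ N (edgeAt x δ) t ω - N (edgeAt x δ) s ω)) →
    F t x ω = F s x ω

theorem IsEdgeAveragingProcess.stays {f : ℝ≥0 → Ω → Vertex d → ℝ}
    (h : IsEdgeAveragingProcess P f0 N f) {M : ℝ} (hM : 0 ≤ M)
    (hb : ∀ᵐ ω ∂P, ∀ v, |f0 ω v| ≤ M) : Stays P N (canon f0 N M) := by
  intro s t hst x
  have hmono : ∀ᵐ ω ∂P, ∀ e, Monotone (fun t => N e t ω) :=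
    ae_all_iff.2 fun e => (h.clock e).monotone
  filter_upwards [h.path, hmono, h.ae_eq_canon hM hb s x, h.ae_eq_canon hM hb t x]
    with ω hp h1 h4 h5 hno
  rw [← h4, ← h5]
  refine hp.eq_of_no_ring h1 hst fun δ => ?_
  have h2 := hno δ
  have h3 := h1 (edgeAt x δ) hst
  simp only at h3
  omega

/-- Ottaviani type maximal inequality on a grid -/
theorem IsModel.ottaviani (h : IsModel P f0 N F M) (hs : Stays P N F) (v : Vertex d)
    {τ : ℕ → ℝ≥0} (hτ : Monotone τ) {p q : ℕ} (hpq : p ≤ q)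
    (hsmall : (Fintype.card (Dir d) : ℝ) * ((τ q : ℝ) - τ p) ≤ 1 / 2)
    {W : Ω → ℝ} (hW : Measurable[past f0 N 0] W) (δ : ℝ) :
    P.real {ω | ∃ i, p ≤ i ∧ i ≤ q ∧ δ < |F (τ i) v ω - W ω|}
      ≤ 2 * P.real {ω | δ < |F (τ q) v ω - W ω|} := by
  classical
  set B : ℕ → Set Ω := fun i => {ω | δ < |F (τ i) v ω - W ω|} with hB
  have hBm : ∀ i, MeasurableSet[past f0 N (τ i)] (B i) := by
    intro i
    have h1 : Measurable[past f0 N (τ i)] fun ω => |F (τ i) v ω - W ω| := by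
      have h2 : Measurable[past f0 N (τ i)] W := hW.mono (past_mono zero_le) le_rfl
      exact continuous_abs.measurable.comp ((h.meas (τ i) v).fun_sub h2)
    exact h1 (measurableSet_Ioi (a := δ))
  set A : ℕ → Set Ω := fun i => B i \ ⋃ j ∈ Finset.Ico p i, B j with hA
  have hAm : ∀ i, MeasurableSet[past f0 N (τ i)] (A i) := by
    intro i
    refine @MeasurableSet.diff _ (past f0 N (τ i)) _ _ (hBm i) ?_
    refine @Finset.measurableSet_biUnion _ _ (past f0 N (τ i)) _ _ fun j hj => ?_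
    exact past_mono (hτ (Finset.mem_Ico.1 hj).2.le) _ (hBm j)
  have hAm' : ∀ i, MeasurableSet (A i) := fun i => h.driving.past_le _ _ (hAm i)
  have hBm' : ∀ i, MeasurableSet (B i) := fun i => h.driving.past_le _ _ (hBm i)
  have hdisj : ∀ i j, i ∈ Finset.Icc p q → j ∈ Finset.Icc p q → i ≠ j → Disjoint (A i) (A j) := by
    have key : ∀ i j, p ≤ i → i < j → Disjoint (A i) (A j) := by
      intro i j hpi hij
      rw [Set.disjoint_left]
      rintro ω ⟨h1, _⟩ ⟨_, h2⟩
      refine h2 ?_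
      simp only [mem_iUnion]
      exact ⟨i, Finset.mem_Ico.2 ⟨hpi, hij⟩, h1⟩
    intro i j hi hj hij
    rcases lt_or_gt_of_ne hij with h1 | h1
    · exact key i j (Finset.mem_Icc.1 hi).1 h1
    · exact (key j i (Finset.mem_Icc.1 hj).1 h1).symm
  have hunion : {ω | ∃ i, p ≤ i ∧ i ≤ q ∧ δ < |F (τ i) v ω - W ω|}
      = ⋃ i ∈ Finset.Icc p q, A i := by
    ext ω
    simp only [mem_ofPred_eq, mem_iUnion]
    constructor
    · rintro hex
      have hex' : ∃ i, p ≤ i ∧ i ≤ q ∧ ω ∈ B i := hex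
      have hspec := Nat.find_spec hex'
      refine ⟨Nat.find hex', Finset.mem_Icc.2 ⟨hspec.1, hspec.2.1⟩, hspec.2.2, ?_⟩
      simp only [mem_iUnion, not_exists]
      intro j hj hj2
      have h1 := Finset.mem_Ico.1 hj
      exact Nat.find_min hex' h1.2 ⟨h1.1, h1.2.le.trans hspec.2.1, hj2⟩
    · rintro ⟨i, hi, h1, _⟩
      exact ⟨i, (Finset.mem_Icc.1 hi).1, (Finset.mem_Icc.1 hi).2, h1⟩
  have hkey : ∀ i ∈ Finset.Icc p q, P.real (A i) ≤ 2 * P.real (A i ∩ B q) := by
    intro i hi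
    obtain ⟨hpi, hiq⟩ := Finset.mem_Icc.1 hi
    have h1 : P.real (A i) = P.real (A i ∩ B q) + P.real (A i \ B q) :=
      (measureReal_inter_add_sdiff (hBm' q)).symm
    set Rg : Dir d → Set Ω := fun δ' =>
      {ω | 1 ≤ N (edgeAt v δ') (τ q) ω - N (edgeAt v δ') (τ i) ω} with hRg
    have h2 : P.real (A i \ B q) ≤ P.real (⋃ δ' : Dir d, (A i ∩ Rg δ')) := by
      refine ENNReal.toReal_mono (measure_ne_top _ _) (measure_mono_ae ?_)
      filter_upwards [hs (τ i) (τ q) (hτ hiq) v] with ω hω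
      rintro ⟨h3, h4⟩
      show ω ∈ ⋃ δ' : Dir d, (A i ∩ Rg δ')
      by_contra hcon
      simp only [mem_iUnion, mem_inter_iff, not_exists, not_and] at hcon
      have h5 := hω fun δ' => hcon δ' h3
      refine h4 ?_
      show δ < |F (τ q) v ω - W ω|
      rw [h5]
      exact h3.1
    have h3 : P.real (⋃ δ' : Dir d, (A i ∩ Rg δ')) ≤ ∑ δ' : Dir d, P.real (A i ∩ Rg δ') :=
      measureReal_iUnion_fintype_le _
    have h4 : ∀ δ' ∈ (Finset.univ : Finset (Dir d)),
        P.real (A i ∩ Rg δ') ≤ P.real (A i) * ((τ q : ℝ) - τ p) := by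
      intro δ' _
      rw [h.driving.measure_inter_ring (hτ hiq) (edgeAt v δ') (hAm i)]
      refine mul_le_mul_of_nonneg_left ?_ measureReal_nonneg
      refine ((h.driving.clock _).ring_prob_le (hτ hiq)).trans ?_
      have : (τ p : ℝ) ≤ τ i := by exact_mod_cast hτ hpi
      linarith
    have h5 := h2.trans (h3.trans (Finset.sum_le_sum h4))
    rw [Finset.sum_const, Finset.card_univ, nsmul_eq_mul] at h5
    have h6 : (Fintype.card (Dir d) : ℝ) * (P.real (A i) * ((τ q : ℝ) - τ p))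
        ≤ P.real (A i) * (1 / 2) := by
      have := mul_le_mul_of_nonneg_left hsmall (measureReal_nonneg (μ := P) (s := A i))
      linarith
    linarith
  rw [hunion]
  have h1 : P.real (⋃ i ∈ Finset.Icc p q, A i) ≤ ∑ i ∈ Finset.Icc p q, P.real (A i) :=
    measureReal_biUnion_finset_le _ _
  refine h1.trans ((Finset.sum_le_sum hkey).trans ?_)
  rw [← Finset.mul_sum]
  refine mul_le_mul_of_nonneg_left ?_ zero_le_two
  rw [← measureReal_biUnion_finset]
  · refine measureReal_mono ?_ (measure_ne_top _ _)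
    intro ω hω
    simp only [mem_iUnion] at hω
    obtain ⟨i, _, hi⟩ := hω
    exact hi.2
  · intro i hi j hj hij
    exact (hdisj i j hi hj hij).mono inter_subset_left inter_subset_left
  · intro i _
    exact (hAm' i).inter (hBm' q)

end Pool.Agent.EdgeAveraging
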