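import Mathlib
import Pool.Agent.Helper94.EA.Maximal

open MeasureTheory ProbabilityTheory Filter Topology Set
open scoped NNReal ENNReal

set_option linter.unusedSectionVars false
set_option linter.unusedVariables false

namespace Pool.Agent.EdgeAveraging

variable {Ω : Type*} [mΩ : MeasurableSpace Ω] {P : Measure Ω} [IsProbabilityMeasure P]
  {d : ℕ} {f0 : Ω → Vertex d → ℝ} {N : Edge d → ℝ≥0 → Ω → ℕ}
  {F : ℝ≥0 → Vertex d → Ω → ℝ} {M : ℝ}

theorem ugrid_block (a : ℝ≥0) (m n : ℕ) : ugrid a (2 ^ m) (n * 2 ^ m) = n * a := by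
  rw [ugrid]
  push_cast
  have : (2 : ℝ≥0) ^ m ≠ 0 := by positivity
  field_simp

theorem ugrid_double (a : ℝ≥0) (m i : ℕ) : ugrid a (2 ^ (m + 1)) (2 * i) = ugrid a (2 ^ m) i := by
  rw [ugrid, ugrid]
  push_cast
  have : (2 : ℝ≥0) ^ m ≠ 0 := by positivity
  rw [pow_succ]
  field_simp

/-- between `t < u` there is a dyadic grid point -/
theorem exists_dyadic {a : ℝ≥0} (ha : 0 < a) {n : ℕ} {t u : ℝ≥0} (h1 : n * a ≤ t) (h2 : t < u)
    (h3 : u ≤ (n + 1 : ℕ) * a) :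
    ∃ m i : ℕ, n * 2 ^ m ≤ i ∧ i ≤ (n + 1) * 2 ^ m ∧ t < ugrid a (2 ^ m) i ∧
      ugrid a (2 ^ m) i ≤ u := by
  have ha' : (0 : ℝ) < a := by exact_mod_cast ha
  have h2' : (t : ℝ) < u := by exact_mod_cast h2
  obtain ⟨m, hm⟩ := exists_pow_lt_of_lt_one (div_pos (sub_pos.2 h2') ha')
    (show (1 / 2 : ℝ) < 1 by norm_num)
  have hm' : (a : ℝ) / 2 ^ m < u - t := by
    rw [lt_div_iff₀ ha'] at hm
    calc (a : ℝ) / 2 ^ m = (1 / 2) ^ m * a := by rw [one_div, inv_pow]; ring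
      _ < u - t := hm
  have hpos : (0 : ℝ) < (a : ℝ) / 2 ^ m := by positivity
  set i := ⌊(t : ℝ) / ((a : ℝ) / 2 ^ m)⌋₊ + 1 with hi
  have hfl := Nat.floor_le (show (0 : ℝ) ≤ (t : ℝ) / ((a : ℝ) / 2 ^ m) by positivity)
  have hlt := Nat.lt_floor_add_one ((t : ℝ) / ((a : ℝ) / 2 ^ m))
  rw [div_lt_iff₀ hpos] at hlt
  rw [le_div_iff₀ hpos] at hfl
  have hval : ((ugrid a (2 ^ m) i : ℝ≥0) : ℝ)
      = ((⌊(t : ℝ) / ((a : ℝ) / 2 ^ m)⌋₊ : ℝ) + 1) * ((a : ℝ) / 2 ^ m) := by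
    rw [ugrid, hi]
    push_cast
    ring
  have hgt : t < ugrid a (2 ^ m) i := by
    rw [← NNReal.coe_lt_coe, hval]
    exact hlt
  have hle : ugrid a (2 ^ m) i ≤ u := by
    rw [← NNReal.coe_le_coe, hval, add_mul, one_mul]
    linarith
  refine ⟨m, i, ?_, ?_, hgt, hle⟩
  · by_contra hcon
    push Not at hcon
    have := ugrid_mono a (2 ^ m) hcon.le
    rw [ugrid_block] at this
    exact absurd (hgt.trans_le this) (not_lt.2 h1)
  · by_contra hcon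
    push Not at hcon
    have hlt2 : ugrid a (2 ^ m) ((n + 1) * 2 ^ m) < ugrid a (2 ^ m) i := by
      rw [ugrid, ugrid]
      refine mul_lt_mul_of_pos_right (by exact_mod_cast hcon) ?_
      have : (0 : ℝ≥0) < (2 ^ m : ℕ) := by positivity
      exact div_pos ha this
    rw [ugrid_block] at hlt2
    exact absurd (hlt2.trans_le hle) (not_lt.2 h3)

theorem prob_gt_le {X : Ω → ℝ} (hX : Measurable X) {K : ℝ} (hb : ∀ ω, |X ω| ≤ K) {δ : ℝ}
    (hδ : 0 < δ) : P.real {ω | δ < |X ω|} ≤ (∫ ω, X ω ^ 2 ∂P) / δ ^ 2 := by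
  have hi : Integrable (fun ω => X ω ^ 2) P := by
    refine Integrable.of_bound (C := K ^ 2) (hX.pow_const 2).aestronglyMeasurable
      (Eventually.of_forall fun ω => ?_)
    rw [Real.norm_eq_abs, abs_pow]
    exact pow_le_pow_left₀ (abs_nonneg _) (hb ω) 2
  have h1 := mul_meas_ge_le_integral_of_nonneg (μ := P)
    (Eventually.of_forall fun ω => sq_nonneg (X ω)) hi (δ ^ 2)
  rw [le_div_iff₀ (by positivity), mul_comm]
  refine le_trans (mul_le_mul_of_nonneg_left ?_ (sq_nonneg δ)) h1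
  refine measureReal_mono ?_ (measure_ne_top _ _)
  intro ω hω
  have h2 : δ < |X ω| := hω
  show δ ^ 2 ≤ X ω ^ 2
  rw [← sq_abs (X ω)]
  exact pow_le_pow_left₀ hδ.le h2.le 2

/-- the bad event of a block -/
def blockBad (F : ℝ≥0 → Vertex d → Ω → ℝ) (W : ℕ → Ω → ℝ) (a : ℝ≥0) (v : Vertex d) (δ : ℝ)
    (n : ℕ) : Set Ω :=
  ⋃ m : ℕ, {ω | ∃ i, n * 2 ^ m ≤ i ∧ i ≤ (n + 1) * 2 ^ m ∧
    δ < |F (ugrid a (2 ^ m) i) v ω - W n ω|}

theorem IsModel.blockBad_le (h : IsModel P f0 N F M) (hs : Stays P N F) {a : ℝ≥0}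
    (hsmall : (Fintype.card (Dir d) : ℝ) * a ≤ 1 / 2)
    {W : ℕ → Ω → ℝ} (hW : ∀ n, Measurable[past f0 N 0] (W n)) (hWb : ∀ n ω, |W n ω| ≤ M)
    (v : Vertex d) {δ : ℝ} (hδ : 0 < δ) (n : ℕ) :
    P (blockBad F W a v δ n)
      ≤ ENNReal.ofReal (2 / δ ^ 2 * ∫ ω, (F ((n + 1 : ℕ) * a) v ω - W n ω) ^ 2 ∂P) := by
  have hmono : Monotone fun m : ℕ => {ω | ∃ i, n * 2 ^ m ≤ i ∧ i ≤ (n + 1) * 2 ^ m ∧
      δ < |F (ugrid a (2 ^ m) i) v ω - W n ω|} := by
    refine monotone_nat_of_le_succ fun m => ?_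
    rintro ω ⟨i, h1, h2, h3⟩
    refine ⟨2 * i, ?_, ?_, ?_⟩
    · rw [pow_succ]; linarith
    · rw [pow_succ]; linarith
    · rw [ugrid_double]; exact h3
  rw [blockBad, hmono.measure_iUnion]
  refine iSup_le fun m => ?_
  have hpq : n * 2 ^ m ≤ (n + 1) * 2 ^ m := Nat.mul_le_mul_right _ (Nat.le_succ n)
  have hlen : ((ugrid a (2 ^ m) ((n + 1) * 2 ^ m) : ℝ≥0) : ℝ)
      - (ugrid a (2 ^ m) (n * 2 ^ m) : ℝ≥0) = a := by
    rw [ugrid_block, ugrid_block]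
    push_cast
    ring
  have h1 := h.ottaviani hs v (ugrid_mono a (2 ^ m)) hpq (by rw [hlen]; exact hsmall) (hW n) δ
  rw [ugrid_block] at h1
  have hWm : Measurable (W n) := (hW n).mono (h.driving.past_le 0) le_rfl
  have h2 := prob_gt_le (P := P) (X := fun ω => F ((n + 1 : ℕ) * a) v ω - W n ω)
    ((h.meas' _ v).sub hWm) (K := 2 * M) (fun ω => by
      have := abs_sub (F ((n + 1 : ℕ) * a) v ω) (W n ω)
      have := h.bound ((n + 1 : ℕ) * a) v ω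
      have := hWb n ω
      linarith) hδ
  rw [← ENNReal.ofReal_toReal (measure_ne_top P _)]
  refine ENNReal.ofReal_le_ofReal (h1.trans ?_)
  have h3 : 2 / δ ^ 2 * ∫ ω, (F ((n + 1 : ℕ) * a) v ω - W n ω) ^ 2 ∂P
      = 2 * ((∫ ω, (F ((n + 1 : ℕ) * a) v ω - W n ω) ^ 2 ∂P) / δ ^ 2) := by ring
  rw [h3]
  exact mul_le_mul_of_nonneg_left h2 zero_le_two

theorem IsModel.ae_block (h : IsModel P f0 N F M) (hs : Stays P N F) {a : ℝ≥0}
    (hsmall : (Fintype.card (Dir d) : ℝ) * a ≤ 1 / 2)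
    {W : ℕ → Ω → ℝ} (hW : ∀ n, Measurable[past f0 N 0] (W n)) (hWb : ∀ n ω, |W n ω| ≤ M)
    (v : Vertex d) {K : ℝ}
    (hsum : ∀ n, ∑ k ∈ Finset.range n, ∫ ω, (F ((k + 1 : ℕ) * a) v ω - W k ω) ^ 2 ∂P ≤ K)
    {δ : ℝ} (hδ : 0 < δ) :
    ∀ᵐ ω ∂P, ∀ᶠ n : ℕ in atTop, ω ∉ blockBad F W a v δ n := by
  refine ae_eventually_notMem (ne_of_lt ?_)
  have hs1 : Summable fun k : ℕ => ∫ ω, (F ((k + 1 : ℕ) * a) v ω - W k ω) ^ 2 ∂P :=
    summable_of_sum_range_le (fun k => integral_nonneg fun ω => sq_nonneg _) hsum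
  refine (ENNReal.tsum_le_tsum fun n => h.blockBad_le hs hsmall hW hWb v hδ n).trans_lt ?_
  rw [← ENNReal.ofReal_tsum_of_nonneg (fun m => ?_) (hs1.mul_left _)]
  · exact ENNReal.ofReal_lt_top
  · exact mul_nonneg (by positivity) (integral_nonneg fun ω => sq_nonneg _)

/-- **Convergence of the edge-averaging process.** -/
theorem tendsto_process (hd : 0 < d) {f : ℝ≥0 → Ω → Vertex d → ℝ}
    (h : IsEdgeAveragingProcess P f0 N f) (hb : ∃ M : ℝ, ∀ᵐ ω ∂P, ∀ v, |f0 ω v| ≤ M)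
    (hst : IsStationaryField P f0) (herg : IsErgodicField P f0) :
    ∀ᵐ ω ∂P, ∀ v, Tendsto (fun t => f t ω v) atTop (𝓝 (∫ ω, f0 ω 0 ∂P)) := by
  obtain ⟨M0, hM0⟩ := hb
  obtain ⟨M, hM, hb⟩ : ∃ M : ℝ, 0 ≤ M ∧ ∀ᵐ ω ∂P, ∀ v, |f0 ω v| ≤ M :=
    ⟨max M0 0, le_max_right _ _, hM0.mono fun ω hω v => (hω v).trans (le_max_left _ _)⟩
  have : Nonempty (Dir d) := ⟨(⟨0, hd⟩, true)⟩
  have hprob : IsProbabilityMeasure (P.map f0) :=
    Measure.isProbabilityMeasure_map h.measurable_init.aemeasurable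
  have hμ : ShiftInv (P.map f0) := shiftInv_of_stationary h.measurable_init hst
  set hS := isSymMarkov_nnAvg hμ with hhS
  set F := canon f0 N M with hF
  have hmod : IsModel P f0 N F M := h.model hM hb
  have hstay : Stays P N F := h.stays hM hb
  have hd' : (0 : ℝ≥0) < d := by exact_mod_cast hd
  set a : ℝ≥0 := 1 / (4 * d) with ha
  have ha0 : 0 < a := by positivity
  have hsmall : (Fintype.card (Dir d) : ℝ) * a ≤ 1 / 2 := by
    rw [card_dir, ha]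
    push_cast
    have : (d : ℝ) ≠ 0 := by positivity
    apply le_of_eq
    field_simp
    norm_num
  -- ergodic theorem for the initial profile
  have hergo : ∀ A, MeasurableSet A → (∀ x : Vertex d, shift x ⁻¹' A = A) →
      (P.map f0) A = 0 ∨ (P.map f0) A = 1 := by
    intro A hA hinv
    rw [Measure.map_apply h.measurable_init hA]
    exact herg A hA hinv
  have hheat := heat_ergodic hμ hergo (obs d M hM) (a := a * d) (by positivity)
  have hmean : ∫ g, (obs d M hM).1 g ∂(P.map f0) = ∫ ω, f0 ω 0 ∂P := by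
    rw [integral_map h.measurable_init.aemeasurable (BM.measurable _).aestronglyMeasurable]
    refine integral_congr_ae ?_
    filter_upwards [hb] with ω hω
    rw [obs_apply, clamp_eq (hω 0)]
  rw [hmean] at hheat
  set c := ∫ ω, f0 ω 0 ∂P with hc
  rw [ae_all_iff]
  intro v
  set W : ℕ → Ω → ℝ := fun n => cond hS f0 M hM ((n + 1 : ℕ) * a) v with hW
  have hWm : ∀ n, Measurable[past f0 N 0] (W n) := fun n => measurable_cond _ _
  have hWb : ∀ n ω, |W n ω| ≤ M := fun n ω => cond_abs_le _ _ _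
  have hWlim : ∀ᵐ ω ∂P, Tendsto (fun n => W n ω) atTop (𝓝 c) := by
    have h1 : ∀ᵐ g ∂(P.map f0), Tendsto (fun n : ℕ =>
        (poisOp hS (n * (a * d)) (obs d M hM)).1 (shift v g)) atTop (𝓝 c) :=
      (hμ.mp v).quasiMeasurePreserving.ae hheat
    have h2 := ae_of_ae_map h.measurable_init.aemeasurable h1
    filter_upwards [h2] with ω hω
    have h3 := (tendsto_add_atTop_iff_nat 1).2 hω
    refine h3.congr fun n => ?_
    rw [hW]
    simp only [cond, heatOp]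
    rw [mul_assoc]
  have hbad : ∀ᵐ ω ∂P, ∀ j : ℕ, ∀ᶠ n : ℕ in atTop, ω ∉ blockBad F W a v (1 / (j + 1)) n := by
    rw [ae_all_iff]
    intro j
    exact hmod.ae_block hstay hsmall hWm hWb v
      (fun n => hmod.sum_defect (hS := hS) hd hb hst ha0 v n) (by positivity)
  have hgrid : ∀ᵐ ω ∂P, ∀ m i : ℕ, f (ugrid a (2 ^ m) i) ω v = F (ugrid a (2 ^ m) i) v ω := by
    rw [ae_all_iff]
    intro m
    rw [ae_all_iff]
    intro i
    exact h.ae_eq_canon hM hb _ v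
  have hmono : ∀ᵐ ω ∂P, ∀ e, Monotone (fun t => N e t ω) :=
    ae_all_iff.2 fun e => (h.clock e).monotone
  have hrc : ∀ᵐ ω ∂P, ∀ e t, ContinuousWithinAt (fun s => N e s ω) (Ici t) t :=
    ae_all_iff.2 fun e => (h.clock e).rightCont
  filter_upwards [h.path, hmono, hrc, hWlim, hbad, hgrid] with ω hp h1 h2 h3 h4 h5
  rw [Metric.tendsto_atTop]
  intro ε hε
  obtain ⟨j, hj⟩ := exists_nat_one_div_lt (half_pos hε)
  rw [Metric.tendsto_atTop] at h3
  obtain ⟨n1, hn1⟩ := h3 (ε / 2) (half_pos hε)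
  obtain ⟨n2, hn2⟩ := eventually_atTop.1 (h4 j)
  set n0 := max n1 n2 with hn0
  refine ⟨n0 * a, fun t ht => ?_⟩
  -- the block of `t`
  set n := ⌊(t : ℝ) / a⌋₊ with hn
  have ha' : (0 : ℝ) < a := by exact_mod_cast ha0
  have hfl := Nat.floor_le (show (0 : ℝ) ≤ (t : ℝ) / a by positivity)
  have hlt := Nat.lt_floor_add_one ((t : ℝ) / a)
  rw [← hn] at hfl hlt
  rw [div_lt_iff₀ ha'] at hlt
  rw [le_div_iff₀ ha'] at hfl
  have hnt : (n : ℝ≥0) * a ≤ t := by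
    rw [← NNReal.coe_le_coe]; push_cast; exact hfl
  have htn : t < ((n + 1 : ℕ) : ℝ≥0) * a := by
    rw [← NNReal.coe_lt_coe]; push_cast; exact hlt
  have hn0n : n0 ≤ n := by
    rw [hn]
    refine Nat.le_floor ?_
    rw [le_div_iff₀ ha']
    have : ((n0 * a : ℝ≥0) : ℝ) ≤ t := by exact_mod_cast ht
    push_cast at this
    exact this
  have hev := hp.eventually_eq_right h1 h2 t v
  have hev2 : ∀ᶠ u in 𝓝[>] t, f u ω v = f t ω v :=
    hev.filter_mono (nhdsWithin_mono t Ioi_subset_Ici_self)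
  obtain ⟨u, hu1, hu2⟩ := (mem_nhdsGT_iff_exists_Ioo_subset' htn).1 hev2
  have hu1' : t < u := hu1
  obtain ⟨u', hu'1, hu'2⟩ := exists_between (lt_min hu1' htn)
  obtain ⟨m, i, hi1, hi2, hi3, hi4⟩ := exists_dyadic ha0 hnt hu'1
    ((hu'2.le.trans (min_le_right _ _)))
  have heq : f (ugrid a (2 ^ m) i) ω v = f t ω v :=
    hu2 ⟨hi3, hi4.trans_lt (hu'2.trans_le (min_le_left _ _))⟩
  have hnot := hn2 n ((le_max_right _ _).trans hn0n)
  have hle : |F (ugrid a (2 ^ m) i) v ω - W n ω| ≤ 1 / (j + 1) := by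
    by_contra hcon
    push Not at hcon
    refine hnot ?_
    simp only [blockBad, mem_iUnion]
    exact ⟨m, i, hi1, hi2, hcon⟩
  rw [← h5, heq] at hle
  have hWn := hn1 n ((le_max_left _ _).trans hn0n)
  rw [Real.dist_eq] at hWn ⊢
  have := abs_sub_le (f t ω v) (W n ω) c
  linarith

end Pool.Agent.EdgeAveraging
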